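import Pool.Agent.TH290.FC.Pert

set_option autoImplicit false

/-! # The cycle of the unperturbed map -/

open Set Filter Topology Real
open scoped ContDiff
open Pool.Agent.H728R2.OS (IsLift IsDiffeo CkClose)

namespace Pool.Agent.TH290.FC

theorem mem_stab {V : Type*} [NormedAddCommGroup V] [NormedSpace ℝ V] {F : V → V} {z v : V} :
    v ∈ Stab F z ↔ Tendsto (fun n : ℕ => fderiv ℝ (F^[n]) z v) atTop (𝓝 0) := Iff.rfl

theorem iter_cd {G : E → E} (hG : ContDiff ℝ 1 G) (n : ℕ) : ContDiff ℝ 1 (G^[n]) := by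
  induction n with
  | zero => exact contDiff_id
  | succ n ih => rw [Function.iterate_succ]; exact ih.comp hG

theorem fderiv_iter' {G : E → E} (hG : ContDiff ℝ 1 G) (n : ℕ) (x v : E) :
    fderiv ℝ (G^[n + 1]) x v = fderiv ℝ (G^[n]) (G x) (fderiv ℝ G x v) := by
  have h1 : G^[n + 1] = G^[n] ∘ G := Function.iterate_succ G n
  rw [h1, fderiv_comp x ((iter_cd hG n).differentiable one_ne_zero).differentiableAt
    (hG.differentiable one_ne_zero).differentiableAt]
  rfl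

theorem FF1 : ContDiff ℝ 1 FF := FF_cd.of_le (by exact_mod_cast le_top)
theorem FI1 : ContDiff ℝ 1 FI := FI_cd.of_le (by exact_mod_cast le_top)

/-- The diagonal map. -/
noncomputable def D3 (a b c : ℝ) : E →L[ℝ] E := ContinuousLinearMap.pi fun i =>
  (![a, b, c] : E) i • ContinuousLinearMap.proj i

theorem D3_apply (a b c : ℝ) (v : E) : D3 a b c v = ![a * v 0, b * v 1, c * v 2] := by
  refine ext3 ?_ ?_ ?_ <;> simp [D3]

/-- Derivative of a locally affine map. -/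
theorem fderiv_of {F : E → E} {O : Set E} (hO : IsOpen O) {a b c : ℝ} {d : E}
    (h : ∀ x ∈ O, F x = ![a * x 0, b * x 1, c * x 2] + d) {x : E} (hx : x ∈ O) :
    HasFDerivAt F (D3 a b c) x := by
  have h1 : HasFDerivAt (fun x => D3 a b c x + d) (D3 a b c) x :=
    ((D3 a b c).hasFDerivAt).add_const _
  refine h1.congr_of_eventuallyEq ?_
  filter_upwards [hO.mem_nhds hx] with y hy
  rw [h y hy, D3_apply]

theorem OP_open : IsOpen OP :=
  (isOpen_lt (continuous_abs.comp (continuous_apply 0)) continuous_const).inter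
    ((isOpen_lt (continuous_abs.comp (continuous_apply 1)) continuous_const).inter
    (isOpen_lt (continuous_abs.comp (continuous_apply 2)) continuous_const))

theorem OQ_open : IsOpen OQ :=
  (isOpen_lt (continuous_abs.comp ((continuous_apply 0).sub continuous_const))
    continuous_const).inter
    ((isOpen_lt (continuous_abs.comp (continuous_apply 1)) continuous_const).inter
    (isOpen_lt (continuous_abs.comp ((continuous_apply 2).sub continuous_const))
      continuous_const))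

theorem dFP {x : E} (hx : x ∈ OP) : HasFDerivAt FF (D3 (1 / 100) (2 / 5) kp) x :=
  fderiv_of OP_open (d := 0) (fun y hy => by rw [FF_P hy, add_zero]) hx

theorem dFQ {x : E} (hx : x ∈ OQ) : HasFDerivAt FF (D3 kp (8 / 5) (1 / 100)) x :=
  fderiv_of OQ_open (d := ![3 / 2 - kp / 2, 0, 99 / 200]) (fun y hy => by
    rw [FF_Q hy]
    refine ext3 ?_ ?_ ?_ <;> simp only [Pi.add_apply, v3_0, v3_1, v3_2] <;> ring) hx

/-- The zone around the point of tangency. -/
def OY : Set E := {x | |x 0 - 1 / 4| < 1 / 64 ∧ |x 1 + 1 / 8| < 1 / 64 ∧ |x 2 - 1 / 2| < 1 / 100}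

theorem OY_open : IsOpen OY :=
  (isOpen_lt (continuous_abs.comp ((continuous_apply 0).sub continuous_const))
    continuous_const).inter
    ((isOpen_lt (continuous_abs.comp ((continuous_apply 1).add continuous_const))
      continuous_const).inter
    (isOpen_lt (continuous_abs.comp ((continuous_apply 2).sub continuous_const))
      continuous_const))

theorem FF_Y {x : E} (hx : x ∈ OY) :
    FF x = ![1 / 100 * x 0, 2 / 5 * x 1, kp * x 2] + ![1, 0, 1 - kp / 2] := by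
  obtain ⟨h0, h1, h2⟩ := hx
  have h0' := abs_lt.1 h0
  have h1' := abs_lt.1 h1
  have h2' := abs_lt.1 h2
  have e : x 2 + 1 / 2 * 1 = (x 2 - 1 / 2) + 1 := by ring
  have e3 := th_add_int (x 0) 1
  push_cast at e3
  rw [FF_gen, bu_one h0.le h1.le, e, aa_one (by linarith) (by linarith), gx_add_one,
    gx_small (by rw [abs_le]; constructor <;> linarith), e3,
    th_neg (by rw [abs_le]; constructor <;> linarith),
    hh_lin (by rw [abs_le]; constructor <;> linarith), ps_add_one, ps_lin h2.le]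
  refine ext3 ?_ ?_ ?_ <;> simp only [Pi.add_apply, v3_0, v3_1, v3_2] <;> ring

theorem dFY {x : E} (hx : x ∈ OY) : HasFDerivAt FF (D3 (1 / 100) (2 / 5) kp) x :=
  fderiv_of OY_open (fun _ hy => FF_Y hy) hx

/-- Translations. -/
theorem FF_iter_add (n : ℕ) (x l : E) (hl : l ∈ Ltc) : FF^[n] (x + l) = FF^[n] x + AL^[n] l := by
  have hmem : ∀ n : ℕ, AL^[n] l ∈ Ltc := fun n => by
    induction n with
    | zero => exact hl
    | succ n ih => rw [Function.iterate_succ_apply']; exact AL_mem ih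
  induction n with
  | zero => rfl
  | succ n ih =>
    rw [Function.iterate_succ_apply', Function.iterate_succ_apply', Function.iterate_succ_apply',
      ih, FF_add (hmem n)]

theorem FI_iter_add (n : ℕ) (x l : E) (hl : l ∈ Ltc) : FI^[n] (x + l) = FI^[n] x + AI^[n] l := by
  have hmem : ∀ n : ℕ, AI^[n] l ∈ Ltc := fun n => by
    induction n with
    | zero => exact hl
    | succ n ih => rw [Function.iterate_succ_apply']; exact AI_mem ih
  induction n with
  | zero => rfl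
  | succ n ih =>
    rw [Function.iterate_succ_apply', Function.iterate_succ_apply', Function.iterate_succ_apply',
      ih, FI_add (hmem n)]

theorem dFF_add (n : ℕ) (x l : E) (hl : l ∈ Ltc) :
    fderiv ℝ (FF^[n]) (x + l) = fderiv ℝ (FF^[n]) x := by
  rw [← fderiv_comp_add_right (f := FF^[n]) l]
  have : (fun y => FF^[n] (y + l)) = fun y => FF^[n] y + AL^[n] l :=
    funext fun y => FF_iter_add n y l hl
  rw [this, fderiv_add_const]

theorem dFI_add (n : ℕ) (x l : E) (hl : l ∈ Ltc) :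
    fderiv ℝ (FI^[n]) (x + l) = fderiv ℝ (FI^[n]) x := by
  rw [← fderiv_comp_add_right (f := FI^[n]) l]
  have : (fun y => FI^[n] (y + l)) = fun y => FI^[n] y + AI^[n] l :=
    funext fun y => FI_iter_add n y l hl
  rw [this, fderiv_add_const]

theorem stabFF_add (x l : E) (hl : l ∈ Ltc) : Stab FF (x + l) = Stab FF x := by
  ext v
  simp only [mem_stab, dFF_add _ x l hl]

theorem stabFI_add (x l : E) (hl : l ∈ Ltc) : Stab FI (x + l) = Stab FI x := by
  ext v
  simp only [mem_stab, dFI_add _ x l hl]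

/-! ### Forward derivatives -/

theorem fwdP (n : ℕ) : ∀ x : E, x ∈ OP → x 2 = 0 → ∀ v : E,
    fderiv ℝ (FF^[n]) x v = ![(1 / 100) ^ n * v 0, (2 / 5) ^ n * v 1, kp ^ n * v 2] := by
  induction n with
  | zero =>
    intro x _ _ v
    refine ext3 ?_ ?_ ?_ <;> simp
  | succ n ih =>
    intro x hx h2 v
    have hF := FF_P hx
    have m : FF x ∈ OP ∧ FF x 2 = 0 := by
      obtain ⟨a0, a1, a2⟩ := hx
      refine ⟨⟨?_, ?_, ?_⟩, ?_⟩
      · rw [hF, v3_0, abs_mul, abs_of_pos (by norm_num : (0 : ℝ) < 1 / 100)]; linarith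
      · rw [hF, v3_1, abs_mul, abs_of_pos (by norm_num : (0 : ℝ) < 2 / 5)]; linarith
      · rw [hF, v3_2, h2, mul_zero, abs_zero]; norm_num
      · rw [hF, v3_2, h2, mul_zero]
    rw [fderiv_iter' FF1, ih _ m.1 m.2, (dFP hx).fderiv, D3_apply]
    refine ext3 ?_ ?_ ?_ <;> simp only [v3_0, v3_1, v3_2] <;> ring

theorem fwdY (n : ℕ) (v : E) :
    fderiv ℝ (FF^[n]) ![1 / 4, -(1 / 8), 1 / 2] v =
      ![(1 / 100) ^ n * v 0, (2 / 5) ^ n * v 1, kp ^ n * v 2] := by
  cases n with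
  | zero => refine ext3 ?_ ?_ ?_ <;> simp
  | succ n =>
    have hY : (![1 / 4, -(1 / 8), 1 / 2] : E) ∈ OY := by
      refine ⟨?_, ?_, ?_⟩ <;> simp only [v3_0, v3_1, v3_2] <;> norm_num
    have e : FF ![1 / 4, -(1 / 8), 1 / 2] = ![1 / 400, -(1 / 20), 0] + ![1, 0, 1] := by
      rw [FF_Y hY]
      refine ext3 ?_ ?_ ?_ <;> simp only [Pi.add_apply, v3_0, v3_1, v3_2] <;> ring
    have hl : (![1, 0, 1] : E) ∈ Ltc := mem_Ltc (a := 1) (b := 0) (c := 1) (by simp) (by simp)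
      (by simp)
    rw [fderiv_iter' FF1, e, dFF_add _ _ _ hl, fwdP n _ ⟨?_, ?_, ?_⟩ rfl, (dFY hY).fderiv,
      D3_apply]
    · refine ext3 ?_ ?_ ?_ <;> simp only [v3_0, v3_1, v3_2] <;> ring
    · rw [v3_0, abs_of_pos (by norm_num)]; norm_num
    · rw [v3_1, abs_neg, abs_of_pos (by norm_num)]; norm_num
    · rw [v3_2, abs_zero]; norm_num

theorem fwdQ (n : ℕ) : ∀ x : E, x ∈ OQ → x 0 = 1 / 2 → x 1 = 0 → ∀ v : E,
    fderiv ℝ (FF^[n]) x v = ![kp ^ n * v 0, (8 / 5) ^ n * v 1, (1 / 100) ^ n * v 2] := by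
  induction n with
  | zero =>
    intro x _ _ _ v
    refine ext3 ?_ ?_ ?_ <;> simp
  | succ n ih =>
    intro x hx h0 h1 v
    have hF := FF_Q hx
    obtain ⟨y, hy⟩ : ∃ y, FF x = y + e0 := ⟨FF x - e0, by abel⟩
    have y0 : y 0 = 1 / 2 := by
      have : FF x 0 = y 0 + 1 := by rw [hy]; simp [e0]
      rw [hF, v3_0, h0] at this
      linarith
    have y1 : y 1 = 0 := by
      have : FF x 1 = y 1 := by rw [hy]; simp [e0]
      rw [hF, v3_1, h1] at this
      linarith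
    have y2 : y 2 - 1 / 2 = 1 / 100 * (x 2 - 1 / 2) := by
      have : FF x 2 = y 2 := by rw [hy]; simp [e0]
      rw [hF, v3_2] at this
      linarith
    have m : y ∈ OQ := by
      refine ⟨by rw [y0]; norm_num, by rw [y1]; norm_num, ?_⟩
      rw [y2, abs_mul, abs_of_pos (by norm_num : (0 : ℝ) < 1 / 100)]
      have := hx.2.2
      linarith
    rw [fderiv_iter' FF1, hy, dFF_add _ _ _ e0_mem, ih _ m y0 y1, (dFQ hx).fderiv, D3_apply]
    refine ext3 ?_ ?_ ?_ <;> simp only [v3_0, v3_1, v3_2] <;> ring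

/-! ### Backward derivatives -/

/-- Derivative of the inverse at an image. -/
theorem dFI_of {w : E} {a b c : ℝ} (ha : a ≠ 0) (hb : b ≠ 0) (hc : c ≠ 0)
    (h : HasFDerivAt FF (D3 a b c) w) (v : E) :
    fderiv ℝ FI (FF w) v = ![a⁻¹ * v 0, b⁻¹ * v 1, c⁻¹ * v 2] := by
  have h1 : FI ∘ FF = id := funext FI_FF
  have h2 := fderiv_comp w ((FI1.differentiable one_ne_zero) (FF w)) h.differentiableAt
  rw [h1, fderiv_id, h.fderiv] at h2
  have h3 := congrArg (fun T => T ![a⁻¹ * v 0, b⁻¹ * v 1, c⁻¹ * v 2]) h2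
  simp only [ContinuousLinearMap.comp_apply, D3_apply, v3_0, v3_1, v3_2] at h3
  have h4 : (![a * (a⁻¹ * v 0), b * (b⁻¹ * v 1), c * (c⁻¹ * v 2)] : E) = v := by
    refine ext3 ?_ ?_ ?_ <;> simp only [v3_0, v3_1, v3_2] <;> field_simp
  rw [h4] at h3
  exact h3.symm

theorem bwdQ (n : ℕ) : ∀ x : E, |x 0 - 1 / 2| ≤ 1 / 4 → |x 1| ≤ 1 / 8 → x 2 = 1 / 2 → ∀ v : E,
    fderiv ℝ (FI^[n]) x v = ![kp⁻¹ ^ n * v 0, (5 / 8) ^ n * v 1, 100 ^ n * v 2] := by
  have hk := kp_lo
  induction n with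
  | zero =>
    intro x _ _ _ v
    refine ext3 ?_ ?_ ?_ <;> simp
  | succ n ih =>
    intro x h0 h1 h2 v
    set w : E := ![1 / 2 + (x 0 - 1 / 2) / kp, 5 / 8 * x 1, 1 / 2] with hw
    have w0 : |w 0 - 1 / 2| ≤ 1 / 150 := by
      rw [hw, v3_0, add_sub_cancel_left, abs_div, abs_of_pos kp_pos, div_le_iff₀ kp_pos]
      linarith
    have w1 : |w 1| ≤ 1 / 8 := by
      rw [hw, v3_1, abs_mul, abs_of_pos (by norm_num : (0 : ℝ) < 5 / 8)]
      linarith
    have hwO : w ∈ OQ := ⟨by linarith, by linarith, by rw [hw, v3_2]; norm_num⟩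
    have hF : FF w = x + e0 := by
      rw [FF_Q hwO]
      have := kp_pos
      refine ext3 ?_ ?_ ?_ <;> simp only [Pi.add_apply, e0, v3_0, v3_1, v3_2, hw]
      · field_simp
        ring
      · ring
      · rw [h2]; norm_num
    have hFI : FI x = w + -e0 := by
      have : FI (FF w) = w := FI_FF w
      rw [hF, FI_add e0_mem] at this
      have hA : AI e0 = e0 := by refine ext3 ?_ ?_ ?_ <;> simp [AI, e0]
      rw [hA] at this
      rw [← this]; abel
    have hd : fderiv ℝ FI x v = ![kp⁻¹ * v 0, (5 / 8) * v 1, 100 * v 2] := by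
      have h3 := dFI_of kp_pos.ne' (by norm_num) (by norm_num) (dFQ hwO) v
      rw [hF] at h3
      have h4 := dFI_add 1 x e0 e0_mem
      rw [Function.iterate_one] at h4
      rw [h4] at h3
      rw [h3]
      refine ext3 ?_ ?_ ?_ <;> simp only [v3_0, v3_1, v3_2] <;> norm_num
    rw [fderiv_iter' FI1, hFI, dFI_add _ _ _ (Ltc.neg_mem e0_mem), ih w (by linarith) w1 rfl, hd]
    refine ext3 ?_ ?_ ?_ <;> simp only [v3_0, v3_1, v3_2] <;> ring

theorem bwdP (n : ℕ) : ∀ x : E, x 0 = 0 → x 1 = 0 → |x 2| ≤ 1 / 4 → ∀ v : E,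
    fderiv ℝ (FI^[n]) x v = ![100 ^ n * v 0, (5 / 2) ^ n * v 1, kp⁻¹ ^ n * v 2] := by
  have hk := kp_lo
  induction n with
  | zero =>
    intro x _ _ _ v
    refine ext3 ?_ ?_ ?_ <;> simp
  | succ n ih =>
    intro x h0 h1 h2 v
    set w : E := ![0, 0, x 2 / kp] with hw
    have w2 : |w 2| ≤ 1 / 150 := by
      rw [hw, v3_2, abs_div, abs_of_pos kp_pos, div_le_iff₀ kp_pos]
      linarith
    have hwO : w ∈ OP := ⟨by rw [hw, v3_0]; norm_num, by rw [hw, v3_1]; norm_num, by linarith⟩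
    have hF : FF w = x := by
      rw [FF_P hwO]
      have := kp_pos
      refine ext3 ?_ ?_ ?_ <;> simp only [v3_0, v3_1, v3_2, hw]
      · rw [h0]; norm_num
      · rw [h1]; norm_num
      · field_simp
    have hFI : FI x = w := by rw [← hF, FI_FF]
    have hd : fderiv ℝ FI x v = ![100 * v 0, (5 / 2) * v 1, kp⁻¹ * v 2] := by
      have h3 := dFI_of (by norm_num) (by norm_num) kp_pos.ne' (dFP hwO) v
      rw [hF] at h3
      rw [h3]
      refine ext3 ?_ ?_ ?_ <;> simp only [v3_0, v3_1, v3_2] <;> norm_num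
    rw [fderiv_iter' FI1, hFI, ih w rfl rfl (by linarith), hd]
    refine ext3 ?_ ?_ ?_ <;> simp only [v3_0, v3_1, v3_2] <;> ring

/-! ### The stable spaces -/

theorem tend3 {a b c : ℝ} {v : E} :
    Tendsto (fun n : ℕ => (![a ^ n * v 0, b ^ n * v 1, c ^ n * v 2] : E)) atTop (𝓝 0) ↔
      Tendsto (fun n : ℕ => a ^ n * v 0) atTop (𝓝 0) ∧ Tendsto (fun n : ℕ => b ^ n * v 1) atTop (𝓝 0)
        ∧ Tendsto (fun n : ℕ => c ^ n * v 2) atTop (𝓝 0) := by
  rw [tendsto_pi_nhds]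
  constructor
  · intro h
    exact ⟨h 0, h 1, h 2⟩
  · rintro ⟨h0, h1, h2⟩ i
    fin_cases i
    · exact h0
    · exact h1
    · exact h2

theorem tend_c {a s : ℝ} (h0 : 0 ≤ a) (h1 : a < 1) :
    Tendsto (fun n : ℕ => a ^ n * s) atTop (𝓝 0) := by
  have := (tendsto_pow_atTop_nhds_zero_of_lt_one h0 h1).mul_const s
  simpa using this

theorem tend_e {a s : ℝ} (h1 : 1 ≤ a) :
    Tendsto (fun n : ℕ => a ^ n * s) atTop (𝓝 0) ↔ s = 0 := by
  constructor
  · intro h
    have h2 : ∀ n : ℕ, |s| ≤ |a ^ n * s| := fun n => by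
      rw [abs_mul]
      have : 1 ≤ |a ^ n| := by
        rw [abs_of_nonneg (by positivity)]
        exact one_le_pow₀ h1
      have := abs_nonneg s
      nlinarith
    have h3 := le_of_tendsto_of_tendsto' tendsto_const_nhds h.abs h2
    rw [abs_zero] at h3
    exact abs_nonpos_iff.1 h3
  · rintro rfl
    simp

/-- Fibres of dimension two. -/
theorem finrank_two (W : Submodule ℝ E) (h : ∀ v : E, v ∈ W ↔ v 2 = 0) :
    Module.finrank ℝ W = 2 := by
  let T : W →ₗ[ℝ] (Fin 2 → ℝ) :=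
    { toFun := fun v => ![(v : E) 0, (v : E) 1]
      map_add' := fun v w => by funext i; fin_cases i <;> simp
      map_smul' := fun c v => by funext i; fin_cases i <;> simp }
  have hT : Function.Bijective T := by
    constructor
    · rw [← LinearMap.ker_eq_bot, LinearMap.ker_eq_bot']
      intro v hv
      have h0 : (v : E) 0 = 0 := congrFun hv 0
      have h1 : (v : E) 1 = 0 := congrFun hv 1
      exact Subtype.ext (ext3 h0 h1 ((h v).1 v.2))
    · intro a
      refine ⟨⟨![a 0, a 1, 0], (h _).2 rfl⟩, ?_⟩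
      funext i
      fin_cases i <;> rfl
  rw [(LinearEquiv.ofBijective T hT).finrank_eq, Module.finrank_fintype_fun_eq_card]
  rfl

/-- Fibres of dimension one. -/
theorem finrank_one' (W : Submodule ℝ E) (h : ∀ v : E, v ∈ W ↔ v 0 = 0 ∧ v 1 = 0) :
    Module.finrank ℝ W = 1 := by
  let T : W →ₗ[ℝ] ℝ :=
    { toFun := fun v => (v : E) 2
      map_add' := fun v w => by simp
      map_smul' := fun c v => by simp }
  have hT : Function.Bijective T := by
    constructor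
    · rw [← LinearMap.ker_eq_bot, LinearMap.ker_eq_bot']
      intro v hv
      have h2 : (v : E) 2 = 0 := hv
      exact Subtype.ext (ext3 ((h v).1 v.2).1 ((h v).1 v.2).2 h2)
    · intro a
      exact ⟨⟨![0, 0, a], (h _).2 ⟨rfl, rfl⟩⟩, rfl⟩
  rw [(LinearEquiv.ofBijective T hT).finrank_eq, Module.finrank_self]

theorem compl_of {W W' : Submodule ℝ E} (h : ∀ v : E, v ∈ W ↔ v 2 = 0)
    (h' : ∀ v : E, v ∈ W' ↔ v 0 = 0 ∧ v 1 = 0) : IsCompl W W' := by
  constructor
  · rw [Submodule.disjoint_def]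
    intro v hv hv'
    exact ext3 ((h' v).1 hv').1 ((h' v).1 hv').2 ((h v).1 hv)
  · rw [codisjoint_iff, eq_top_iff]
    intro v _
    rw [Submodule.mem_sup]
    refine ⟨![v 0, v 1, 0], (h _).2 rfl, ![0, 0, v 2], (h' _).2 ⟨rfl, rfl⟩, ?_⟩
    refine ext3 ?_ ?_ ?_ <;> simp

theorem kp_inv : kp⁻¹ ≤ 1 / 47 := by
  rw [inv_le_comm₀ kp_pos (by norm_num)]
  have := kp_lo
  norm_num
  exact this

theorem kp_inv0 : 0 ≤ kp⁻¹ := inv_nonneg.2 kp_pos.le

theorem zero_OP : (0 : E) ∈ OP := ⟨by simp, by simp, by simp⟩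
theorem cQ_OQ : cQ ∈ OQ := ⟨by simp [cQ], by simp [cQ], by simp [cQ]⟩

theorem stabP (v : E) : v ∈ Stab FF (0 : E) ↔ v 2 = 0 := by
  rw [mem_stab]
  simp only [fwdP _ 0 zero_OP rfl v]
  rw [tend3, tend_e (a := kp) (by linarith [kp_lo])]
  exact ⟨fun h => h.2.2, fun h => ⟨tend_c (by norm_num) (by norm_num),
    tend_c (by norm_num) (by norm_num), h⟩⟩

theorem ustabP (v : E) : v ∈ Stab FI (0 : E) ↔ v 0 = 0 ∧ v 1 = 0 := by
  rw [mem_stab]
  simp only [bwdP _ 0 rfl rfl (by simp) v]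
  rw [tend3, tend_e (a := 100) (by norm_num), tend_e (a := 5 / 2) (by norm_num)]
  exact ⟨fun h => ⟨h.1, h.2.1⟩, fun h => ⟨h.1, h.2, tend_c kp_inv0 (by linarith [kp_inv])⟩⟩

theorem stabQ (v : E) : v ∈ Stab FF cQ ↔ v 0 = 0 ∧ v 1 = 0 := by
  rw [mem_stab]
  simp only [fwdQ _ cQ cQ_OQ rfl rfl v]
  rw [tend3, tend_e (a := kp) (by linarith [kp_lo]), tend_e (a := 8 / 5) (by norm_num)]
  exact ⟨fun h => ⟨h.1, h.2.1⟩, fun h => ⟨h.1, h.2, tend_c (by norm_num) (by norm_num)⟩⟩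

theorem ustabQ (v : E) : v ∈ Stab FI cQ ↔ v 2 = 0 := by
  rw [mem_stab]
  simp only [bwdQ _ cQ (by simp [cQ]) (by simp [cQ]) rfl v]
  rw [tend3, tend_e (a := 100) (by norm_num)]
  exact ⟨fun h => h.2.2, fun h => ⟨tend_c kp_inv0 (by linarith [kp_inv]),
    tend_c (by norm_num) (by norm_num), h⟩⟩

/-- The point of tangency. -/
noncomputable def yT : E := ![1 / 4, -(1 / 8), 1 / 2]

theorem stabY (v : E) : v ∈ Stab FF yT ↔ v 2 = 0 := by
  rw [mem_stab]
  unfold yT
  simp only [fwdY _ v]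
  rw [tend3, tend_e (a := kp) (by linarith [kp_lo])]
  exact ⟨fun h => h.2.2, fun h => ⟨tend_c (by norm_num) (by norm_num),
    tend_c (by norm_num) (by norm_num), h⟩⟩

theorem ustabY (v : E) : v ∈ Stab FI yT ↔ v 2 = 0 := by
  rw [mem_stab]
  have h0 : |yT 0 - 1 / 2| ≤ 1 / 4 := by unfold yT; rw [v3_0]; norm_num [abs_of_neg]
  have h1 : |yT 1| ≤ 1 / 8 := by
    unfold yT; rw [v3_1, abs_neg, abs_of_pos (by norm_num)]
  simp only [bwdQ _ yT h0 h1 rfl v]
  rw [tend3, tend_e (a := 100) (by norm_num)]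
  exact ⟨fun h => h.2.2, fun h => ⟨tend_c kp_inv0 (by linarith [kp_inv]),
    tend_c (by norm_num) (by norm_num), h⟩⟩

/-! ### Bounds -/

theorem nb {a b c μ : ℝ} {v : E} (n : ℕ) (ha : |a| ≤ μ) (hb : |b| ≤ μ) (hc : |c| ≤ μ ∨ v 2 = 0) :
    ‖(![a ^ n * v 0, b ^ n * v 1, c ^ n * v 2] : E)‖ ≤ μ ^ n * ‖v‖ := by
  have hμ : 0 ≤ μ := (abs_nonneg _).trans ha
  have key : ∀ (s : ℝ) (i : Fin 3), |s| ≤ μ → |s ^ n * v i| ≤ μ ^ n * ‖v‖ := fun s i hs => by
    rw [abs_mul, abs_pow]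
    exact mul_le_mul (pow_le_pow_left₀ (abs_nonneg _) hs n) (cle v i) (abs_nonneg _)
      (pow_nonneg hμ n)
  refine norm3 ?_ ?_ ?_
  · rw [v3_0]; exact key a 0 ha
  · rw [v3_1]; exact key b 1 hb
  · rw [v3_2]
    rcases hc with h | h
    · exact key c 2 h
    · rw [h, mul_zero, abs_zero]; positivity

theorem nb' {a b c μ : ℝ} {v : E} (n : ℕ) (h0 : v 0 = 0) (h1 : v 1 = 0) (hc : |c| ≤ μ) :
    ‖(![a ^ n * v 0, b ^ n * v 1, c ^ n * v 2] : E)‖ ≤ μ ^ n * ‖v‖ := by
  have hμ : 0 ≤ μ := (abs_nonneg _).trans hc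
  refine norm3 ?_ ?_ ?_
  · rw [v3_0, h0, mul_zero, abs_zero]; positivity
  · rw [v3_1, h1, mul_zero, abs_zero]; positivity
  · rw [v3_2, abs_mul, abs_pow]
    exact mul_le_mul (pow_le_pow_left₀ (abs_nonneg _) hc n) (cle v 2) (abs_nonneg _)
      (pow_nonneg hμ n)

theorem kp_inv_abs : |kp⁻¹| ≤ 2 / 3 := by
  rw [abs_of_nonneg kp_inv0]; linarith [kp_inv]

/-- Hyperbolicity of the first fixed point. -/
theorem hypP (z : E) (hz : pr z = pr 0) :
    IsCompl (Stab FF z) (Stab FI z) ∧ Module.finrank ℝ (Stab FF z) = 2 ∧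
      ∀ n : ℕ, (∀ v ∈ Stab FF z, ‖fderiv ℝ (FF^[n]) z v‖ ≤ 1 * (2 / 3) ^ n * ‖v‖) ∧
        ∀ v ∈ Stab FI z, ‖fderiv ℝ (FI^[n]) z v‖ ≤ 1 * (2 / 3) ^ n * ‖v‖ := by
  have hl : z ∈ Ltc := by
    have := pr_eq.1 hz.symm
    rwa [sub_zero] at this
  have e : z = 0 + z := (zero_add z).symm
  have s1 : Stab FF z = Stab FF 0 := by
    have := stabFF_add 0 z hl
    rwa [zero_add] at this
  have s2 : Stab FI z = Stab FI 0 := by
    have := stabFI_add 0 z hl
    rwa [zero_add] at this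
  rw [s1, s2]
  refine ⟨compl_of stabP ustabP, finrank_two _ stabP, fun n => ⟨fun v hv => ?_, fun v hv => ?_⟩⟩
  · have := dFF_add n 0 z hl
    rw [zero_add] at this
    rw [this, fwdP n 0 zero_OP rfl v, one_mul]
    exact nb n (by rw [abs_of_pos (by norm_num)]; norm_num)
      (by rw [abs_of_pos (by norm_num)]; norm_num) (Or.inr ((stabP v).1 hv))
  · have := dFI_add n 0 z hl
    rw [zero_add] at this
    rw [this, bwdP n 0 rfl rfl (by simp) v, one_mul]
    exact nb' n ((ustabP v).1 hv).1 ((ustabP v).1 hv).2 kp_inv_abs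

/-- Hyperbolicity of the second fixed point. -/
theorem hypQ (z : E) (hz : pr z = pr cQ) :
    IsCompl (Stab FF z) (Stab FI z) ∧ Module.finrank ℝ (Stab FF z) = 1 ∧
      ∀ n : ℕ, (∀ v ∈ Stab FF z, ‖fderiv ℝ (FF^[n]) z v‖ ≤ 1 * (2 / 3) ^ n * ‖v‖) ∧
        ∀ v ∈ Stab FI z, ‖fderiv ℝ (FI^[n]) z v‖ ≤ 1 * (2 / 3) ^ n * ‖v‖ := by
  have hl : z - cQ ∈ Ltc := pr_eq.1 hz.symm
  have e : cQ + (z - cQ) = z := by abel
  have s1 : Stab FF z = Stab FF cQ := by
    have := stabFF_add cQ _ hl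
    rwa [e] at this
  have s2 : Stab FI z = Stab FI cQ := by
    have := stabFI_add cQ _ hl
    rwa [e] at this
  rw [s1, s2]
  refine ⟨(compl_of ustabQ stabQ).symm, finrank_one' _ stabQ,
    fun n => ⟨fun v hv => ?_, fun v hv => ?_⟩⟩
  · have := dFF_add n cQ _ hl
    rw [e] at this
    rw [this, fwdQ n cQ cQ_OQ rfl rfl v, one_mul]
    exact nb' n ((stabQ v).1 hv).1 ((stabQ v).1 hv).2
      (by rw [abs_of_pos (by norm_num)]; norm_num)
  · have := dFI_add n cQ _ hl
    rw [e] at this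
    rw [this, bwdQ n cQ (by simp [cQ]) (by simp [cQ]) rfl v, one_mul]
    exact nb n kp_inv_abs (by rw [abs_of_pos (by norm_num)]; norm_num)
      (Or.inr ((ustabQ v).1 hv))

/-! ### The heteroclinic orbits -/

theorem FF_zero : FF 0 = 0 := by
  rw [FF_P zero_OP]
  refine ext3 ?_ ?_ ?_ <;> simp

theorem FF_cQ : FF cQ = cQ + e0 := by
  rw [FF_Q cQ_OQ]
  refine ext3 ?_ ?_ ?_ <;> simp only [Pi.add_apply, cQ, e0, v3_0, v3_1, v3_2] <;> norm_num

theorem fP : ff (pr 0) = pr 0 := by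
  show pr (FF 0) = pr 0
  rw [FF_zero]

theorem fQ : ff (pr cQ) = pr cQ := by
  show pr (FF cQ) = pr cQ
  rw [FF_cQ, pr_add e0_mem]

theorem fP' : ff.symm (pr 0) = pr 0 := by
  conv_lhs => rw [← fP]
  exact ff.symm_apply_apply _

theorem fQ' : ff.symm (pr cQ) = pr cQ := by
  conv_lhs => rw [← fQ]
  exact ff.symm_apply_apply _

/-- Orbits through explicit points. -/
theorem orbit_of {g : MM ≃ₜ MM} {s : ℕ → E} (h : ∀ n, g (pr (s n)) = pr (s (n + 1))) (n : ℕ) :
    g^[n] (pr (s 0)) = pr (s n) := by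
  induction n with
  | zero => rfl
  | succ n ih => rw [Function.iterate_succ_apply', ih, h]

theorem asymp {g : MM ≃ₜ MM} {s : ℕ → E} {p : E} (hp : g (pr p) = pr p)
    (h : ∀ n, g (pr (s n)) = pr (s (n + 1))) (hl : Tendsto s atTop (𝓝 p)) :
    Tendsto (fun n : ℕ => dist (g^[n] (pr p)) (g^[n] (pr (s 0)))) atTop (𝓝 0) := by
  have h1 : ∀ n, g^[n] (pr p) = pr p := fun n => Function.iterate_fixed hp n
  have h2 : Tendsto (fun n => ‖p - s n‖) atTop (𝓝 0) := by
    have := (tendsto_const_nhds (x := p)).sub hl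
    rw [sub_self] at this
    simpa using this.norm
  refine squeeze_zero (fun _ => dist_nonneg) (fun n => ?_) h2
  rw [h1, orbit_of h]
  exact dist_pr _ _

theorem back_of {x y : E} {l : E} (hl : l ∈ Ltc) (h : FF y = x + l) :
    ff.symm (pr x) = pr y := by
  rw [← pr_add (x := x) hl, ← h]
  exact ff.symm_apply_apply (pr y)

/-- The heteroclinic point from `P` to `Q`. -/
noncomputable def uT : E := ![0, 0, 1 / 4]

theorem uT_back : Tendsto (fun n : ℕ => dist (ff.symm^[n] (pr 0)) (ff.symm^[n] (pr uT))) atTop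
    (𝓝 0) := by
  have hk := kp_pos
  have hkl := kp_lo
  set s : ℕ → E := fun n => ![0, 0, kp⁻¹ ^ n * (1 / 4)] with hs
  have h0 : s 0 = uT := by
    refine ext3 ?_ ?_ ?_ <;> simp [hs, uT]
  rw [← h0]
  refine asymp fP' (fun n => ?_) ?_
  · have hO : s (n + 1) ∈ OP := by
      refine ⟨by simp [hs], by simp [hs], ?_⟩
      have h1 : kp⁻¹ ^ (n + 1) ≤ 1 / 47 := by
        calc kp⁻¹ ^ (n + 1) ≤ kp⁻¹ ^ 1 := pow_le_pow_of_le_one kp_inv0
              (by linarith [kp_inv]) (by omega)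
          _ = kp⁻¹ := pow_one _
          _ ≤ 1 / 47 := kp_inv
      have h2 : 0 ≤ kp⁻¹ ^ (n + 1) := pow_nonneg kp_inv0 _
      show |kp⁻¹ ^ (n + 1) * (1 / 4)| < 1 / 100
      rw [abs_of_nonneg (by positivity)]
      linarith
    refine back_of (l := 0) Ltc.zero_mem ?_
    rw [FF_P hO, add_zero]
    refine ext3 ?_ ?_ ?_ <;> simp only [hs, v3_0, v3_1, v3_2]
    · ring
    · ring
    · rw [pow_succ]
      field_simp
  · rw [tendsto_pi_nhds]
    intro i
    fin_cases i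
    · exact tendsto_const_nhds
    · exact tendsto_const_nhds
    · exact tend_c kp_inv0 (by linarith [kp_inv])

theorem uT_fwd : Tendsto (fun n : ℕ => dist (ff^[n] (pr cQ)) (ff^[n] (pr uT))) atTop (𝓝 0) := by
  set s : ℕ → E := fun n => ![1 / 2, 0, 1 / 2 + (1 / 100) ^ n * (-(1 / 400))] with hs
  have huX : uT ∈ OX := by
    refine ⟨?_, ?_, ?_, ?_⟩ <;> simp [uT]
  have h1 : ff (pr uT) = pr (s 0) := by
    show pr (FF uT) = _
    rw [FF_X huX]
    congr 1
    refine ext3 ?_ ?_ ?_ <;> simp only [hs, uT, v3_0, v3_1, v3_2] <;> norm_num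
  have h2 : ∀ n, ff (pr (s n)) = pr (s (n + 1)) := fun n => by
    have hp : (0 : ℝ) < (1 / 100) ^ n := by positivity
    have hp1 : (1 / 100 : ℝ) ^ n ≤ 1 := pow_le_one₀ (by norm_num) (by norm_num)
    have hO : s n ∈ OQ := by
      refine ⟨by simp [hs], by simp [hs], ?_⟩
      show |1 / 2 + (1 / 100) ^ n * (-(1 / 400)) - 1 / 2| < 1 / 8
      rw [add_sub_cancel_left, abs_lt]
      constructor <;> linarith
    show pr (FF (s n)) = _
    have : FF (s n) = s (n + 1) + e0 := by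
      rw [FF_Q hO]
      refine ext3 ?_ ?_ ?_ <;> simp only [Pi.add_apply, hs, e0, v3_0, v3_1, v3_2] <;> ring
    rw [this, pr_add e0_mem]
  have h3 : Tendsto s atTop (𝓝 cQ) := by
    rw [tendsto_pi_nhds]
    intro i
    fin_cases i
    · exact tendsto_const_nhds
    · exact tendsto_const_nhds
    · have := (tend_c (a := 1 / 100) (s := -(1 / 400)) (by norm_num) (by norm_num)).const_add
        (1 / 2)
      rw [add_zero] at this
      exact this
  have h4 := asymp fQ h2 h3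
  rw [← tendsto_add_atTop_iff_nat 1]
  refine h4.congr fun n => ?_
  rw [Function.iterate_succ_apply, Function.iterate_succ_apply, h1, fQ]

theorem yT_fwd : Tendsto (fun n : ℕ => dist (ff^[n] (pr 0)) (ff^[n] (pr yT))) atTop (𝓝 0) := by
  set s : ℕ → E := fun n => ![(1 / 100) ^ n * (1 / 400), (2 / 5) ^ n * (-(1 / 20)), 0] with hs
  have hY : yT ∈ OY := by
    refine ⟨?_, ?_, ?_⟩ <;> simp only [yT, v3_0, v3_1, v3_2] <;> norm_num
  have hl : (![1, 0, 1] : E) ∈ Ltc := mem_Ltc (a := 1) (b := 0) (c := 1) (by simp) (by simp)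
    (by simp)
  have h1 : ff (pr yT) = pr (s 0) := by
    show pr (FF yT) = _
    have : FF yT = s 0 + ![1, 0, 1] := by
      rw [FF_Y hY]
      refine ext3 ?_ ?_ ?_ <;> simp only [Pi.add_apply, hs, yT, v3_0, v3_1, v3_2] <;> ring
    rw [this, pr_add hl]
  have h2 : ∀ n, ff (pr (s n)) = pr (s (n + 1)) := fun n => by
    have hp : (0 : ℝ) < (1 / 100) ^ n := by positivity
    have hp1 : (1 / 100 : ℝ) ^ n ≤ 1 := pow_le_one₀ (by norm_num) (by norm_num)
    have hq : (0 : ℝ) < (2 / 5) ^ n := by positivity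
    have hq1 : (2 / 5 : ℝ) ^ n ≤ 1 := pow_le_one₀ (by norm_num) (by norm_num)
    have hO : s n ∈ OP := by
      refine ⟨?_, ?_, by simp [hs]⟩
      · show |(1 / 100) ^ n * (1 / 400)| < 1 / 8
        rw [abs_lt]; constructor <;> linarith
      · show |(2 / 5) ^ n * (-(1 / 20))| < 1 / 5
        rw [abs_lt]; constructor <;> linarith
    show pr (FF (s n)) = _
    congr 1
    rw [FF_P hO]
    refine ext3 ?_ ?_ ?_ <;> simp only [hs, v3_0, v3_1, v3_2] <;> ring
  have h3 : Tendsto s atTop (𝓝 0) := by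
    rw [tendsto_pi_nhds]
    intro i
    fin_cases i
    · exact tend_c (by norm_num) (by norm_num)
    · exact tend_c (by norm_num) (by norm_num)
    · exact tendsto_const_nhds
  have h4 := asymp fP h2 h3
  rw [← tendsto_add_atTop_iff_nat 1]
  refine h4.congr fun n => ?_
  rw [Function.iterate_succ_apply, Function.iterate_succ_apply, h1, fP]

theorem yT_back : Tendsto (fun n : ℕ => dist (ff.symm^[n] (pr cQ)) (ff.symm^[n] (pr yT))) atTop
    (𝓝 0) := by
  have hk := kp_pos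
  have hkl := kp_lo
  set s : ℕ → E := fun n => ![1 / 2 + kp⁻¹ ^ n * (-(1 / 4)), (5 / 8) ^ n * (-(1 / 8)), 1 / 2]
    with hs
  have h0 : s 0 = yT := by
    refine ext3 ?_ ?_ ?_ <;> simp only [hs, yT, v3_0, v3_1, v3_2] <;> norm_num
  rw [← h0]
  refine asymp fQ' (fun n => ?_) ?_
  · have hO : s (n + 1) ∈ OQ := by
      have h1 : kp⁻¹ ^ (n + 1) ≤ 1 / 47 := by
        calc kp⁻¹ ^ (n + 1) ≤ kp⁻¹ ^ 1 := pow_le_pow_of_le_one kp_inv0
              (by linarith [kp_inv]) (by omega)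
          _ = kp⁻¹ := pow_one _
          _ ≤ 1 / 47 := kp_inv
      have h2 : 0 ≤ kp⁻¹ ^ (n + 1) := pow_nonneg kp_inv0 _
      have hq : (0 : ℝ) < (5 / 8) ^ (n + 1) := by positivity
      have hq1 : (5 / 8 : ℝ) ^ (n + 1) ≤ 1 := pow_le_one₀ (by norm_num) (by norm_num)
      refine ⟨?_, ?_, by simp [hs]⟩
      · show |1 / 2 + kp⁻¹ ^ (n + 1) * (-(1 / 4)) - 1 / 2| < 1 / 100
        rw [add_sub_cancel_left, abs_lt]; constructor <;> linarith
      · show |(5 / 8) ^ (n + 1) * (-(1 / 8))| < 1 / 5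
        rw [abs_lt]; constructor <;> linarith
    refine back_of (l := e0) e0_mem ?_
    rw [FF_Q hO]
    refine ext3 ?_ ?_ ?_ <;> simp only [Pi.add_apply, hs, e0, v3_0, v3_1, v3_2]
    · rw [pow_succ]
      field_simp
      ring
    · ring
    · norm_num
  · rw [tendsto_pi_nhds]
    intro i
    fin_cases i
    · have := (tend_c (a := kp⁻¹) (s := -(1 / 4)) kp_inv0 (by linarith [kp_inv])).const_add
        (1 / 2)
      rw [add_zero] at this
      exact this
    · exact tend_c (by norm_num) (by norm_num)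
    · exact tendsto_const_nhds

end Pool.Agent.TH290.FC
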