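import Mathlib

set_option autoImplicit false

/-! # The torus `ℝ³/ℤ³` and stable spaces -/

open Set Filter Topology

namespace Pool.Agent.TH290.FC

/-- The space `ℝ³` with the sup norm. -/
abbrev E : Type := Fin 3 → ℝ

theorem ext3 {x y : E} (h0 : x 0 = y 0) (h1 : x 1 = y 1) (h2 : x 2 = y 2) : x = y := by
  funext i
  fin_cases i
  · exact h0
  · exact h1
  · exact h2

theorem v3_0 (a b c : ℝ) : (![a, b, c] : E) 0 = a := rfl
theorem v3_1 (a b c : ℝ) : (![a, b, c] : E) 1 = b := rfl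
theorem v3_2 (a b c : ℝ) : (![a, b, c] : E) 2 = c := rfl

/-- The lattice `ℤ³ ⊂ ℝ³`. -/
def Ltc : AddSubgroup E where
  carrier := {x | ∃ k l m : ℤ, x = ![(k : ℝ), l, m]}
  add_mem' := by
    rintro x y ⟨k, l, m, rfl⟩ ⟨k', l', m', rfl⟩
    refine ⟨k + k', l + l', m + m', ?_⟩
    refine ext3 ?_ ?_ ?_ <;> simp only [Pi.add_apply, v3_0, v3_1, v3_2] <;> push_cast <;> ring
  zero_mem' := ⟨0, 0, 0, by refine ext3 ?_ ?_ ?_ <;> simp⟩
  neg_mem' := by
    rintro x ⟨k, l, m, rfl⟩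
    refine ⟨-k, -l, -m, ?_⟩
    refine ext3 ?_ ?_ ?_ <;> simp only [Pi.neg_apply, v3_0, v3_1, v3_2] <;> push_cast <;> ring

/-- The torus `M = ℝ³/ℤ³`, with the quotient metric `dist (x + ℤ³) (y + ℤ³) = inf ‖x - y + l‖`. -/
abbrev MM : Type := E ⧸ Ltc

/-- The covering map `ℝ³ → M`. -/
def pr (x : E) : MM := (x : E ⧸ Ltc)

/-- The space of the vectors `v` with `DF^n(z) v → 0` as `n → ∞`. -/
def Stab {V : Type*} [NormedAddCommGroup V] [NormedSpace ℝ V] (F : V → V) (z : V) :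
    Submodule ℝ V where
  carrier := {v | Tendsto (fun n : ℕ => fderiv ℝ (F^[n]) z v) atTop (𝓝 0)}
  add_mem' := fun {v w} hv hw => by
    have := Tendsto.add hv hw
    simpa using this
  zero_mem' := by simp
  smul_mem' := fun c v hv => by
    have := Tendsto.const_smul hv c
    simpa using this

end Pool.Agent.TH290.FC
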