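import Pool.Agent.TH290.FC.Map

set_option autoImplicit false

/-! # The map of `ℝ³` and its inverse -/

open Set Filter Topology Real
open scoped ContDiff

namespace Pool.Agent.TH290.FC

theorem cd3 {f0 f1 f2 : E → ℝ} (h0 : ContDiff ℝ ∞ f0) (h1 : ContDiff ℝ ∞ f1)
    (h2 : ContDiff ℝ ∞ f2) : ContDiff ℝ ∞ (fun x => (![f0 x, f1 x, f2 x] : E)) := by
  rw [contDiff_pi]
  intro i
  fin_cases i
  · exact h0
  · exact h1
  · exact h2

theorem cdx (i : Fin 3) : ContDiff ℝ ∞ (fun x : E => x i) := contDiff_apply ℝ ℝ i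

/-- Global inverse function theorem for bijections. -/
theorem smooth_inv {f : E → E} (hf : ContDiff ℝ ∞ f) (hb : Function.Bijective f)
    (hd : ∀ x v, fderiv ℝ f x v = 0 → v = 0) :
    ∃ h : E → E, ContDiff ℝ ∞ h ∧ (∀ x, h (f x) = x) ∧ ∀ x, f (h x) = x := by
  have hinj : ∀ x, Function.Injective (fderiv ℝ f x : E →ₗ[ℝ] E) := fun x => by
    rw [← LinearMap.ker_eq_bot, LinearMap.ker_eq_bot']
    intro v hv
    exact hd x v hv
  set L : E → (E ≃L[ℝ] E) := fun x =>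
    (LinearEquiv.ofInjectiveEndo (fderiv ℝ f x : E →ₗ[ℝ] E) (hinj x)).toContinuousLinearEquiv
    with hL
  have hLc : ∀ x, ((L x : E ≃L[ℝ] E) : E →L[ℝ] E) = fderiv ℝ f x := fun x => by
    ext1 v; rfl
  have hfd : ∀ x, HasFDerivAt f ((L x : E ≃L[ℝ] E) : E →L[ℝ] E) x := fun x => by
    rw [hLc]
    exact ((hf.differentiable (by simp)) x).hasFDerivAt
  have hfs : ∀ x, HasStrictFDerivAt f ((L x : E ≃L[ℝ] E) : E →L[ℝ] E) x := fun x => by
    rw [hLc]
    exact hf.hasStrictFDerivAt (by simp)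
  have hop : IsOpenMap f := isOpenMap_of_hasStrictFDerivAt_equiv hfs
  set e : E ≃ₜ E := (Equiv.ofBijective f hb).toHomeomorphOfContinuousOpen hf.continuous hop with he
  have hef : ∀ x, e x = f x := fun x => rfl
  refine ⟨e.symm, ?_, fun x => ?_, fun x => ?_⟩
  · exact e.contDiff_symm (f₀' := L) (fun x => hfd x) hf
  · rw [← hef]; exact e.symm_apply_apply x
  · rw [← hef]; exact e.apply_symm_apply x

/-- The first coordinate map. -/
noncomputable def gx (x : ℝ) : ℝ := 1 / 2 + ps (x - 1 / 2)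

theorem gx_cd : ContDiff ℝ ∞ gx := contDiff_const.add (ps_cd.comp (contDiff_id.sub contDiff_const))
theorem gx_strictMono : StrictMono gx := fun x y h => by
  unfold gx
  have := ps_strictMono (show x - 1 / 2 < y - 1 / 2 by linarith)
  linarith
theorem gx_add_int (x : ℝ) (k : ℤ) : gx (x + k) = gx x + k := by
  unfold gx; rw [show x + (k : ℝ) - 1 / 2 = x - 1 / 2 + k by ring, ps_add_int]; ring
theorem gx_surj : Function.Surjective gx := fun y => by
  obtain ⟨x, hx⟩ := ps_surj (y - 1 / 2)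
  exact ⟨x + 1 / 2, by unfold gx; rw [add_sub_cancel_right, hx]; ring⟩
theorem gx_hasDerivAt (x : ℝ) : HasDerivAt gx (dps (x - 1 / 2)) x := by
  unfold gx
  have h1 : HasDerivAt (fun y : ℝ => y - 1 / 2) 1 x := by
    simpa using (hasDerivAt_id x).sub_const (1 / 2)
  have h2 := (ps_hasDerivAt (x - 1 / 2)).comp x h1
  rw [mul_one] at h2
  exact h2.const_add (1 / 2)
theorem gx_lin {x : ℝ} (h : |x - 1 / 2| ≤ 1 / 100) : gx x = 1 / 2 + kp * (x - 1 / 2) := by
  unfold gx; rw [ps_lin h]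
theorem gx_small {x : ℝ} (h : |x| ≤ 979 / 2000) : gx x = 1 / 100 * x := by
  rw [abs_le] at h
  unfold gx
  have h1 := ps_add_one (x - 1 / 2)
  rw [show x - 1 / 2 + 1 = x + 1 / 2 by ring] at h1
  have h2 := ps_top (x := x + 1 / 2) (by linarith) (by linarith)
  linarith

theorem hh_lip (x y : ℝ) : |hh x - hh y| ≤ 3 / 5 * |x - y| := by
  have := convex_univ.norm_image_sub_le_of_norm_hasDerivWithin_le (f := hh) (f' := dhh)
    (C := 3 / 5) (fun z _ => (hh_hasDerivAt z).hasDerivWithinAt) (fun z _ => dhh_le z)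
    (mem_univ y) (mem_univ x)
  exact this

theorem hh_zero : hh 0 = 0 := by rw [hh_lin (by norm_num)]; ring

theorem hh_bd (c : ℝ) : |hh c| ≤ 3 / 10 := by
  have h1 : hh c = hh (c - round c) := by
    have := hh_add_int (c - round c) (round c)
    rw [sub_add_cancel] at this
    exact this
  have h2 := hh_lip (c - round c) 0
  rw [hh_zero, sub_zero, sub_zero, ← h1] at h2
  have h3 := abs_sub_round c
  linarith

/-- The central map for fixed coefficient. -/
theorem cm_strictMono {t : ℝ} (ht : |t| ≤ 1) : StrictMono fun c => c + t * hh c := by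
  intro x y h
  have h1 := hh_lip y x
  rw [abs_of_pos (sub_pos.2 h)] at h1
  have h2 : |t * (hh y - hh x)| ≤ 1 * (3 / 5 * (y - x)) := by
    rw [abs_mul]
    exact mul_le_mul ht h1 (abs_nonneg _) (by norm_num)
  rw [abs_le] at h2
  simp only
  nlinarith

theorem cm_surj {t : ℝ} (ht : |t| ≤ 1) (y : ℝ) : ∃ c, c + t * hh c = y := by
  have hb : ∀ c, |t * hh c| ≤ 1 := fun c => by
    rw [abs_mul]
    have := hh_bd c
    have h1 := abs_nonneg (hh c)
    nlinarith
  have hc : Continuous fun c => c + t * hh c :=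
    continuous_id.add (continuous_const.mul hh_cd.continuous)
  have h1 := abs_le.1 (hb (y - 1))
  have h2 := abs_le.1 (hb (y + 1))
  obtain ⟨c, -, h⟩ := intermediate_value_Icc (a := y - 1) (b := y + 1) (by linarith)
    hc.continuousOn (show y ∈ _ from ⟨by linarith, by linarith⟩)
  exact ⟨c, h⟩

/-- The triangular map. -/
noncomputable def F0 (x : E) : E := ![gx (x 0), x 1 + th (x 0) * hh (x 1), ps (x 2)]

theorem F0_cd : ContDiff ℝ ∞ F0 :=
  cd3 (gx_cd.comp (cdx 0)) ((cdx 1).add ((th_cd.comp (cdx 0)).mul (hh_cd.comp (cdx 1))))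
    (ps_cd.comp (cdx 2))

theorem F0_bij : Function.Bijective F0 := by
  constructor
  · intro x y h
    have h0 : gx (x 0) = gx (y 0) := congrFun h 0
    have h1 : x 1 + th (x 0) * hh (x 1) = y 1 + th (y 0) * hh (y 1) := congrFun h 1
    have h2 : ps (x 2) = ps (y 2) := congrFun h 2
    have e0 := gx_strictMono.injective h0
    have e2 := ps_strictMono.injective h2
    rw [← e0] at h1
    exact ext3 e0 ((cm_strictMono (th_abs (x 0))).injective h1) e2
  · intro y
    obtain ⟨a, ha⟩ := gx_surj (y 0)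
    obtain ⟨c, hc⟩ := ps_surj (y 2)
    obtain ⟨b, hb⟩ := cm_surj (th_abs a) (y 1)
    exact ⟨![a, b, c], ext3 ha hb hc⟩

theorem F0_der (x v : E) (h : fderiv ℝ F0 x v = 0) : v = 0 := by
  have hD : HasFDerivAt F0 (fderiv ℝ F0 x) x :=
    ((F0_cd.differentiable (by simp)) x).hasFDerivAt
  have hp : ∀ i : Fin 3, HasFDerivAt (fun y : E => y i) (ContinuousLinearMap.proj (R := ℝ)
      (φ := fun _ : Fin 3 => ℝ) i) x := fun i => (ContinuousLinearMap.proj (R := ℝ)
      (φ := fun _ : Fin 3 => ℝ) i).hasFDerivAt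
  have hcomp := hasFDerivAt_pi'.1 hD
  have k0 : HasFDerivAt (gx ∘ fun y : E => y 0) (dps (x 0 - 1 / 2) • (ContinuousLinearMap.proj
      (R := ℝ) (φ := fun _ : Fin 3 => ℝ) 0)) x :=
    (gx_hasDerivAt (x 0)).comp_hasFDerivAt x (hp 0)
  have k2 : HasFDerivAt (ps ∘ fun y : E => y 2) (dps (x 2) • (ContinuousLinearMap.proj
      (R := ℝ) (φ := fun _ : Fin 3 => ℝ) 2)) x :=
    (ps_hasDerivAt (x 2)).comp_hasFDerivAt x (hp 2)
  have kt : HasFDerivAt (th ∘ fun y : E => y 0) (deriv th (x 0) • (ContinuousLinearMap.proj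
      (R := ℝ) (φ := fun _ : Fin 3 => ℝ) 0)) x :=
    ((th_cd.differentiable (by simp)) (x 0)).hasDerivAt.comp_hasFDerivAt x (hp 0)
  have kh : HasFDerivAt (hh ∘ fun y : E => y 1) (dhh (x 1) • (ContinuousLinearMap.proj
      (R := ℝ) (φ := fun _ : Fin 3 => ℝ) 1)) x :=
    (hh_hasDerivAt (x 1)).comp_hasFDerivAt x (hp 1)
  have k1 := (hp 1).add (kt.mul kh)
  have e0 := congrArg (fun T => T v) ((hcomp 0).unique k0)
  have e1 := congrArg (fun T => T v) ((hcomp 1).unique (f := fun y => F0 y 1) k1)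
  have e2 := congrArg (fun T => T v) ((hcomp 2).unique k2)
  simp only [ContinuousLinearMap.comp_apply, h, ContinuousLinearMap.proj_apply, Pi.zero_apply,
    _root_.smul_apply, smul_eq_mul] at e0 e2
  have d0 := dps_pos (x 0 - 1 / 2)
  have d2 := dps_pos (x 2)
  have v0 : v 0 = 0 := by
    rcases mul_eq_zero.1 e0.symm with h | h
    · exact absurd h d0.ne'
    · exact h
  have v2 : v 2 = 0 := by
    rcases mul_eq_zero.1 e2.symm with h | h
    · exact absurd h d2.ne'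
    · exact h
  simp only [ContinuousLinearMap.comp_apply, h, ContinuousLinearMap.proj_apply, Pi.zero_apply,
    _root_.smul_apply, smul_eq_mul, _root_.add_apply, v0, Function.comp_apply, mul_zero,
    add_zero] at e1
  have h1 := abs_le.1 (dhh_le (x 1))
  have h2 := abs_le.1 (th_abs (x 0))
  have v1 : v 1 = 0 := by
    have e3 : (1 + th (x 0) * dhh (x 1)) * v 1 = 0 := by linarith
    rcases mul_eq_zero.1 e3 with h | h
    · nlinarith
    · exact h
  exact ext3 v0 v1 v2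

/-- The inverse of the triangular map. -/
noncomputable def F0I : E → E := Classical.choose (smooth_inv F0_cd F0_bij F0_der)

theorem F0I_cd : ContDiff ℝ ∞ F0I := (Classical.choose_spec (smooth_inv F0_cd F0_bij F0_der)).1
theorem F0I_F0 (x : E) : F0I (F0 x) = x :=
  (Classical.choose_spec (smooth_inv F0_cd F0_bij F0_der)).2.1 x
theorem F0_F0I (x : E) : F0 (F0I x) = x :=
  (Classical.choose_spec (smooth_inv F0_cd F0_bij F0_der)).2.2 x

/-- The Dehn twist. -/
noncomputable def S1 (x : E) : E := ![x 0 + aa (x 2), x 1, x 2]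
/-- Its inverse. -/
noncomputable def S1I (x : E) : E := ![x 0 - aa (x 2), x 1, x 2]
/-- The shear producing the second connection. -/
noncomputable def Sy (x : E) : E := ![x 0, x 1, x 2 + 1 / 2 * bu (x 0) (x 1)]
/-- Its inverse. -/
noncomputable def SyI (x : E) : E := ![x 0, x 1, x 2 - 1 / 2 * bu (x 0) (x 1)]

/-- The map. -/
noncomputable def FF (x : E) : E := F0 (S1 (Sy x))
/-- The inverse map. -/
noncomputable def FI (x : E) : E := SyI (S1I (F0I x))

theorem bu_cd : ContDiff ℝ ∞ fun x : E => bu (x 0) (x 1) :=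
  ((bp_cd _ _).comp ((cdx 0).sub contDiff_const)).mul ((bp_cd _ _).comp ((cdx 1).add contDiff_const))

theorem S1_cd : ContDiff ℝ ∞ S1 := cd3 ((cdx 0).add (aa_cd.comp (cdx 2))) (cdx 1) (cdx 2)
theorem S1I_cd : ContDiff ℝ ∞ S1I := cd3 ((cdx 0).sub (aa_cd.comp (cdx 2))) (cdx 1) (cdx 2)
theorem Sy_cd : ContDiff ℝ ∞ Sy := cd3 (cdx 0) (cdx 1) ((cdx 2).add (contDiff_const.mul bu_cd))
theorem SyI_cd : ContDiff ℝ ∞ SyI := cd3 (cdx 0) (cdx 1) ((cdx 2).sub (contDiff_const.mul bu_cd))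
theorem FF_cd : ContDiff ℝ ∞ FF := F0_cd.comp (S1_cd.comp Sy_cd)
theorem FI_cd : ContDiff ℝ ∞ FI := SyI_cd.comp (S1I_cd.comp F0I_cd)

theorem S1_S1I (x : E) : S1 (S1I x) = x := by
  refine ext3 ?_ ?_ ?_ <;> simp [S1, S1I]
theorem S1I_S1 (x : E) : S1I (S1 x) = x := by
  refine ext3 ?_ ?_ ?_ <;> simp [S1, S1I]
theorem Sy_SyI (x : E) : Sy (SyI x) = x := by
  refine ext3 ?_ ?_ ?_ <;> simp [Sy, SyI]
theorem SyI_Sy (x : E) : SyI (Sy x) = x := by
  refine ext3 ?_ ?_ ?_ <;> simp [Sy, SyI]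
theorem FF_FI (x : E) : FF (FI x) = x := by
  unfold FF FI; rw [Sy_SyI, S1_S1I, F0_F0I]
theorem FI_FF (x : E) : FI (FF x) = x := by
  unfold FF FI; rw [F0I_F0, S1I_S1, SyI_Sy]

/-! ### The lattice -/

theorem Lint {l : E} (hl : l ∈ Ltc) : ∃ a b c : ℤ, l 0 = a ∧ l 1 = b ∧ l 2 = c := by
  obtain ⟨a, b, c, rfl⟩ := hl
  exact ⟨a, b, c, rfl, rfl, rfl⟩

theorem mem_Ltc {l : E} {a b c : ℤ} (h0 : l 0 = a) (h1 : l 1 = b) (h2 : l 2 = c) : l ∈ Ltc :=
  ⟨a, b, c, ext3 h0 h1 h2⟩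

/-- Small lattice vectors vanish. -/
theorem Lat_small {x : E} (hx : x ∈ Ltc) (h : ‖x‖ < 1) : x = 0 := by
  obtain ⟨a, b, c, h0, h1, h2⟩ := Lint hx
  have g0 := (norm_le_pi_norm x 0).trans_lt h
  have g1 := (norm_le_pi_norm x 1).trans_lt h
  have g2 := (norm_le_pi_norm x 2).trans_lt h
  rw [Real.norm_eq_abs, h0] at g0
  rw [Real.norm_eq_abs, h1] at g1
  rw [Real.norm_eq_abs, h2] at g2
  have ha : a = 0 := Int.abs_lt_one_iff.1 (by exact_mod_cast g0)
  have hb : b = 0 := Int.abs_lt_one_iff.1 (by exact_mod_cast g1)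
  have hc : c = 0 := Int.abs_lt_one_iff.1 (by exact_mod_cast g2)
  subst ha hb hc
  exact ext3 (by simpa using h0) (by simpa using h1) (by simpa using h2)

/-- The linear action on the lattice. -/
noncomputable def AL (x : E) : E := ![x 0 + x 2, x 1, x 2]
/-- Its inverse. -/
noncomputable def AI (x : E) : E := ![x 0 - x 2, x 1, x 2]

theorem AL_AI (x : E) : AL (AI x) = x := by
  refine ext3 ?_ ?_ ?_ <;> simp [AL, AI]
theorem AI_AL (x : E) : AI (AL x) = x := by
  refine ext3 ?_ ?_ ?_ <;> simp [AL, AI]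

theorem AL_mem {x : E} (hx : x ∈ Ltc) : AL x ∈ Ltc := by
  obtain ⟨a, b, c, h0, h1, h2⟩ := Lint hx
  exact mem_Ltc (a := a + c) (b := b) (c := c) (by simp [AL, h0, h2]) (by simp [AL, h1])
    (by simp [AL, h2])

theorem AI_mem {x : E} (hx : x ∈ Ltc) : AI x ∈ Ltc := by
  obtain ⟨a, b, c, h0, h1, h2⟩ := Lint hx
  exact mem_Ltc (a := a - c) (b := b) (c := c) (by simp [AI, h0, h2]) (by simp [AI, h1])
    (by simp [AI, h2])

theorem Sy_add {x l : E} (hl : l ∈ Ltc) : Sy (x + l) = Sy x + l := by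
  obtain ⟨a, b, c, h0, h1, h2⟩ := Lint hl
  refine ext3 ?_ ?_ ?_ <;> simp only [Sy, Pi.add_apply, v3_0, v3_1, v3_2]
  rw [h0, h1, bu_int]; ring

theorem S1_add {x l : E} (hl : l ∈ Ltc) : S1 (x + l) = S1 x + AL l := by
  obtain ⟨a, b, c, h0, h1, h2⟩ := Lint hl
  refine ext3 ?_ ?_ ?_ <;> simp only [S1, AL, Pi.add_apply, v3_0, v3_1, v3_2]
  rw [h2, aa_add_int]; ring

theorem F0_add {x l : E} (hl : l ∈ Ltc) : F0 (x + l) = F0 x + l := by
  obtain ⟨a, b, c, h0, h1, h2⟩ := Lint hl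
  refine ext3 ?_ ?_ ?_ <;> simp only [F0, Pi.add_apply, v3_0, v3_1, v3_2]
  · rw [h0, gx_add_int]
  · rw [h0, h1, th_add_int, hh_add_int]; ring
  · rw [h2, ps_add_int]

theorem FF_add {x l : E} (hl : l ∈ Ltc) : FF (x + l) = FF x + AL l := by
  unfold FF
  rw [Sy_add hl, S1_add hl, F0_add (AL_mem hl)]

theorem FI_add {x l : E} (hl : l ∈ Ltc) : FI (x + l) = FI x + AI l := by
  have h1 : FF (FI x + AI l) = x + l := by rw [FF_add (AI_mem hl), FF_FI, AL_AI]
  rw [← h1, FI_FF]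

end Pool.Agent.TH290.FC
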