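import Pool.Agent.TH290.FC.Core

set_option autoImplicit false

/-! # Existence of forward, backward and two-sided solutions -/

open Set Filter Topology

namespace Pool.Agent.TH290.FC

/-- Multipliers of a hyperbolic diagonal map. -/
structure Mult where
  e : Fin 3 → Bool
  m : Fin 3 → ℝ
  hcon : ∀ i, e i = false → |m i| + 1 / 10000 ≤ 2 / 3
  hexp : ∀ i, e i = true → 1 + 1 / 10000 ≤ 2 / 3 * |m i|

/-- Lipschitz condition. -/
def Lip (p : E → E) : Prop := ∀ x x', ‖p x - p x'‖ ≤ 1 / 10000 * ‖x - x'‖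

variable (Z : Mult) (b : E)

/-- Forward data. -/
noncomputable def fwdD (p : ℕ → E → E) (hp : ∀ n, Lip (p n)) : Data ℕ where
  pred n := match n with
    | 0 => none
    | n + 1 => some n
  succ n := some (n + 1)
  e := Z.e
  m := Z.m
  b := b
  p := p
  kap := 1 / 10000
  lam := 2 / 3
  hkap := by norm_num
  hlam1 := by norm_num
  hcon := Z.hcon
  hexp := Z.hexp
  hp := fun n x x' => hp n x x'

/-- Backward data. -/
noncomputable def bwdD (p : ℕ → E → E) (hp : ∀ n, Lip (p n)) : Data ℕ where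
  pred n := some (n + 1)
  succ n := match n with
    | 0 => none
    | n + 1 => some n
  e := Z.e
  m := Z.m
  b := b
  p := p
  kap := 1 / 10000
  lam := 2 / 3
  hkap := by norm_num
  hlam1 := by norm_num
  hcon := Z.hcon
  hexp := Z.hexp
  hp := fun n x x' => hp n x x'

/-- Two-sided data. -/
noncomputable def twoD (p : ℤ → E → E) (hp : ∀ n, Lip (p n)) : Data ℤ where
  pred n := some (n - 1)
  succ n := some (n + 1)
  e := Z.e
  m := Z.m
  b := b
  p := p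
  kap := 1 / 10000
  lam := 2 / 3
  hkap := by norm_num
  hlam1 := by norm_num
  hcon := Z.hcon
  hexp := Z.hexp
  hp := fun n x x' => hp n x x'

theorem exists_fwd (p : ℕ → E → E) (hp : ∀ n, Lip (p n)) {Θ : Type*} [TopologicalSpace Θ]
    (c : Θ → E) (hc : Continuous c) (r : Θ → ℕ → E)
    (hr : ∀ θ n i, r θ (n + 1) i = Z.m i * r θ n i + b i)
    (hr0 : ∀ θ i, Z.e i = false → r θ 0 i = c θ i) (hrc : ∀ n, Continuous fun θ => r θ n)
    (β : ℝ) (hβ : 0 ≤ β) (hpr : ∀ θ n, ‖p n (r θ n)‖ ≤ β) :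
    ∃ x : Θ → ℕ → E, (∀ θ n i, x θ (n + 1) i = Z.m i * x θ n i + b i + p n (x θ n) i) ∧
      (∀ θ i, Z.e i = false → x θ 0 i = c θ i) ∧ (∀ θ n, ‖x θ n - r θ n‖ ≤ 3 * β) ∧
      ∀ n, Continuous fun θ => x θ n := by
  have href : ∀ θ, (fwdD Z b p hp).Ref (c θ) (r θ) := fun θ n i => ⟨fun hi => hr θ n i,
    fun hi => by
      cases n with
      | zero => exact hr0 θ i hi
      | succ n => exact hr θ n i⟩
  obtain ⟨x, hx, hxr, hxc⟩ := (fwdD Z b p hp).exists_sol c hc r href hrc β hβ hpr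
  · refine ⟨x, fun θ n i => ?_, fun θ i hi => ?_, fun θ n => ?_, hxc⟩
    · cases hi : Z.e i with
      | true => exact (hx θ n i).1 hi
      | false => exact (hx θ (n + 1) i).2 hi
    · exact (hx θ 0 i).2 hi
    · refine (hxr θ n).trans (le_of_eq ?_)
      show β / (1 - 2 / 3) = 3 * β
      ring

theorem exists_bwd (p : ℕ → E → E) (hp : ∀ n, Lip (p n)) {Θ : Type*} [TopologicalSpace Θ]
    (c : Θ → E) (hc : Continuous c) (r : Θ → ℕ → E)
    (hr : ∀ θ n i, r θ n i = Z.m i * r θ (n + 1) i + b i)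
    (hr0 : ∀ θ i, Z.e i = true → r θ 0 i = c θ i) (hrc : ∀ n, Continuous fun θ => r θ n)
    (β : ℝ) (hβ : 0 ≤ β) (hpr : ∀ θ n, ‖p n (r θ n)‖ ≤ β) :
    ∃ x : Θ → ℕ → E,
      (∀ θ n i, x θ n i = Z.m i * x θ (n + 1) i + b i + p (n + 1) (x θ (n + 1)) i) ∧
      (∀ θ i, Z.e i = true → x θ 0 i = c θ i) ∧ (∀ θ n, ‖x θ n - r θ n‖ ≤ 3 * β) ∧
      ∀ n, Continuous fun θ => x θ n := by
  have href : ∀ θ, (bwdD Z b p hp).Ref (c θ) (r θ) := fun θ n i => ⟨fun hi => by
      cases n with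
      | zero => exact hr0 θ i hi
      | succ n => exact hr θ n i, fun hi => hr θ n i⟩
  obtain ⟨x, hx, hxr, hxc⟩ := (bwdD Z b p hp).exists_sol c hc r href hrc β hβ hpr
  · refine ⟨x, fun θ n i => ?_, fun θ i hi => ?_, fun θ n => ?_, hxc⟩
    · cases hi : Z.e i with
      | true => exact (hx θ (n + 1) i).1 hi
      | false => exact (hx θ n i).2 hi
    · exact (hx θ 0 i).1 hi
    · refine (hxr θ n).trans (le_of_eq ?_)
      show β / (1 - 2 / 3) = 3 * β
      ring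

theorem exists_two (p : ℤ → E → E) (hp : ∀ n, Lip (p n)) {Θ : Type*} [TopologicalSpace Θ]
    (r : Θ → ℤ → E) (hr : ∀ θ n i, r θ (n + 1) i = Z.m i * r θ n i + b i)
    (hrc : ∀ n, Continuous fun θ => r θ n)
    (β : ℝ) (hβ : 0 ≤ β) (hpr : ∀ θ n, ‖p n (r θ n)‖ ≤ β) :
    ∃ x : Θ → ℤ → E, (∀ θ n i, x θ (n + 1) i = Z.m i * x θ n i + b i + p n (x θ n) i) ∧
      (∀ θ n, ‖x θ n - r θ n‖ ≤ 3 * β) ∧ ∀ n, Continuous fun θ => x θ n := by
  have href : ∀ θ, (twoD Z b p hp).Ref 0 (r θ) := fun θ n i => ⟨fun hi => hr θ n i,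
    fun hi => by
      have := hr θ (n - 1) i
      rw [sub_add_cancel] at this
      exact this⟩
  obtain ⟨x, hx, hxr, hxc⟩ := (twoD Z b p hp).exists_sol (fun _ => 0) continuous_const r
    href hrc β hβ hpr
  · refine ⟨x, fun θ n i => ?_, fun θ n => ?_, hxc⟩
    · cases hi : Z.e i with
      | true => exact (hx θ n i).1 hi
      | false =>
        have := (hx θ (n + 1) i).2 hi
        simp only [twoD, add_sub_cancel_right] at this
        exact this
    · refine (hxr θ n).trans (le_of_eq ?_)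
      show β / (1 - 2 / 3) = 3 * β
      ring

/-- The relation satisfied by the differences. -/
theorem rel_of {Z : Mult} {v w q : E} (h : ∀ i, w i = Z.m i * v i + q i)
    (hq : ‖q‖ ≤ 1 / 10000 * ‖v‖) : Rel (fun i => !Z.e i) (2 / 3) v w := by
  have hv0 := norm_nonneg v
  have hM : ‖v‖ ≤ max ‖v‖ ‖w‖ := le_max_left _ _
  refine ⟨fun i hi => ?_, fun i hi => ?_⟩
  · have hi' : Z.e i = false := by simpa using hi
    have h1 := Z.hcon i hi'
    have h2 : |w i| ≤ |Z.m i| * |v i| + |q i| := by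
      rw [h i, ← abs_mul]; exact abs_add_le _ _
    have h3 : |v i| ≤ ‖v‖ := norm_le_pi_norm v i
    have h4 : |q i| ≤ ‖q‖ := norm_le_pi_norm q i
    have h5 : |Z.m i| * |v i| ≤ |Z.m i| * ‖v‖ := mul_le_mul_of_nonneg_left h3 (abs_nonneg _)
    have h6 : (|Z.m i| + 1 / 10000) * ‖v‖ ≤ 2 / 3 * ‖v‖ := mul_le_mul_of_nonneg_right h1 hv0
    linarith
  · have hi' : Z.e i = true := by simpa using hi
    have h1 := Z.hexp i hi'
    have h2 : |Z.m i| * |v i| ≤ |w i| + |q i| := by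
      rw [← abs_mul]
      have : Z.m i * v i = w i - q i := by rw [h i]; ring
      rw [this]; exact abs_sub _ _
    have h3 : |v i| ≤ ‖v‖ := norm_le_pi_norm v i
    have h4 : |q i| ≤ ‖q‖ := norm_le_pi_norm q i
    have h5 : |w i| ≤ ‖w‖ := norm_le_pi_norm w i
    have h6 : ‖w‖ ≤ max ‖v‖ ‖w‖ := le_max_right _ _
    have hM0 : 0 ≤ max ‖v‖ ‖w‖ := hv0.trans hM
    have h7 : |Z.m i| * |v i| ≤ (1 + 1 / 10000) * max ‖v‖ ‖w‖ := by linarith
    have h8 : (1 + 1 / 10000) * max ‖v‖ ‖w‖ ≤ 2 / 3 * |Z.m i| * max ‖v‖ ‖w‖ :=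
      mul_le_mul_of_nonneg_right h1 hM0
    have h9 : 0 < |Z.m i| := by nlinarith [abs_nonneg (Z.m i)]
    have h10 : |Z.m i| * |v i| ≤ |Z.m i| * (2 / 3 * max ‖v‖ ‖w‖) := by
      calc _ ≤ _ := h7
        _ ≤ _ := h8
        _ = _ := by ring
    exact le_of_mul_le_mul_left h10 h9

end Pool.Agent.TH290.FC
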