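import Mathlib

set_option autoImplicit false

/-! # Smooth periodic bumps and staircases -/

open Set Filter Topology Real
open scoped ContDiff

namespace Pool.Agent.TH290.FC

/-- A smooth even `1`-periodic bump: `1` on `|t| ≤ r`, `0` on `s ≤ |t| ≤ 1/2`. -/
noncomputable def bp (r s t : ℝ) : ℝ :=
  Real.smoothTransition ((cos (2 * π * t) - cos (2 * π * s)) / (cos (2 * π * r) - cos (2 * π * s)))

theorem bp_cd (r s : ℝ) : ContDiff ℝ ∞ (bp r s) := by
  unfold bp
  exact Real.smoothTransition.contDiff.comp (by fun_prop)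

theorem bp_cont (r s : ℝ) : Continuous (bp r s) := (bp_cd r s).continuous

theorem bp_nonneg (r s t : ℝ) : 0 ≤ bp r s t := Real.smoothTransition.nonneg _

theorem bp_le_one (r s t : ℝ) : bp r s t ≤ 1 := Real.smoothTransition.le_one _

theorem bp_add_int (r s t : ℝ) (k : ℤ) : bp r s (t + k) = bp r s t := by
  unfold bp
  rw [show 2 * π * (t + k) = 2 * π * t + k * (2 * π) by ring, Real.cos_add_int_mul_two_pi]

theorem bp_add_one (r s t : ℝ) : bp r s (t + 1) = bp r s t := by
  simpa using bp_add_int r s t 1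

theorem bp_neg (r s t : ℝ) : bp r s (-t) = bp r s t := by
  unfold bp
  rw [show 2 * π * -t = -(2 * π * t) by ring, Real.cos_neg]

section
variable {r s : ℝ}

theorem cos_gap (hr : 0 < r) (hrs : r < s) (hs : s < 1 / 2) :
    0 < cos (2 * π * r) - cos (2 * π * s) := by
  have hp := Real.pi_pos
  have := Real.cos_lt_cos_of_nonneg_of_le_pi (x := 2 * π * r) (y := 2 * π * s) (by positivity)
    (by nlinarith) (by nlinarith)
  linarith

theorem bp_one (hr : 0 < r) (hrs : r < s) (hs : s < 1 / 2) {t : ℝ} (ht : |t| ≤ r) :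
    bp r s t = 1 := by
  have hp := Real.pi_pos
  have hg := cos_gap hr hrs hs
  unfold bp
  apply Real.smoothTransition.one_of_one_le
  rw [le_div_iff₀ hg, one_mul]
  have h1 : cos (2 * π * t) = cos (2 * π * |t|) := by
    rcases abs_cases t with ⟨h, -⟩ | ⟨h, -⟩
    · rw [h]
    · rw [h, show 2 * π * -t = -(2 * π * t) by ring, Real.cos_neg]
  rw [h1]
  have := Real.cos_le_cos_of_nonneg_of_le_pi (x := 2 * π * |t|) (y := 2 * π * r) (by positivity)
    (by nlinarith) (by nlinarith [abs_nonneg t])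
  linarith

theorem bp_zero (hr : 0 < r) (hrs : r < s) (hs : s < 1 / 2) {t : ℝ} (ht : s ≤ t)
    (ht' : t ≤ 1 - s) : bp r s t = 0 := by
  have hp := Real.pi_pos
  have hg := cos_gap hr hrs hs
  unfold bp
  apply Real.smoothTransition.zero_of_nonpos
  apply div_nonpos_of_nonpos_of_nonneg _ hg.le
  rcases le_total t (1 / 2) with h | h
  · have := Real.cos_le_cos_of_nonneg_of_le_pi (x := 2 * π * s) (y := 2 * π * t) (by nlinarith)
      (by nlinarith) (by nlinarith)
    linarith
  · have h2 : cos (2 * π * t) = cos (2 * π * (1 - t)) := by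
      rw [show 2 * π * (1 - t) = 2 * π - 2 * π * t by ring, Real.cos_two_pi_sub]
    rw [h2]
    have := Real.cos_le_cos_of_nonneg_of_le_pi (x := 2 * π * s) (y := 2 * π * (1 - t))
      (by nlinarith) (by nlinarith) (by nlinarith)
    linarith

theorem bp_zero' (hr : 0 < r) (hrs : r < s) (hs : s < 1 / 2) {t : ℝ} (ht : s - 1 ≤ t)
    (ht' : t ≤ -s) : bp r s t = 0 := by
  rw [← bp_neg]
  exact bp_zero hr hrs hs (by linarith) (by linarith)

/-- The mass of the bump. -/
noncomputable def II (r s : ℝ) : ℝ := 2 * ∫ t in (0 : ℝ)..s, bp r s t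

theorem bp_ii (r s a b : ℝ) : IntervalIntegrable (bp r s) MeasureTheory.volume a b :=
  (bp_cont r s).intervalIntegrable a b

theorem int_lin (hr : 0 < r) (hrs : r < s) (hs : s < 1 / 2) {x : ℝ} (hx0 : 0 ≤ x) (hx : x ≤ r) :
    ∫ t in (0 : ℝ)..x, bp r s t = x := by
  have : ∫ t in (0 : ℝ)..x, bp r s t = ∫ t in (0 : ℝ)..x, (1 : ℝ) := by
    apply intervalIntegral.integral_congr
    intro t ht
    rw [uIcc_of_le hx0] at ht
    exact bp_one hr hrs hs (by rw [abs_of_nonneg ht.1]; linarith [ht.2])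
  rw [this]; simp

theorem II_lower (hr : 0 < r) (hrs : r < s) (hs : s < 1 / 2) : 2 * r ≤ II r s := by
  unfold II
  have h1 := intervalIntegral.integral_add_adjacent_intervals (bp_ii r s 0 r) (bp_ii r s r s)
  have h2 := int_lin hr hrs hs hr.le le_rfl
  have h3 : 0 ≤ ∫ t in r..s, bp r s t :=
    intervalIntegral.integral_nonneg hrs.le fun t _ => bp_nonneg r s t
  linarith

theorem II_upper (hr : 0 < r) (hrs : r < s) : II r s ≤ 2 * s := by
  unfold II
  have h3 : ∫ t in (0 : ℝ)..s, bp r s t ≤ ∫ t in (0 : ℝ)..s, (1 : ℝ) :=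
    intervalIntegral.integral_mono_on (by linarith) (bp_ii r s 0 s)
      (by simp) fun t _ => bp_le_one r s t
  simp at h3
  linarith

theorem II_pos (hr : 0 < r) (hrs : r < s) (hs : s < 1 / 2) : 0 < II r s := by
  have := II_lower hr hrs hs
  linarith

/-- The staircase: `Phi x = x / II` on `|x| ≤ r`, `Phi = 1/2` on `[s, 1 - s]`. -/
noncomputable def Phi (r s x : ℝ) : ℝ := (∫ t in (0 : ℝ)..x, bp r s t) / II r s

theorem Phi_hasDerivAt (r s x : ℝ) : HasDerivAt (Phi r s) (bp r s x / II r s) x := by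
  unfold Phi
  exact (intervalIntegral.integral_hasDerivAt_right (bp_ii r s 0 x)
    ((bp_cont r s).stronglyMeasurableAtFilter _ _) (bp_cont r s).continuousAt).div_const _

theorem Phi_cd (r s : ℝ) : ContDiff ℝ ∞ (Phi r s) := by
  rw [contDiff_infty_iff_deriv]
  refine ⟨fun x => (Phi_hasDerivAt r s x).differentiableAt, ?_⟩
  have : deriv (Phi r s) = fun x => bp r s x / II r s := by
    funext x; exact (Phi_hasDerivAt r s x).deriv
  rw [this]
  exact (bp_cd r s).div_const _

theorem Phi_zero (r s : ℝ) : Phi r s 0 = 0 := by simp [Phi]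

theorem Phi_neg (r s x : ℝ) : Phi r s (-x) = -Phi r s x := by
  unfold Phi
  rw [← neg_div]
  congr 1
  have h := intervalIntegral.integral_comp_neg (a := 0) (b := x) (fun t => bp r s t)
  simp only [bp_neg, neg_zero] at h
  rw [h, intervalIntegral.integral_symm]

theorem Phi_lin (hr : 0 < r) (hrs : r < s) (hs : s < 1 / 2) {x : ℝ} (hx : |x| ≤ r) :
    Phi r s x = x / II r s := by
  rcases le_total 0 x with h | h
  · rw [abs_of_nonneg h] at hx
    unfold Phi
    rw [int_lin hr hrs hs h hx]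
  · rw [abs_of_nonpos h] at hx
    rw [← neg_neg x, Phi_neg]
    unfold Phi
    rw [int_lin hr hrs hs (by linarith) hx]
    ring

theorem Phi_top (hr : 0 < r) (hrs : r < s) (hs : s < 1 / 2) {x : ℝ} (hx : s ≤ x)
    (hx' : x ≤ 1 - s) : Phi r s x = 1 / 2 := by
  have hI := II_pos hr hrs hs
  have h1 := intervalIntegral.integral_add_adjacent_intervals (bp_ii r s 0 s) (bp_ii r s s x)
  have h2 : ∫ t in s..x, bp r s t = 0 := by
    have : ∫ t in s..x, bp r s t = ∫ t in s..x, (0 : ℝ) := by
      apply intervalIntegral.integral_congr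
      intro t ht
      rw [uIcc_of_le hx] at ht
      exact bp_zero hr hrs hs ht.1 (ht.2.trans hx')
    rw [this]; simp
  unfold Phi
  rw [← h1, h2, add_zero, div_eq_iff hI.ne']
  unfold II
  ring

theorem Phi_add_one (hr : 0 < r) (hrs : r < s) (hs : s < 1 / 2) (x : ℝ) :
    Phi r s (x + 1) = Phi r s x + 1 := by
  have hI := II_pos hr hrs hs
  have hper : Function.Periodic (bp r s) 1 := fun t => bp_add_one r s t
  have h1 := intervalIntegral.integral_add_adjacent_intervals (bp_ii r s 0 x) (bp_ii r s x (x + 1))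
  have h2 := hper.intervalIntegral_add_eq x (-(1 / 2))
  have h3 : ∫ t in (-(1 / 2) : ℝ)..(-(1 / 2) + 1), bp r s t = II r s := by
    have e1 : Phi r s (1 / 2) = 1 / 2 := Phi_top hr hrs hs (by linarith) (by linarith)
    have e2 : Phi r s (-(1 / 2)) = -(1 / 2) := by rw [Phi_neg, e1]
    have e3 := intervalIntegral.integral_add_adjacent_intervals (bp_ii r s 0 (-(1 / 2)))
      (bp_ii r s (-(1 / 2)) (1 / 2))
    unfold Phi at e1 e2
    rw [div_eq_iff hI.ne'] at e1 e2
    rw [show (-(1 / 2) : ℝ) + 1 = 1 / 2 by norm_num]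
    linarith
  unfold Phi
  rw [← h1, h2, h3, add_div, div_self hI.ne']

theorem Phi_add_nat (hr : 0 < r) (hrs : r < s) (hs : s < 1 / 2) (x : ℝ) (n : ℕ) :
    Phi r s (x + n) = Phi r s x + n := by
  induction n with
  | zero => simp
  | succ n ih =>
    push_cast
    rw [← add_assoc, Phi_add_one hr hrs hs, ih]
    ring

theorem Phi_add_int (hr : 0 < r) (hrs : r < s) (hs : s < 1 / 2) (x : ℝ) (k : ℤ) :
    Phi r s (x + k) = Phi r s x + k := by
  obtain ⟨n, rfl | rfl⟩ := k.eq_nat_or_neg
  · exact_mod_cast Phi_add_nat hr hrs hs x n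
  · have := Phi_add_nat hr hrs hs (x + ((-(n : ℤ) : ℤ) : ℝ)) n
    push_cast at this ⊢
    rw [neg_add_cancel_right] at this
    linarith

theorem Phi_mono (hr : 0 < r) (hrs : r < s) (hs : s < 1 / 2) : Monotone (Phi r s) := by
  apply monotone_of_deriv_nonneg (fun x => (Phi_hasDerivAt r s x).differentiableAt)
  intro x
  rw [(Phi_hasDerivAt r s x).deriv]
  exact div_nonneg (bp_nonneg r s x) (II_pos hr hrs hs).le

end

end Pool.Agent.TH290.FC
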