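import Pool.Agent.TH290.FC.Fun
import Pool.Agent.TH290.FC.Exist

set_option autoImplicit false

/-! # The one-dimensional pieces of the map -/

open Set Filter Topology Real
open scoped ContDiff

namespace Pool.Agent.TH290.FC

noncomputable def I1 : ℝ := II (1 / 100) (21 / 2000)
noncomputable def I2 : ℝ := II (1 / 5) (1 / 4)

theorem I1_lo : 1 / 50 ≤ I1 := by
  have := II_lower (r := 1 / 100) (s := 21 / 2000) (by norm_num) (by norm_num) (by norm_num)
  unfold I1; linarith

theorem I1_hi : I1 ≤ 21 / 1000 := by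
  have := II_upper (r := 1 / 100) (s := 21 / 2000) (by norm_num) (by norm_num)
  unfold I1; linarith

theorem I1_pos : 0 < I1 := by have := I1_lo; linarith

theorem I2_lo : 2 / 5 ≤ I2 := by
  have := II_lower (r := 1 / 5) (s := 1 / 4) (by norm_num) (by norm_num) (by norm_num)
  unfold I2; linarith

theorem I2_hi : I2 ≤ 1 / 2 := by
  have := II_upper (r := 1 / 5) (s := 1 / 4) (by norm_num) (by norm_num)
  unfold I2; linarith

theorem I2_pos : 0 < I2 := by have := I2_lo; linarith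

/-- The large multiplier. -/
noncomputable def kp : ℝ := 1 / 100 + 99 / 100 / I1

theorem kp_lo : 47 ≤ kp := by
  unfold kp
  have h1 := I1_hi
  have h2 := I1_pos
  have : 99 / 100 / (21 / 1000) ≤ 99 / 100 / I1 :=
    div_le_div_of_nonneg_left (by norm_num) h2 h1
  norm_num at this ⊢
  linarith

theorem kp_hi : kp ≤ 4951 / 100 := by
  unfold kp
  have h1 := I1_lo
  have : 99 / 100 / I1 ≤ 99 / 100 / (1 / 50) :=
    div_le_div_of_nonneg_left (by norm_num) (by norm_num) h1
  norm_num at this ⊢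
  linarith

theorem kp_pos : 0 < kp := by have := kp_lo; linarith

/-- The staircase `Phi (1/100) (21/2000)`. -/
noncomputable def ph (x : ℝ) : ℝ := Phi (1 / 100) (21 / 2000) x

theorem ph_cd : ContDiff ℝ ∞ ph := Phi_cd _ _
theorem ph_lin {x : ℝ} (h : |x| ≤ 1 / 100) : ph x = x / I1 :=
  Phi_lin (by norm_num) (by norm_num) (by norm_num) h
theorem ph_top {x : ℝ} (h : 21 / 2000 ≤ x) (h' : x ≤ 1979 / 2000) : ph x = 1 / 2 :=
  Phi_top (by norm_num) (by norm_num) (by norm_num) h (by linarith)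
theorem ph_bot {x : ℝ} (h : -(1979 / 2000) ≤ x) (h' : x ≤ -(21 / 2000)) : ph x = -(1 / 2) := by
  have h1 : ph (-(-x)) = -(ph (-x)) := Phi_neg _ _ _
  rw [neg_neg] at h1
  rw [h1, ph_top (by linarith) (by linarith)]
theorem ph_add_int (x : ℝ) (k : ℤ) : ph (x + k) = ph x + k :=
  Phi_add_int (by norm_num) (by norm_num) (by norm_num) x k
theorem ph_mono : Monotone ph := Phi_mono (by norm_num) (by norm_num) (by norm_num)
theorem ph_neg (x : ℝ) : ph (-x) = -ph x := Phi_neg _ _ x
theorem ph_zero : ph 0 = 0 := Phi_zero _ _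

/-- The circle map `z ↦ ps z` with a source `0` and a sink `1/2`. -/
noncomputable def ps (z : ℝ) : ℝ := 1 / 100 * z + 99 / 100 * ph z

theorem ps_cd : ContDiff ℝ ∞ ps := (contDiff_const.mul contDiff_id).add (contDiff_const.mul ph_cd)

/-- Its derivative. -/
noncomputable def dps (z : ℝ) : ℝ := 1 / 100 + 99 / 100 * (bp (1 / 100) (21 / 2000) z / I1)

theorem ps_hasDerivAt (z : ℝ) : HasDerivAt ps (dps z) z := by
  unfold ps dps
  have h1 : HasDerivAt ph (bp (1 / 100) (21 / 2000) z / I1) z := Phi_hasDerivAt _ _ _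
  have h2 : HasDerivAt (fun y : ℝ => 1 / 100 * y) (1 / 100 : ℝ) z := by
    simpa using (hasDerivAt_id z).const_mul (1 / 100 : ℝ)
  exact h2.add (h1.const_mul (99 / 100 : ℝ))

theorem dps_pos (z : ℝ) : 0 < dps z := by
  unfold dps
  have := bp_nonneg (1 / 100) (21 / 2000) z
  have h2 := I1_pos
  positivity

theorem ps_strictMono : StrictMono ps :=
  strictMono_of_deriv_pos fun z => by rw [(ps_hasDerivAt z).deriv]; exact dps_pos z

theorem ps_cont : Continuous ps := ps_cd.continuous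

theorem ps_add_int (x : ℝ) (k : ℤ) : ps (x + k) = ps x + k := by
  unfold ps; rw [ph_add_int]; ring

theorem ps_add_one (x : ℝ) : ps (x + 1) = ps x + 1 := by
  simpa using ps_add_int x 1

theorem ps_zero : ps 0 = 0 := by unfold ps; rw [ph_zero]; ring

theorem ps_int (k : ℤ) : ps k = k := by
  have := ps_add_int 0 k
  rw [ps_zero, zero_add] at this
  exact this

theorem ps_neg (x : ℝ) : ps (-x) = -ps x := by
  unfold ps; rw [ph_neg]; ring

theorem ps_lin {x : ℝ} (h : |x| ≤ 1 / 100) : ps x = kp * x := by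
  unfold ps kp; rw [ph_lin h]; ring

theorem ps_top {x : ℝ} (h : 21 / 2000 ≤ x) (h' : x ≤ 1979 / 2000) :
    ps x = 1 / 100 * x + 99 / 200 := by
  unfold ps; rw [ph_top h h']; ring

theorem ps_surj : Function.Surjective ps := by
  intro y
  have h1 := Int.floor_le y
  have h2 := (Int.lt_floor_add_one y).le
  have h3 : ps (⌊y⌋ : ℤ) ≤ y := by rw [ps_int]; exact h1
  have h4 : y ≤ ps ((⌊y⌋ + 1 : ℤ) : ℝ) := by rw [ps_int]; push_cast; exact h2
  obtain ⟨x, -, hx⟩ := intermediate_value_Icc (a := ((⌊y⌋ : ℤ) : ℝ)) (b := ((⌊y⌋ + 1 : ℤ) : ℝ))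
    (by push_cast; linarith) ps_cont.continuousOn ⟨h3, h4⟩
  exact ⟨x, hx⟩

theorem ps_c : ps (1 / 100) = kp / 100 := by
  rw [ps_lin (by rw [abs_of_pos (by norm_num)])]; ring

/-- Outside the linear zone the values are close to `1/2`. -/
theorem ps_far {z : ℝ} (h : 1 / 100 ≤ z) (h' : z ≤ 99 / 100) : |ps z - 1 / 2| ≤ 3 / 100 := by
  have h1 := ps_strictMono.monotone h
  have h2 := ps_strictMono.monotone h'
  rw [ps_c] at h1
  have h3 : ps (99 / 100) = 1 - kp / 100 := by
    have h4 := ps_add_one (-(1 / 100))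
    rw [ps_neg, ps_c] at h4
    rw [show (99 / 100 : ℝ) = -(1 / 100) + 1 by norm_num, h4]; ring
  rw [h3] at h2
  have := kp_lo
  rw [abs_le]
  constructor <;> linarith

theorem ps_near_aux {z : ℝ} (h : |ps z| < 47 / 100) : |z| < 1 / 100 := by
  rw [abs_lt] at h ⊢
  have h0 := kp_lo
  constructor
  · by_contra hc
    push Not at hc
    have h1 := ps_strictMono.monotone hc
    rw [ps_neg, ps_c] at h1
    linarith
  · by_contra hc
    push Not at hc
    have h1 := ps_strictMono.monotone hc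
    rw [ps_c] at h1
    linarith

/-- Points with small value are in the linear zone. -/
theorem ps_near {z : ℝ} (h : |ps z| < 47 / 100) : |z| < 1 / 100 ∧ ps z = kp * z :=
  ⟨ps_near_aux h, ps_lin (ps_near_aux h).le⟩

/-- The values in `[1/2 - 1/250, 1/2 + 1/250]` come from the flat zone. -/
theorem ps_flat {z : ℝ} (h : |ps z - 1 / 2| ≤ 1 / 250) : 21 / 2000 ≤ z ∧ z ≤ 1979 / 2000 := by
  rw [abs_le] at h
  have e1 : ps (21 / 2000) = 1 / 100 * (21 / 2000) + 99 / 200 := ps_top le_rfl (by norm_num)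
  have e2 : ps (1979 / 2000) = 1 / 100 * (1979 / 2000) + 99 / 200 := ps_top (by norm_num) le_rfl
  constructor
  · by_contra hc
    push Not at hc
    have h1 := ps_strictMono hc
    rw [e1] at h1
    norm_num at h1
    linarith
  · by_contra hc
    push Not at hc
    have h1 := ps_strictMono hc
    rw [e2] at h1
    norm_num at h1
    linarith

/-- The Dehn twist function. -/
noncomputable def aa (z : ℝ) : ℝ := 1 / 2 + ph (z - 1 / 4)

theorem aa_cd : ContDiff ℝ ∞ aa := contDiff_const.add (ph_cd.comp (contDiff_id.sub contDiff_const))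
theorem aa_add_int (x : ℝ) (k : ℤ) : aa (x + k) = aa x + k := by
  unfold aa; rw [show x + (k : ℝ) - 1 / 4 = x - 1 / 4 + k by ring, ph_add_int]; ring
theorem aa_zero {z : ℝ} (h : -(1479 / 2000) ≤ z) (h' : z ≤ 479 / 2000) : aa z = 0 := by
  unfold aa; rw [ph_bot (by linarith) (by linarith)]; ring
theorem aa_one {z : ℝ} (h : 521 / 2000 ≤ z) (h' : z ≤ 2479 / 2000) : aa z = 1 := by
  unfold aa; rw [ph_top (by linarith) (by linarith)]; ring
theorem aa_lin {z : ℝ} (h : |z - 1 / 4| ≤ 1 / 100) : aa z = 1 / 2 + (z - 1 / 4) / I1 := by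
  unfold aa; rw [ph_lin h]
theorem aa_mono : Monotone aa := fun x y h => by
  unfold aa
  have := ph_mono (show x - 1 / 4 ≤ y - 1 / 4 by linarith)
  linarith

theorem aa_c : aa (6 / 25) ≤ 1 / 40 := by
  rw [aa_lin (by norm_num [abs_of_nonpos])]
  have h1 := I1_hi
  have h2 := I1_pos
  have : (1 / 100 : ℝ) / (21 / 1000) ≤ 1 / 100 / I1 :=
    div_le_div_of_nonneg_left (by norm_num) h2 h1
  have h3 : ((6 / 25 - 1 / 4 : ℝ)) / I1 = -(1 / 100 / I1) := by ring
  rw [h3]
  norm_num at this ⊢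
  linarith

theorem aa_c' : 39 / 40 ≤ aa (13 / 50) := by
  rw [aa_lin (by norm_num [abs_of_nonneg])]
  have h1 := I1_hi
  have h2 := I1_pos
  have : (1 / 100 : ℝ) / (21 / 1000) ≤ 1 / 100 / I1 :=
    div_le_div_of_nonneg_left (by norm_num) h2 h1
  have h3 : ((13 / 50 - 1 / 4 : ℝ)) / I1 = (1 / 100 / I1) := by ring
  rw [h3]
  norm_num at this ⊢
  linarith

theorem aa_small {z : ℝ} (h : -(1479 / 2000) ≤ z) (h' : z ≤ 6 / 25) : 0 ≤ aa z ∧ aa z ≤ 1 / 40 := by
  refine ⟨?_, (aa_mono h').trans aa_c⟩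
  have := aa_mono h
  rw [aa_zero le_rfl (by norm_num)] at this
  exact this

theorem aa_large {z : ℝ} (h : 13 / 50 ≤ z) (h' : z ≤ 2479 / 2000) : 39 / 40 ≤ aa z ∧ aa z ≤ 1 := by
  refine ⟨aa_c'.trans (aa_mono h), ?_⟩
  have := aa_mono h'
  rw [aa_one (by norm_num) le_rfl] at this
  exact this

/-- The amplitude of the central map. -/
noncomputable def A2 : ℝ := 3 / 5 * (I2 / (1 - I2))

theorem A2_lo : 2 / 5 ≤ A2 := by
  unfold A2
  have h1 := I2_lo
  have h2 := I2_hi
  have : 2 / 3 ≤ I2 / (1 - I2) := by rw [le_div_iff₀ (by linarith)]; linarith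
  linarith

theorem A2_hi : A2 ≤ 3 / 5 := by
  unfold A2
  have h1 := I2_lo
  have h2 := I2_hi
  have : I2 / (1 - I2) ≤ 1 := by rw [div_le_one (by linarith)]; linarith
  linarith

theorem A2_eq : A2 * (1 / I2 - 1) = 3 / 5 := by
  unfold A2
  have h1 := I2_lo
  have h2 := I2_hi
  have h3 : I2 ≠ 0 := by linarith
  have h4 : 1 - I2 ≠ 0 := by linarith
  field_simp

/-- The central displacement. -/
noncomputable def hh (c : ℝ) : ℝ := A2 * (Phi (1 / 5) (1 / 4) c - c)

theorem hh_cd : ContDiff ℝ ∞ hh := contDiff_const.mul ((Phi_cd _ _).sub contDiff_id)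

theorem hh_add_int (x : ℝ) (k : ℤ) : hh (x + k) = hh x := by
  unfold hh
  rw [Phi_add_int (by norm_num) (by norm_num) (by norm_num)]
  ring

theorem hh_lin {c : ℝ} (h : |c| ≤ 1 / 5) : hh c = 3 / 5 * c := by
  unfold hh
  rw [Phi_lin (by norm_num) (by norm_num) (by norm_num) h, ← A2_eq]
  unfold I2
  ring

theorem hh_top {c : ℝ} (h : 1 / 4 ≤ c) (h' : c ≤ 3 / 4) : hh c = -(A2 * (c - 1 / 2)) := by
  unfold hh
  rw [Phi_top (by norm_num) (by norm_num) (by norm_num) h (by linarith)]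
  ring

/-- The derivative of the central displacement. -/
noncomputable def dhh (c : ℝ) : ℝ := A2 * (bp (1 / 5) (1 / 4) c / I2 - 1)

theorem hh_hasDerivAt (c : ℝ) : HasDerivAt hh (dhh c) c := by
  unfold hh dhh
  have h1 : HasDerivAt (Phi (1 / 5) (1 / 4)) (bp (1 / 5) (1 / 4) c / I2) c :=
    Phi_hasDerivAt _ _ _
  exact (h1.sub (hasDerivAt_id c)).const_mul A2

theorem dhh_le (c : ℝ) : |dhh c| ≤ 3 / 5 := by
  unfold dhh
  have h0 := A2_lo
  have h1 := A2_hi
  have h2 := A2_eq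
  have h3 := bp_nonneg (1 / 5) (1 / 4) c
  have h4 := bp_le_one (1 / 5) (1 / 4) c
  have h5 := I2_pos
  have h6 : bp (1 / 5) (1 / 4) c / I2 ≤ 1 / I2 := by gcongr
  have h7 : 0 ≤ bp (1 / 5) (1 / 4) c / I2 := by positivity
  rw [abs_le]
  constructor <;> nlinarith

/-- The central displacement is bounded below on `[11/60, 3/8]`. -/
theorem hh_pos {c : ℝ} (h : 11 / 60 ≤ c) (h' : c ≤ 3 / 8) : 1 / 20 ≤ hh c := by
  have h0 := A2_lo
  rcases le_total c (1 / 5) with h1 | h1
  · rw [hh_lin (by rw [abs_of_nonneg (by linarith)]; exact h1)]; linarith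
  rcases le_total c (1 / 4) with h2 | h2
  · unfold hh
    have h3 := Phi_mono (r := 1 / 5) (s := 1 / 4) (by norm_num) (by norm_num) (by norm_num) h1
    rw [Phi_lin (by norm_num) (by norm_num) (by norm_num)
      (by rw [abs_of_nonneg (by norm_num)])] at h3
    have h4 : (1 / 5 : ℝ) / (1 / 2) ≤ 1 / 5 / I2 :=
      div_le_div_of_nonneg_left (by norm_num) I2_pos I2_hi
    have h5 : II (1 / 5) (1 / 4) = I2 := rfl
    rw [h5] at h3
    norm_num at h4
    have h6 : 3 / 20 ≤ Phi (1 / 5) (1 / 4) c - c := by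
      norm_num at h3 ⊢
      linarith
    nlinarith
  · rw [hh_top h2 (by linarith)]
    nlinarith

/-- The central displacement points to `1/2` on `[0, 1]`. -/
theorem hh_nonneg {c : ℝ} (h : 0 ≤ c) (h' : c ≤ 1 / 2) : 0 ≤ hh c := by
  have h0 := A2_lo
  rcases le_total c (1 / 5) with h1 | h1
  · rw [hh_lin (by rw [abs_of_nonneg (by linarith)]; exact h1)]; linarith
  rcases le_total c (3 / 8) with h2 | h2
  · have := hh_pos (by linarith) h2; linarith
  · rw [hh_top (by linarith) (by linarith)]; nlinarith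

theorem hh_half : hh (1 / 2) = 0 := by rw [hh_top (by norm_num) (by norm_num)]; ring

/-- The central coefficient. -/
noncomputable def th (x : ℝ) : ℝ := 2 * bp (1 / 16) (1 / 8) (x - 1 / 2) - 1

theorem th_cd : ContDiff ℝ ∞ th :=
  (contDiff_const.mul ((bp_cd _ _).comp (contDiff_id.sub contDiff_const))).sub contDiff_const

theorem th_add_int (x : ℝ) (k : ℤ) : th (x + k) = th x := by
  unfold th
  rw [show x + (k : ℝ) - 1 / 2 = x - 1 / 2 + k by ring, bp_add_int]

theorem th_abs (x : ℝ) : |th x| ≤ 1 := by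
  have h1 := bp_nonneg (1 / 16) (1 / 8) (x - 1 / 2)
  have h2 := bp_le_one (1 / 16) (1 / 8) (x - 1 / 2)
  unfold th
  rw [abs_le]
  constructor <;> linarith

theorem th_one {x : ℝ} (h : |x - 1 / 2| ≤ 1 / 16) : th x = 1 := by
  unfold th; rw [bp_one (by norm_num) (by norm_num) (by norm_num) h]; ring

theorem th_neg {x : ℝ} (h : |x| ≤ 3 / 8) : th x = -1 := by
  rw [abs_le] at h
  unfold th
  rw [bp_zero' (by norm_num) (by norm_num) (by norm_num) (by linarith) (by linarith)]; ring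

/-- The bump of the last shear. -/
noncomputable def bu (x c : ℝ) : ℝ := bp (1 / 64) (1 / 32) (x - 1 / 4) * bp (1 / 64) (1 / 32) (c + 1 / 8)

theorem bu_int (x c : ℝ) (k l : ℤ) : bu (x + k) (c + l) = bu x c := by
  unfold bu
  rw [show x + (k : ℝ) - 1 / 4 = x - 1 / 4 + k by ring,
    show c + (l : ℝ) + 1 / 8 = c + 1 / 8 + l by ring, bp_add_int, bp_add_int]

theorem bu_one {x c : ℝ} (hx : |x - 1 / 4| ≤ 1 / 64) (hc : |c + 1 / 8| ≤ 1 / 64) : bu x c = 1 := by
  unfold bu
  rw [bp_one (by norm_num) (by norm_num) (by norm_num) hx,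
    bp_one (by norm_num) (by norm_num) (by norm_num) hc, one_mul]

theorem bu_x {x c : ℝ} (h : -(23 / 32) ≤ x) (h' : x ≤ 7 / 32) : bu x c = 0 := by
  unfold bu
  rw [bp_zero' (by norm_num) (by norm_num) (by norm_num) (by linarith) (by linarith), zero_mul]

theorem bu_x' {x c : ℝ} (h : 9 / 32 ≤ x) (h' : x ≤ 39 / 32) : bu x c = 0 := by
  unfold bu
  rw [bp_zero (by norm_num) (by norm_num) (by norm_num) (by linarith) (by linarith), zero_mul]

theorem bu_c {x c : ℝ} (h : -(3 / 32) ≤ c) (h' : c ≤ 27 / 32) : bu x c = 0 := by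
  unfold bu
  rw [bp_zero (t := c + 1 / 8) (by norm_num) (by norm_num) (by norm_num) (by linarith)
    (by linarith), mul_zero]

end Pool.Agent.TH290.FC
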