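import Pool.Agent.TH290.FC.Reach

set_option autoImplicit false

/-! # The forward passage -/

open Set Filter Topology Real
open scoped ContDiff

namespace Pool.Agent.TH290.FC

variable {S : Sys}

theorem kp_mul_le {a b : ℝ} (h : |a| ≤ b) : |kp * a| ≤ 4951 / 100 * b := by
  rw [abs_mul, abs_of_pos kp_pos]
  exact mul_le_mul kp_hi h (abs_nonneg _) (by norm_num)

theorem kp_mul_ge (a : ℝ) : 47 * |a| ≤ |kp * a| := by
  rw [abs_mul, abs_of_pos kp_pos]
  exact mul_le_mul_of_nonneg_right kp_lo (abs_nonneg _)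

/-- One step into the attracting region. -/
theorem inA_of {w : E} (hb : bu (w 0) (w 1) = 0) (h2 : 1 / 100 ≤ nz (w 2))
    (h0 : 1 / 100 ≤ nz (w 0 + aa (w 2) - 1 / 2)) : inA (S.G w) := by
  have a0 := gx_farz h0
  have a2 := ps_farz h2
  have p0 := S.pb w 0
  have p2 := S.pb w 2
  constructor
  · rw [G2' hb, show ps (w 2) + S.p w 2 - 1 / 2 = (ps (w 2) - 1 / 2) + S.p w 2 by ring]
    refine (nz_add_le _ _).trans ?_
    linarith
  · left
    rw [G0' hb]
    refine (nz_add_le _ _).trans ?_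
    linarith

theorem stepA {w : E} (h2 : |w 2 - 1 / 2| ≤ 1 / 16) (h0 : |w 0 - 1 / 2| ≤ 4953 / 10000)
    (h0' : 1 / 100 ≤ |w 0 - 1 / 2|) (h1 : -(3 / 32) ≤ w 1) (h1' : w 1 ≤ 27 / 32) : RA S w := by
  have h2' := abs_le.1 h2
  refine RA_G (RA_of (inA_of (bu_c h1 h1') ?_ ?_))
  · have := nz_lower (t := w 2) (a := 1 / 100) (by rw [abs_of_nonneg (by linarith)]; linarith)
      (by rw [abs_of_nonneg (by linarith)]; linarith)
    exact this
  · rw [aa_one (by linarith) (by linarith)]
    have := sub_half (w 0) 1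
    push_cast at this
    rw [this]
    exact nz_lower h0' (by linarith)

theorem climbA : ∀ (n : ℕ) (w : E), |w 2 - 1 / 2| ≤ 1 / 16 → |w 0 - 1 / 2| ≤ 4953 / 10000 →
    w 1 ≤ 5 / 8 → 11 / 60 ≤ w 1 → 3 / 8 ≤ w 1 + n / 25 → RA S w := by
  intro n
  induction n with
  | zero =>
    intro w h2 h0 h1 h1' hn
    refine RA_of ⟨(nz_le_abs _).trans h2, Or.inr ((nz_le_abs _).trans ?_)⟩
    rw [abs_le]
    push_cast at hn
    constructor <;> linarith
  | succ n ih =>
    intro w h2 h0 h1 h1' hn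
    rcases le_total (1 / 100) |w 0 - 1 / 2| with h | h
    · exact stepA h2 h0 h (by linarith) (by linarith)
    rcases le_total (3 / 8) (w 1) with h3 | h3
    · refine RA_of ⟨(nz_le_abs _).trans h2, Or.inr ((nz_le_abs _).trans ?_)⟩
      rw [abs_le]
      constructor <;> linarith
    have hb : bu (w 0) (w 1) = 0 := bu_c (by linarith) (by linarith)
    have h2' := abs_le.1 h2
    have h' := abs_le.1 h
    have p0 := abs_le.1 (S.pb w 0)
    have p1 := abs_le.1 (S.pb w 1)
    have p2 := abs_le.1 (S.pb w 2)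
    have k1 := kp_lo
    have k2 := kp_hi
    have hpos := hh_pos h1' h3
    have hmon := (cm_strictMono (t := 1) (by norm_num)).monotone (show w 1 ≤ 1 / 2 by linarith)
    rw [hh_half] at hmon
    have e0 : S.GQ w 0 = 1 / 2 + kp * (w 0 - 1 / 2) + S.p w 0 := by
      rw [S.GQ0, G0' hb, aa_one (by linarith) (by linarith), gx_add_one, gx_lin h]; ring
    have e1 : S.GQ w 1 = w 1 + 1 * hh (w 1) + S.p w 1 := by
      rw [S.GQ1, G1' hb, aa_one (by linarith) (by linarith), th_add_one, th_one (by linarith)]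
    have e2 : S.GQ w 2 = 1 / 100 * w 2 + 99 / 200 + S.p w 2 := by
      rw [S.GQ2, G2' hb, ps_top (by linarith) (by linarith)]
    push_cast at hn
    refine RA_GQ (ih _ ?_ ?_ ?_ ?_ ?_)
    · rw [e2, abs_le]; constructor <;> linarith
    · have hk := abs_le.1 (kp_mul_le h)
      rw [e0, abs_le]; constructor <;> linarith
    · rw [e1]; linarith
    · rw [e1]; linarith
    · rw [e1]; linarith

/-- The bound for the points of the local stable manifold of the second saddle. -/
theorem VV_b {v : E} (hv : v ∈ VV S) : |v 0 - 1 / 2| ≤ 4 / 10000000 ∧ |v 1| ≤ 4 / 10000000 := by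
  obtain ⟨h0, h1⟩ := VV_slope hv (QQ_VV S)
  have q0 := QQ_b S 0
  have q1 := QQ_b S 1
  have q2 := QQ_b S 2
  simp only [cQ, v3_0, v3_1, v3_2, sub_zero] at q0 q1 q2
  have hO := (VV_mem hv).2.2
  rw [abs_le] at q0 q1 q2
  rw [abs_lt] at hO
  have h3 : |v 2 - QQ S 2| ≤ 1 / 7 := by rw [abs_le]; constructor <;> linarith
  rw [abs_le] at h0 h1
  constructor <;> rw [abs_le] <;> constructor <;> linarith

/-- The bound for the points of the local unstable manifold of the first saddle. -/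
theorem UU_b {u : E} (hu : u ∈ UU S) : |u 0| ≤ 4 / 10000000 ∧ |u 1| ≤ 4 / 10000000 ∧
    |u 2| ≤ 4952 / 10000 := by
  obtain ⟨h0, h1⟩ := UU_slope hu (PP_UU S)
  have q0 := PP_b S 0
  have q1 := PP_b S 1
  have q2 := PP_b S 2
  obtain ⟨hO, -⟩ := UU_pred hu
  have e2 := Sys.GP2 (S := S) hO
  rw [S.GH] at e2
  have h2 := abs_lt.1 hO.2.2
  have p2 := abs_le.1 (S.pb (S.H u) 2)
  have k1 := kp_lo
  have k2 := kp_hi
  have hb : |u 2| ≤ 4952 / 10000 := by
    have hk := abs_le.1 (kp_mul_le hO.2.2.le)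
    rw [e2, abs_le]; constructor <;> linarith
  have hb' := abs_le.1 hb
  rw [abs_le] at q0 q1 q2
  have h3 : |u 2 - PP S 2| ≤ 1 / 2 := by rw [abs_le]; constructor <;> linarith
  rw [abs_le] at h0 h1
  refine ⟨?_, ?_, hb⟩ <;> rw [abs_le] <;> constructor <;> linarith

theorem norm2 {v : E} {m : ℝ} (h0 : |v 0| ≤ m) (h1 : |v 1| ≤ m) (h2 : |v 2| ≤ m) : ‖v‖ ≤ m :=
  norm3 h0 h1 h2

/-- The passage near the second saddle. -/
theorem passA : ∀ (n : ℕ) (w v : E), v ∈ VV S → |w 2 - 1 / 2| ≤ 1 / 16 →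
    |w 0 - 1 / 2| ≤ 4953 / 10000 → |w 1| ≤ 33 / 100 →
    |w 2 - v 2| ≤ max |w 0 - v 0| |w 1 - v 1| →
    -(1 / 1000000 * |w 0 - v 0|) ≤ w 1 - v 1 →
    1 ≤ (3 / 2) ^ n * max |w 0 - v 0| |w 1 - v 1| → RA S w := by
  intro n
  induction n with
  | zero =>
    intro w v hv h2 h0 h1 hc hp hn
    obtain ⟨b0, b1⟩ := VV_b hv
    rw [abs_le] at h0 h1 b0 b1
    exfalso
    have m : max |w 0 - v 0| |w 1 - v 1| ≤ 1 / 2 := by
      refine max_le ?_ ?_ <;> rw [abs_le] <;> constructor <;> linarith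
    rw [pow_zero, one_mul] at hn
    linarith
  | succ n ih =>
    intro w v hv h2 h0 h1 hc hp hn
    obtain ⟨b0, b1⟩ := VV_b hv
    have hvO := VV_mem hv
    have h0' := abs_le.1 h0
    have h1' := abs_le.1 h1
    have b0' := abs_le.1 b0
    have b1' := abs_le.1 b1
    have hx : |w 0 - v 0| ≤ 1 / 2 := by rw [abs_le]; constructor <;> linarith
    have hw1 : -(1 / 1000) ≤ w 1 := by linarith
    rcases le_or_gt (1 / 100) |w 0 - 1 / 2| with hx1 | hx1
    · exact stepA h2 h0 hx1 (by linarith) (by linarith)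
    rcases le_or_gt (1 / 5) |w 1| with hc1 | hc1
    · have hw : 1 / 5 ≤ w 1 := by
        rcases abs_cases (w 1) with ⟨h, -⟩ | ⟨h, -⟩ <;> linarith
      refine climbA 5 w h2 h0 (by linarith) (by linarith) ?_
      push_cast
      linarith
    have hO : w ∈ OQ := ⟨hx1, hc1, by linarith⟩
    have p0 := S.pl w v 0
    have p1 := S.pl w v 1
    have p2 := S.pl w v 2
    have pb0 := abs_le.1 (S.pb w 0)
    have pb1 := abs_le.1 (S.pb w 1)
    have pb2 := abs_le.1 (S.pb w 2)
    have k1 := kp_lo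
    have k2 := kp_hi
    set N := max |w 0 - v 0| |w 1 - v 1| with hN
    have n0 : |w 0 - v 0| ≤ N := le_max_left _ _
    have n1 : |w 1 - v 1| ≤ N := le_max_right _ _
    have hN0 : 0 ≤ N := (abs_nonneg _).trans n0
    have hnorm : ‖w - v‖ ≤ N := norm3 n0 n1 hc
    have d0 : S.GQ w 0 - S.GQ v 0 = kp * (w 0 - v 0) + (S.p w 0 - S.p v 0) := by
      rw [Sys.QG0 hO, Sys.QG0 hvO]; ring
    have d1 : S.GQ w 1 - S.GQ v 1 = 8 / 5 * (w 1 - v 1) + (S.p w 1 - S.p v 1) := by
      rw [Sys.QG1 hO, Sys.QG1 hvO]; ring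
    have d2 : S.GQ w 2 - S.GQ v 2 = 1 / 100 * (w 2 - v 2) + (S.p w 2 - S.p v 2) := by
      rw [Sys.QG2 hO, Sys.QG2 hvO]; ring
    have q0 : |S.p w 0 - S.p v 0| ≤ 1 / 10000000 * N := by linarith
    have q1 : |S.p w 1 - S.p v 1| ≤ 1 / 10000000 * N := by linarith
    have q2 : |S.p w 2 - S.p v 2| ≤ 1 / 10000000 * N := by linarith
    have l0 : 47 * |w 0 - v 0| - 1 / 10000000 * N ≤ |S.GQ w 0 - S.GQ v 0| := by
      have h3 := abs_sub_abs_le_abs_sub (kp * (w 0 - v 0)) (-(S.p w 0 - S.p v 0))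
      rw [sub_neg_eq_add, ← d0, abs_neg] at h3
      have := kp_mul_ge (w 0 - v 0)
      linarith
    have l2 : |S.GQ w 2 - S.GQ v 2| ≤ 1 / 50 * N := by
      rw [d2]
      refine (abs_add_le _ _).trans ?_
      rw [abs_mul, abs_of_pos (by norm_num : (0 : ℝ) < 1 / 100)]
      linarith
    have l1 := abs_le.1 q1
    -- growth
    have hgrow : 3 / 2 * N ≤ max |S.GQ w 0 - S.GQ v 0| |S.GQ w 1 - S.GQ v 1| ∧
        -(1 / 1000000 * |S.GQ w 0 - S.GQ v 0|) ≤ S.GQ w 1 - S.GQ v 1 := by
      rcases le_total |w 1 - v 1| |w 0 - v 0| with h | h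
      · have hNe : N = |w 0 - v 0| := max_eq_left h
        constructor
        · refine le_max_of_le_left ?_
          linarith
        · rw [d1]
          linarith
      · have hNe : N = |w 1 - v 1| := max_eq_right h
        have hpos : 0 ≤ w 1 - v 1 := by
          by_contra hneg
          push Not at hneg
          rw [abs_of_neg hneg] at hNe h
          have := abs_nonneg (w 0 - v 0)
          linarith
        rw [abs_of_nonneg hpos] at hNe
        have : 3 / 2 * N ≤ S.GQ w 1 - S.GQ v 1 := by rw [d1]; linarith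
        constructor
        · exact le_max_of_le_right (this.trans (le_abs_self _))
        · have := abs_nonneg (S.GQ w 0 - S.GQ v 0)
          linarith
    refine RA_GQ (ih _ _ (VV_succ hv) ?_ ?_ ?_ ?_ ?_ ?_)
    · rw [Sys.QG2 hO]
      have h2' := abs_le.1 h2
      rw [abs_le]; constructor <;> linarith
    · rw [Sys.QG0 hO]
      have hk := abs_le.1 (kp_mul_le hx1.le)
      rw [abs_le]; constructor <;> linarith
    · rw [Sys.QG1 hO]
      have hc1' := abs_lt.1 hc1
      rw [abs_le]; constructor <;> linarith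
    · linarith [hgrow.1]
    · exact hgrow.2
    · calc (1 : ℝ) ≤ (3 / 2) ^ (n + 1) * N := hn
        _ = (3 / 2) ^ n * (3 / 2 * N) := by ring
        _ ≤ _ := mul_le_mul_of_nonneg_left hgrow.1 (by positivity)

/-- The first alternative. -/
def Up (S : Sys) : Prop :=
  ∀ u ∈ UU S, ∀ t ∈ CC S, t 1 - u 1 ≤ 2 / 10000000 * (|t 0 - u 0| + |t 2 - u 2|)
/-- The second alternative. -/
def Down (S : Sys) : Prop :=
  ∀ u ∈ UU S, ∀ t ∈ CC S, -(2 / 10000000 * (|t 0 - u 0| + |t 2 - u 2|)) ≤ t 1 - u 1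
/-- No connection. -/
def NI (S : Sys) : Prop := ∀ u ∈ UU S, u ∉ CC S

theorem exists_pow {a b : ℝ} (ha : 1 < a) (hb : 0 < b) : ∃ n : ℕ, 1 ≤ a ^ n * b := by
  obtain ⟨n, hn⟩ := pow_unbounded_of_one_lt (1 / b) ha
  refine ⟨n, ?_⟩
  rw [div_lt_iff₀ hb] at hn
  exact hn.le

/-- The crossing: the orbit leaves the crossing zone for the second saddle. -/
theorem crossA (hU : Up S) (hN : NI S) {u : E} (hu : u ∈ UU S) (hX : u ∈ OX) : RA S u := by
  have k1 := kp_lo
  have k2 := kp_hi
  have hI := I1_pos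
  have hIl := I1_lo
  have hIh := I1_hi
  obtain ⟨bu0, bu1, -⟩ := UU_b hu
  have pbu0 := abs_le.1 (S.pb u 0)
  have pbu1 := abs_le.1 (S.pb u 1)
  have pbu2 := abs_le.1 (S.pb u 2)
  -- the position of `u`
  have hu2 : |u 2 - 1 / 4| ≤ 1 / 4000 := by
    have h1 : |(u 2 - 1 / 4) / I1| ≤ 11 / 1000 := by
      have : (u 2 - 1 / 4) / I1 = (u 0 + (u 2 - 1 / 4) / I1) - u 0 := by ring
      rw [this]
      refine (abs_sub _ _).trans ?_
      linarith [hX.2.2.2]
    rw [abs_div, abs_of_pos hI, div_le_iff₀ hI] at h1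
    linarith
  have hu2' := abs_le.1 hu2
  set w := S.G u with hw
  have w0 : w 0 = 1 / 2 + kp * (u 0 + (u 2 - 1 / 4) / I1) + S.p u 0 := Sys.GX0 hX
  have w1 : w 1 = 8 / 5 * u 1 + S.p u 1 := Sys.GX1 hX
  have w2 : w 2 = 1 / 100 * u 2 + 99 / 200 + S.p u 2 := Sys.GX2 hX
  obtain ⟨v, hv, hv2⟩ := exists_VV S (w 2) (by rw [w2, abs_le]; constructor <;> linarith)
  obtain ⟨bv0, bv1⟩ := VV_b hv
  have bv0' := abs_le.1 bv0
  have bv1' := abs_le.1 bv1
  set t := S.H v with ht
  have hGt : S.G t = v := S.GH v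
  have pbt0 := abs_le.1 (S.pb t 0)
  have pbt1 := abs_le.1 (S.pb t 1)
  have pbt2 := abs_le.1 (S.pb t 2)
  set Z := t 2 + 1 / 2 * bu (t 0) (t 1) with hZ
  set X := t 0 + aa Z with hXX
  have f0 : v 0 = gx X + S.p t 0 := by rw [← hGt]; exact G0 S t
  have f1 : v 1 = t 1 + th X * hh (t 1) + S.p t 1 := by rw [← hGt]; exact G1 S t
  have f2 : v 2 = ps Z + S.p t 2 := by rw [← hGt]; exact G2 S t
  -- the first coordinate
  have hps : |ps (X - 1 / 2)| ≤ 5 / 10000000 := by
    have : ps (X - 1 / 2) = v 0 - 1 / 2 - S.p t 0 := by rw [f0]; unfold gx; ring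
    rw [this, abs_le]; constructor <;> linarith
  obtain ⟨hXn, hXe⟩ := ps_near (hps.trans_lt (by norm_num))
  have hXs : |X - 1 / 2| ≤ 1 / 10000000 := by
    rw [hXe] at hps
    have := kp_mul_ge (X - 1 / 2)
    linarith
  -- the second coordinate
  rw [th_one (by linarith)] at f1
  have hmon := cm_strictMono (t := 1) (by norm_num)
  have ht1 : |t 1| ≤ 1 / 1000000 := by
    rw [abs_le]
    constructor
    · by_contra h
      push Not at h
      have := hmon h
      simp only [hh_lin (c := -(1 / 1000000)) (by rw [abs_neg, abs_of_pos (by norm_num)]; norm_num)]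
        at this
      linarith
    · by_contra h
      push Not at h
      have := hmon h
      simp only [hh_lin (c := (1 / 1000000)) (by rw [abs_of_pos (by norm_num)]; norm_num)]
        at this
      linarith
  -- the third coordinate
  have hpZ : |ps Z - 1 / 2| ≤ 1 / 250 := by
    have : ps Z - 1 / 2 = w 2 - 1 / 2 - S.p t 2 := by rw [← hv2, f2]; ring
    rw [this, w2, abs_le]; constructor <;> linarith
  obtain ⟨hZ1, hZ2⟩ := ps_flat hpZ
  rw [ps_top hZ1 hZ2, hv2, w2] at f2
  have hZu : |Z - u 2| ≤ 2 / 100000 := by rw [abs_le]; constructor <;> linarith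
  have hZu' := abs_le.1 hZu
  have hZ4 : |Z - 1 / 4| ≤ 3 / 10000 := by rw [abs_le]; constructor <;> linarith
  have haa : aa Z = 1 / 2 + (Z - 1 / 4) / I1 := aa_lin (by linarith)
  have hdiv : |(Z - 1 / 4) / I1| ≤ 3 / 200 := by
    rw [abs_div, abs_of_pos hI, div_le_iff₀ hI]
    linarith
  have ht0 : |t 0| < 1 / 8 := by
    have : t 0 = (X - 1 / 2) - (Z - 1 / 4) / I1 := by rw [hXX, haa]; ring
    rw [this]
    refine (abs_sub _ _).trans_lt ?_
    linarith
  have ht0' := abs_lt.1 ht0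
  have hb : bu (t 0) (t 1) = 0 := bu_x (by linarith) (by linarith)
  have hZt : Z = t 2 := by rw [hZ, hb]; ring
  have htO : t ∈ OX := by
    refine ⟨ht0, by linarith, by rw [← hZt]; linarith, ?_⟩
    have : t 0 + (t 2 - 1 / 4) / I1 = X - 1 / 2 := by rw [hXX, haa, ← hZt]; ring
    rw [this]; linarith
  have htC : t ∈ CC S := ⟨htO, by rw [hGt]; exact hv⟩
  have hne : u ≠ t := fun h => hN u hu (h ▸ htC)
  -- the differences
  have hUp := hU u hu t htC
  set N := ‖u - t‖ with hNn
  have hNpos : 0 < N := norm_pos_iff.2 (sub_ne_zero.2 hne)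
  have q0 : |S.p u 0 - S.p t 0| ≤ 1 / 10000000 * N := S.pl u t 0
  have q1 : |S.p u 1 - S.p t 1| ≤ 1 / 10000000 * N := S.pl u t 1
  have q2 : |S.p u 2 - S.p t 2| ≤ 1 / 10000000 * N := S.pl u t 2
  have q0' := abs_le.1 q0
  have q1' := abs_le.1 q1
  have q2' := abs_le.1 q2
  have v0 : v 0 = 1 / 2 + kp * (t 0 + (t 2 - 1 / 4) / I1) + S.p t 0 := by
    rw [← hGt]; exact Sys.GX0 htO
  have v1 : v 1 = 8 / 5 * t 1 + S.p t 1 := by rw [← hGt]; exact Sys.GX1 htO
  have v2 : v 2 = 1 / 100 * t 2 + 99 / 200 + S.p t 2 := by rw [← hGt]; exact Sys.GX2 htO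
  have c2 : |u 2 - t 2| ≤ 1 / 100000 * N := by
    rw [hv2, w2] at v2
    rw [abs_le]; constructor <;> linarith
  have d0 : w 0 - v 0 = kp * ((u 0 - t 0) + (u 2 - t 2) / I1) + (S.p u 0 - S.p t 0) := by
    rw [w0, v0]; ring
  have d1 : w 1 - v 1 = 8 / 5 * (u 1 - t 1) + (S.p u 1 - S.p t 1) := by
    rw [w1, v1]; ring
  have c0 : |u 0 - t 0| ≤ N := cle (u - t) 0
  have c1 : |u 1 - t 1| ≤ N := cle (u - t) 1
  rw [abs_sub_comm (t 0), abs_sub_comm (t 2)] at hUp
  have key : 3 / 2 * N ≤ max |w 0 - v 0| |w 1 - v 1| ∧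
      -(1 / 1000000 * |w 0 - v 0|) ≤ w 1 - v 1 := by
    rcases le_total |u 1 - t 1| |u 0 - t 0| with h | h
    · have hNe : N ≤ |u 0 - t 0| := by
        by_contra hc
        push Not at hc
        have : N ≤ max |u 0 - t 0| (N / 2) := norm3 (le_max_left _ _)
          (h.trans (le_max_left _ _)) (le_max_of_le_right (by
            show |u 2 - t 2| ≤ _
            linarith))
        rcases le_max_iff.1 this with h | h <;> linarith
      have h3 : |(u 2 - t 2) / I1| ≤ 1 / 1000 * N := by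
        rw [abs_div, abs_of_pos hI, div_le_iff₀ hI]
        have : 1 / 1000 * N * (1 / 50) ≤ 1 / 1000 * N * I1 :=
          mul_le_mul_of_nonneg_left hIl (by positivity)
        linarith
      have h4 : 46 * N ≤ |w 0 - v 0| := by
        have h5 := abs_sub_abs_le_abs_sub (kp * (u 0 - t 0))
          (-(kp * ((u 2 - t 2) / I1) + (S.p u 0 - S.p t 0)))
        have e : kp * (u 0 - t 0) - -(kp * ((u 2 - t 2) / I1) + (S.p u 0 - S.p t 0)) =
          w 0 - v 0 := by rw [d0]; ring
        rw [e, abs_neg, abs_mul, abs_of_pos kp_pos] at h5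
        have h6 : |kp * ((u 2 - t 2) / I1) + (S.p u 0 - S.p t 0)| ≤ 1 / 10 * N := by
          refine (abs_add_le _ _).trans ?_
          rw [abs_mul, abs_of_pos kp_pos]
          have : kp * |(u 2 - t 2) / I1| ≤ 4951 / 100 * (1 / 1000 * N) :=
            mul_le_mul k2 h3 (abs_nonneg _) (by norm_num)
          linarith
        have h7 : 47 * N ≤ kp * |u 0 - t 0| := mul_le_mul k1 hNe hNpos.le kp_pos.le
        linarith
      constructor
      · exact le_max_of_le_left (by linarith)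
      · rw [d1]; linarith
    · have hNe : N ≤ |u 1 - t 1| := by
        by_contra hc
        push Not at hc
        have : N ≤ max |u 1 - t 1| (N / 2) := norm3 (h.trans (le_max_left _ _)) (le_max_left _ _)
          (le_max_of_le_right (by
            show |u 2 - t 2| ≤ _
            linarith))
        rcases le_max_iff.1 this with h | h <;> linarith
      have hpos : 0 ≤ u 1 - t 1 := by
        by_contra hneg
        push Not at hneg
        rw [abs_of_neg hneg] at hNe
        linarith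
      rw [abs_of_nonneg hpos] at hNe
      have h8 : 3 / 2 * N ≤ w 1 - v 1 := by rw [d1]; linarith
      constructor
      · exact le_max_of_le_right (h8.trans (le_abs_self _))
      · have := abs_nonneg (w 0 - v 0)
        linarith
  obtain ⟨n, hn⟩ := exists_pow (a := 3 / 2) (by norm_num)
    (show 0 < max |w 0 - v 0| |w 1 - v 1| by linarith [key.1])
  have bu0' := abs_le.1 bu0
  have bu1' := abs_le.1 bu1
  have hX3 := abs_lt.1 hX.2.2.2
  refine RA_G (passA n w v hv ?_ ?_ ?_ ?_ key.2 hn)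
  · rw [w2, abs_le]; constructor <;> linarith
  · have hk := abs_le.1 (kp_mul_le hX.2.2.2.le)
    rw [w0, abs_le]; constructor <;> linarith
  · rw [w1, abs_le]; constructor <;> linarith
  · rw [hv2, sub_self, abs_zero]; linarith [key.1]

/-- The exit from the first zone. -/
theorem exitA (hU : Up S) (hN : NI S) : ∀ (n : ℕ) (u : E), u ∈ UU S →
    1 ≤ 46 ^ n * |u 2 - PP S 2| → RA S u := by
  have k1 := kp_lo
  have k2 := kp_hi
  have hI := I1_pos
  have hIl := I1_lo
  -- the case of large third coordinate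
  have big : ∀ u ∈ UU S, 1 / 100 ≤ |u 2| → RA S u := by
    intro u hu h2
    obtain ⟨b0, b1, b2⟩ := UU_b hu
    have b0' := abs_le.1 b0
    have b2' := abs_le.1 b2
    by_cases hX : 1 / 100 ≤ nz (u 0 + aa (u 2) - 1 / 2)
    · exact RA_G (RA_of (inA_of (bu_x (by linarith) (by linarith))
        (nz_lower h2 (by linarith)) hX))
    push Not at hX
    have cont : ∀ {a : ℝ}, 47 / 100 ≤ |u 0 + a - 1 / 2| → |u 0 + a - 1 / 2| ≤ 53 / 100 →
        aa (u 2) = a → False := by
      intro a h h' he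
      rw [he] at hX
      have := nz_lower (a := 47 / 100) h (by linarith)
      linarith
    have h2pos : 0 ≤ u 2 := by
      by_contra hneg
      push Not at hneg
      refine cont (a := 0) ?_ ?_ (aa_zero (by linarith) (by linarith))
      · rw [abs_of_neg (by linarith)]; linarith
      · rw [abs_of_neg (by linarith)]; linarith
    have h24 : |u 2 - 1 / 4| < 1 / 100 := by
      rw [abs_lt]
      constructor
      · by_contra hc
        push Not at hc
        obtain ⟨a1, a2⟩ := aa_small (z := u 2) (by linarith) (by linarith)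
        refine cont (a := aa (u 2)) ?_ ?_ rfl
        · rw [abs_of_neg (by linarith)]; linarith
        · rw [abs_of_neg (by linarith)]; linarith
      · by_contra hc
        push Not at hc
        obtain ⟨a1, a2⟩ := aa_large (z := u 2) (by linarith) (by linarith)
        refine cont (a := aa (u 2)) ?_ ?_ rfl
        · rw [abs_of_pos (by linarith)]; linarith
        · rw [abs_of_pos (by linarith)]; linarith
    have haa := aa_lin h24.le
    rw [haa, show u 0 + (1 / 2 + (u 2 - 1 / 4) / I1) - 1 / 2 = u 0 + (u 2 - 1 / 4) / I1 by ring]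
      at hX
    refine crossA hU hN hu ⟨by linarith, by linarith, h24, ?_⟩
    by_contra hc
    push Not at hc
    have h5 : |(u 2 - 1 / 4) / I1| ≤ 1 / 2 := by
      rw [abs_div, abs_of_pos hI, div_le_iff₀ hI]
      linarith
    have h6 : |u 0 + (u 2 - 1 / 4) / I1| ≤ 1 - 1 / 100 := (abs_add_le _ _).trans (by linarith)
    have := nz_lower hc h6
    linarith
  intro n
  induction n with
  | zero =>
    intro u hu hn
    rw [pow_zero, one_mul] at hn
    obtain ⟨b0, b1, b2⟩ := UU_b hu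
    have := PP_b S 2
    have h3 := abs_sub (u 2) (PP S 2)
    linarith
  | succ n ih =>
    intro u hu hn
    obtain ⟨b0, b1, b2⟩ := UU_b hu
    rcases le_or_gt (1 / 100) |u 2| with h2 | h2
    · exact big u hu h2
    have hO : u ∈ OP := ⟨by linarith, by linarith, h2⟩
    refine RA_G (ih _ (UU_succ hu hO) ?_)
    obtain ⟨s0, s1⟩ := UU_slope hu (PP_UU S)
    have hnorm : ‖u - PP S‖ ≤ |u 2 - PP S 2| := by
      have := abs_nonneg (u 2 - PP S 2)
      refine norm3 ?_ ?_ le_rfl
      · show |u 0 - PP S 0| ≤ _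
        linarith
      · show |u 1 - PP S 1| ≤ _
        linarith
    have q2 := S.pl u (PP S) 2
    have e : S.G u 2 - PP S 2 = kp * (u 2 - PP S 2) + (S.p u 2 - S.p (PP S) 2) := by
      have h1 := Sys.GP2 (S := S) hO
      have h2 := Sys.GP2 (S := S) (PP_mem S)
      rw [PP_fix] at h2
      rw [h1]
      linear_combination -h2
    have h3 := abs_sub_abs_le_abs_sub (kp * (u 2 - PP S 2)) (-(S.p u 2 - S.p (PP S) 2))
    rw [sub_neg_eq_add, ← e, abs_neg] at h3
    have h4 : 46 * |u 2 - PP S 2| ≤ |S.G u 2 - PP S 2| := by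
      have := abs_nonneg (u 2 - PP S 2)
      have := kp_mul_ge (u 2 - PP S 2)
      linarith
    calc (1 : ℝ) ≤ 46 ^ (n + 1) * |u 2 - PP S 2| := hn
      _ = 46 ^ n * (46 * |u 2 - PP S 2|) := by ring
      _ ≤ _ := mul_le_mul_of_nonneg_left h4 (by positivity)

/-- The unstable separatrices of the first saddle fall into the attracting region. -/
theorem lemmaA (hU : Up S) (hN : NI S) {u : E} (hu : u ∈ UU S) (hne : u ≠ PP S) : RA S u := by
  obtain ⟨s0, s1⟩ := UU_slope hu (PP_UU S)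
  have hpos : 0 < |u 2 - PP S 2| := by
    by_contra hc
    have h0 : |u 2 - PP S 2| = 0 := le_antisymm (not_lt.1 hc) (abs_nonneg _)
    rw [h0, mul_zero] at s0 s1
    exact hne (ext3 (sub_eq_zero.1 (abs_nonpos_iff.1 s0)) (sub_eq_zero.1 (abs_nonpos_iff.1 s1))
      (sub_eq_zero.1 (abs_eq_zero.1 h0)))
  obtain ⟨n, hn⟩ := exists_pow (a := 46) (by norm_num) hpos
  exact exitA hU hN n u hu hn

end Pool.Agent.TH290.FC
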