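import Pool.Agent.TH290.FC.PassA

set_option autoImplicit false

/-! # The backward passage -/

open Set Filter Topology Real
open scoped ContDiff

namespace Pool.Agent.TH290.FC

variable {S : Sys}

/-- Position of the preimage. -/
theorem back {w y : E} (hy : S.G y = w) {k : ℤ} (h2 : |w 2 - k| ≤ 46 / 100) :
    |y 2 + 1 / 2 * bu (y 0) (y 1) - k| < 1 / 100 ∧ aa (y 2 + 1 / 2 * bu (y 0) (y 1)) = k ∧
      w 0 = gx (y 0) + k + S.p y 0 ∧ w 1 = y 1 + th (y 0) * hh (y 1) + S.p y 1 ∧
      w 2 - k = kp * (y 2 + 1 / 2 * bu (y 0) (y 1) - k) + S.p y 2 := by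
  have e0 := G0 S y
  have e1 := G1 S y
  have e2 := G2 S y
  rw [hy] at e0 e1 e2
  set Z := y 2 + 1 / 2 * bu (y 0) (y 1) with hZ
  have p2 := abs_le.1 (S.pb y 2)
  have hk : ps (Z - k) = ps Z - k := by
    have := ps_add_int (Z - k) k
    rw [sub_add_cancel] at this
    linarith
  have h3 : |ps (Z - k)| < 47 / 100 := by
    rw [hk, abs_lt]
    rw [abs_le] at h2
    constructor <;> linarith
  obtain ⟨h4, h5⟩ := ps_near h3
  have h4' := abs_lt.1 h4
  have haa : aa Z = k := by
    have := aa_add_int (Z - k) k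
    rw [sub_add_cancel] at this
    rw [this, aa_zero (by linarith) (by linarith), zero_add]
  refine ⟨h4, haa, ?_, ?_, ?_⟩
  · rw [e0, haa, gx_add_int]
  · rw [e1, haa, th_add_int]
  · rw [e2]; linarith

/-- One step into the repelling region. -/
theorem stepB {w : E} (h2 : nz (w 2) ≤ 46 / 100) (h0 : 4 / 100 ≤ nz (w 0)) : RR S w := by
  obtain ⟨k, hk⟩ := nz_exists (w 2)
  rw [← hk] at h2
  obtain ⟨h3, -, e0, -, -⟩ := back (S.GH w) h2
  set y := S.H w with hy
  have h5 : nz (y 0 - 1 / 2) < 1 / 100 := by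
    by_contra hc
    push Not at hc
    have h6 := gx_farz hc
    have h7 : nz (w 0) ≤ nz (gx (y 0)) + |S.p y 0| := by
      rw [e0, show gx (y 0) + (k : ℝ) + S.p y 0 = gx (y 0) + S.p y 0 + k by ring, nz_add_int]
      exact nz_add_le _ _
    have := S.pb y 0
    linarith
  have hb : bu (y 0) (y 1) = 0 := bu_xz (by linarith)
  rw [hb, mul_zero, add_zero] at h3
  refine RR_H (RR_of ⟨?_, Or.inl (by linarith)⟩)
  exact (nz_le_int _ k).trans (by linarith)

/-- The climb to `c = 1/2`. -/
theorem climbB : ∀ (n : ℕ) (w : E), |w 2| ≤ 1 / 16 → w 1 ≤ 5 / 8 → 11 / 60 ≤ w 1 →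
    3 / 8 ≤ w 1 + n / 25 → RR S w := by
  intro n
  induction n with
  | zero =>
    intro w h2 h1 h1' hn
    refine RR_of ⟨(nz_le_abs _).trans h2, Or.inr ((nz_le_abs _).trans ?_)⟩
    rw [abs_le]
    push_cast at hn
    constructor <;> linarith
  | succ n ih =>
    intro w h2 h1 h1' hn
    rcases le_total (3 / 8) (w 1) with h3 | h3
    · refine RR_of ⟨(nz_le_abs _).trans h2, Or.inr ((nz_le_abs _).trans ?_)⟩
      rw [abs_le]
      constructor <;> linarith
    have h2' : |w 2 - ((0 : ℤ) : ℝ)| ≤ 46 / 100 := by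
      push_cast; rw [sub_zero]; linarith
    obtain ⟨hz, -, -, e1, -⟩ := back (S.GH w) h2'
    push_cast at hz
    rw [sub_zero] at hz
    set y := S.H w with hy
    have p1 := abs_le.1 (S.pb y 1)
    rcases le_or_gt (nz (y 0 - 1 / 2)) (1 / 8) with hn0 | hn0
    · have hb : bu (y 0) (y 1) = 0 := bu_xz (by linarith)
      rw [hb, mul_zero, add_zero] at hz
      exact RR_H (RR_of ⟨(nz_le_abs _).trans (by linarith), Or.inl hn0⟩)
    rw [th_far hn0.le] at e1
    have hmon := cm_strictMono (t := -1) (by norm_num)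
    have y1 : y 1 ≤ 1 / 2 := by
      by_contra h
      push Not at h
      have := hmon h
      simp only [hh_half] at this
      linarith
    have y2 : 1 / 5 ≤ y 1 := by
      by_contra h
      push Not at h
      have := hmon h
      simp only [hh_lin (c := 1 / 5) (by rw [abs_of_pos (by norm_num)])] at this
      linarith
    have hb : bu (y 0) (y 1) = 0 := bu_c (by linarith) (by linarith)
    rw [hb, mul_zero, add_zero] at hz
    push_cast at hn
    refine RR_H (ih y (by linarith) (by linarith) (by linarith) ?_)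
    rcases le_total (3 / 8) (y 1) with h | h
    · have : (0 : ℝ) ≤ n / 25 := by positivity
      linarith
    · have := hh_pos (c := y 1) (by linarith) h
      linarith

/-- The passage near the first saddle. -/
theorem passB : ∀ (n : ℕ) (w u : E), u ∈ UU S → |w 0| ≤ 1 / 8 → |w 1| ≤ 1 / 5 → |w 2| ≤ 2 / 5 →
    |w 2 - u 2| ≤ max |w 0 - u 0| |w 1 - u 1| →
    -(1 / 1000000 * |w 0 - u 0|) ≤ w 1 - u 1 →
    1 ≤ 2 ^ n * max |w 0 - u 0| |w 1 - u 1| → RR S w := by
  intro n
  induction n with
  | zero =>
    intro w u hu h0 h1 h2 hc hp hn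
    obtain ⟨b0, b1, -⟩ := UU_b hu
    exfalso
    have m : max |w 0 - u 0| |w 1 - u 1| ≤ 1 / 2 := by
      refine max_le ?_ ?_
      · exact (abs_sub _ _).trans (by linarith)
      · exact (abs_sub _ _).trans (by linarith)
    rw [pow_zero, one_mul] at hn
    linarith
  | succ n ih =>
    intro w u hu h0 h1 h2 hc hp hn
    obtain ⟨b0, b1, -⟩ := UU_b hu
    obtain ⟨huO, hu'⟩ := UU_pred hu
    have hGu : S.G (S.H u) = u := S.GH u
    have h2' : |w 2 - ((0 : ℤ) : ℝ)| ≤ 46 / 100 := by
      push_cast; rw [sub_zero]; linarith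
    obtain ⟨hz, -, e0, e1, -⟩ := back (S.GH w) h2'
    push_cast at hz e0
    rw [sub_zero] at hz
    have hGy : S.G (S.H w) = w := S.GH w
    set y := S.H w with hy
    set x := S.H u with hx
    have p0 := abs_le.1 (S.pb y 0)
    have p1 := abs_le.1 (S.pb y 1)
    rcases le_or_gt (nz (y 0 - 1 / 2)) (1 / 8) with hn0 | hn0
    · have hb : bu (y 0) (y 1) = 0 := bu_xz (by linarith)
      rw [hb, mul_zero, add_zero] at hz
      exact RR_H (RR_of ⟨(nz_le_abs _).trans (by linarith), Or.inl hn0⟩)
    rw [th_far hn0.le] at e1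
    have hmon := cm_strictMono (t := -1) (by norm_num)
    have hx0 : |w 0 - u 0| ≤ 1 / 7 := (abs_sub _ _).trans (by linarith)
    have b1' := abs_le.1 b1
    have h1' := abs_le.1 h1
    have h0' := abs_le.1 h0
    have y1 : y 1 ≤ 1 / 2 := by
      by_contra h
      push Not at h
      have := hmon h
      simp only [hh_half] at this
      linarith
    have y1' : -(1 / 100000) ≤ y 1 := by
      by_contra h
      push Not at h
      have := hmon h
      simp only [hh_lin (c := -(1 / 100000)) (by rw [abs_neg, abs_of_pos (by norm_num)]; norm_num)]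
        at this
      linarith
    have hb : bu (y 0) (y 1) = 0 := bu_c (by linarith) (by linarith)
    rw [hb, mul_zero, add_zero] at hz
    -- the first coordinate of the preimage
    have gh : gx (1 / 2) = 1 / 2 := by rw [gx_lin (by norm_num)]; ring
    have gh' : gx (-(1 / 2)) = -(1 / 2) := by
      have := gx_add_one (-(1 / 2))
      rw [show -(1 / 2 : ℝ) + 1 = 1 / 2 by norm_num, gh] at this
      linarith
    have y0 : |y 0| < 3 / 8 := by
      have a1 : y 0 < 1 / 2 := by
        by_contra h
        push Not at h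
        have := gx_strictMono.monotone h
        rw [gh] at this
        linarith
      have a2 : -(1 / 2) < y 0 := by
        by_contra h
        push Not at h
        have := gx_strictMono.monotone h
        rw [gh'] at this
        linarith
      rw [abs_lt]
      constructor
      · by_contra h
        push Not at h
        have := nz_le_int (y 0 - 1 / 2) (-1)
        push_cast at this
        rw [abs_of_nonneg (by linarith)] at this
        linarith
      · by_contra h
        push Not at h
        have := nz_le_abs (y 0 - 1 / 2)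
        rw [abs_of_nonpos (by linarith)] at this
        linarith
    rcases le_or_gt (1 / 8) |y 0| with hy0 | hy0
    · refine RR_H (stepB ((nz_le_abs _).trans (by linarith)) ?_)
      have := nz_lower hy0 (by linarith)
      linarith
    rcases le_or_gt (1 / 5) |y 1| with hy1 | hy1
    · have hy1' : 1 / 5 ≤ y 1 := by
        rcases abs_cases (y 1) with ⟨h, -⟩ | ⟨h, -⟩ <;> linarith
      refine RR_H (climbB 5 y (by linarith) (by linarith) (by linarith) ?_)
      push_cast
      linarith
    have hyO : y ∈ OP := ⟨hy0, hy1, hz⟩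
    clear hmon gh gh' hn0 y0 e0 e1 hb h2' y1 y1' p0 p1
    have q0 := S.pl y x 0
    have q1 := S.pl y x 1
    have q2 := S.pl y x 2
    set N := ‖y - x‖ with hN
    have hN0 : 0 ≤ N := norm_nonneg _
    have d0 : w 0 - u 0 = 1 / 100 * (y 0 - x 0) + (S.p y 0 - S.p x 0) := by
      rw [← hGy, ← hGu, Sys.GP0 hyO, Sys.GP0 huO]; ring
    have d1 : w 1 - u 1 = 2 / 5 * (y 1 - x 1) + (S.p y 1 - S.p x 1) := by
      rw [← hGy, ← hGu, Sys.GP1 hyO, Sys.GP1 huO]; ring
    have d2 : w 2 - u 2 = kp * (y 2 - x 2) + (S.p y 2 - S.p x 2) := by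
      rw [← hGy, ← hGu, Sys.GP2 hyO, Sys.GP2 huO]; ring
    have l0 : |w 0 - u 0| ≤ 1 / 100 * |y 0 - x 0| + 1 / 10000000 * N := by
      rw [d0]
      refine (abs_add_le _ _).trans ?_
      rw [abs_mul, abs_of_pos (by norm_num : (0 : ℝ) < 1 / 100)]
      linarith
    have l1 : |w 1 - u 1| ≤ 2 / 5 * |y 1 - x 1| + 1 / 10000000 * N := by
      rw [d1]
      refine (abs_add_le _ _).trans ?_
      rw [abs_mul, abs_of_pos (by norm_num : (0 : ℝ) < 2 / 5)]
      linarith
    have l2 : 47 * |y 2 - x 2| - 1 / 10000000 * N ≤ |w 2 - u 2| := by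
      have h3 := abs_sub_abs_le_abs_sub (kp * (y 2 - x 2)) (-(S.p y 2 - S.p x 2))
      rw [sub_neg_eq_add, ← d2, abs_mul, abs_of_pos kp_pos, abs_neg] at h3
      have h4 : 47 * |y 2 - x 2| ≤ kp * |y 2 - x 2| :=
        mul_le_mul_of_nonneg_right kp_lo (abs_nonneg _)
      linarith
    have q1' := abs_le.1 q1
    set M := max |y 0 - x 0| |y 1 - x 1| with hM
    have m0 : |y 0 - x 0| ≤ M := le_max_left _ _
    have m1 : |y 1 - x 1| ≤ M := le_max_right _ _
    have a0 := abs_nonneg (y 0 - x 0)
    have a1 := abs_nonneg (y 1 - x 1)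
    have l3 : max |w 0 - u 0| |w 1 - u 1| ≤ 2 / 5 * M + 1 / 10000000 * N :=
      max_le (by linarith) (by linarith)
    have hcM : |y 2 - x 2| ≤ M := by
      by_contra h
      push Not at h
      have : N ≤ |y 2 - x 2| := norm3 (m0.trans h.le) (m1.trans h.le) le_rfl
      linarith
    have hNM : N ≤ M := norm3 m0 m1 hcM
    have hgrow : 2 * max |w 0 - u 0| |w 1 - u 1| ≤ M := by linarith
    have hcone : -(1 / 1000000 * |y 0 - x 0|) ≤ y 1 - x 1 := by
      rcases le_total |y 1 - x 1| |y 0 - x 0| with h | h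
      · have hMe : M = |y 0 - x 0| := max_eq_left h
        linarith
      · have hMe : M = |y 1 - x 1| := max_eq_right h
        by_contra hneg
        push Not at hneg
        rw [abs_of_neg (by linarith : y 1 - x 1 < 0)] at hMe
        linarith
    refine RR_H (ih y x hu' hy0.le hy1.le (by linarith) hcM hcone ?_)
    calc (1 : ℝ) ≤ 2 ^ (n + 1) * max |w 0 - u 0| |w 1 - u 1| := hn
      _ = 2 ^ n * (2 * max |w 0 - u 0| |w 1 - u 1|) := by ring
      _ ≤ _ := mul_le_mul_of_nonneg_left hgrow (by positivity)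

theorem crossB (hD : Down S) (hN : NI S) {t : E} (ht : t ∈ CC S) (h0 : |t 0| ≤ 1 / 20) :
    RR S t := by
  obtain ⟨-, o1, o2, -⟩ := ht.1
  have o2' := abs_lt.1 o2
  obtain ⟨u, hu, hu2⟩ := exists_UU S (t 2) (by rw [abs_le]; constructor <;> linarith)
  have hDo := hD u hu t ht
  rw [hu2, sub_self, abs_zero, add_zero] at hDo
  have hne : t ≠ u := fun h => hN u hu (h ▸ ht)
  have hpos : 0 < max |t 0 - u 0| |t 1 - u 1| := by
    by_contra hc
    push Not at hc
    have g0 := (le_max_left _ _).trans hc
    have g1 := (le_max_right _ _).trans hc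
    exact hne (ext3 (sub_eq_zero.1 (abs_nonpos_iff.1 g0)) (sub_eq_zero.1 (abs_nonpos_iff.1 g1))
      hu2.symm)
  obtain ⟨n, hn⟩ := exists_pow (a := 2) (by norm_num) hpos
  have := abs_nonneg (t 0 - u 0)
  refine passB n t u hu (by linarith) o1.le ?_ ?_ (by linarith) hn
  · rw [abs_le]; constructor <;> linarith
  · rw [hu2, sub_self, abs_zero]; exact hpos.le

theorem RR_HQ {x : E} (h : RR S (S.HQ x)) : RR S x := by
  refine RR_H (RR_add (AI_mem e0_mem) ?_)
  rw [← S.H_add _ _ e0_mem]
  exact h

/-- The exit from the second zone in the past. -/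
theorem exitB (hD : Down S) (hN : NI S) : ∀ (n : ℕ) (v : E), v ∈ VV S →
    1 ≤ 50 ^ n * |v 2 - QQ S 2| → RR S v := by
  have k1 := kp_lo
  have hI := I1_pos
  intro n
  induction n with
  | zero =>
    intro v hv hn
    rw [pow_zero, one_mul] at hn
    have := (VV_mem hv).2.2
    have := QQ_b S 2
    simp only [cQ, v3_2] at this
    have h3 := abs_sub (v 2 - 1 / 2) (QQ S 2 - 1 / 2)
    rw [sub_sub_sub_cancel_right] at h3
    linarith
  | succ n ih =>
    intro v hv hn
    obtain ⟨b0, b1⟩ := VV_b hv
    have hvO := VV_mem hv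
    have hGy : S.GQ (S.HQ v) = v := S.GQ_HQ v
    set y := S.HQ v with hy
    by_cases hyO : y ∈ OQ
    · have hyV : y ∈ VV S := VV_pred hyO (by rw [hGy]; exact hv)
      obtain ⟨s0, s1⟩ := VV_slope hyV (QQ_VV S)
      have a := abs_nonneg (y 2 - QQ S 2)
      have hnorm : ‖y - QQ S‖ ≤ |y 2 - QQ S 2| := by
        refine norm3 ?_ ?_ le_rfl
        · show |y 0 - QQ S 0| ≤ _
          linarith
        · show |y 1 - QQ S 1| ≤ _
          linarith
      have q2 := S.pl y (QQ S) 2
      have e : v 2 - QQ S 2 = 1 / 100 * (y 2 - QQ S 2) + (S.p y 2 - S.p (QQ S) 2) := by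
        have h1 := Sys.QG2 (S := S) hyO
        have h2 := Sys.QG2 (S := S) (QQ_mem S)
        rw [QQ_fix] at h2
        rw [hGy] at h1
        linear_combination h1 - h2
      have h4 : 50 * |v 2 - QQ S 2| ≤ |y 2 - QQ S 2| := by
        have h5 : |v 2 - QQ S 2| ≤ 1 / 100 * |y 2 - QQ S 2| + |S.p y 2 - S.p (QQ S) 2| := by
          rw [e]
          refine (abs_add_le _ _).trans ?_
          rw [abs_mul, abs_of_pos (by norm_num : (0 : ℝ) < 1 / 100)]
        linarith
      refine RR_HQ (ih y hyV ?_)
      calc (1 : ℝ) ≤ 50 ^ (n + 1) * |v 2 - QQ S 2| := hn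
        _ = 50 ^ n * (50 * |v 2 - QQ S 2|) := by ring
        _ ≤ _ := mul_le_mul_of_nonneg_left h4 (by positivity)
    -- the preimage is outside of the zone
    refine RR_HQ ?_
    have f0 : v 0 = gx (y 0 + aa (y 2 + 1 / 2 * bu (y 0) (y 1))) + S.p y 0 - 1 := by
      have := S.GQ0 y
      rw [hGy, G0] at this
      exact this
    have f1 : v 1 = y 1 + th (y 0 + aa (y 2 + 1 / 2 * bu (y 0) (y 1))) * hh (y 1) + S.p y 1 := by
      have := S.GQ1 y
      rw [hGy, G1] at this
      exact this
    have f2 : v 2 = ps (y 2 + 1 / 2 * bu (y 0) (y 1)) + S.p y 2 := by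
      have := S.GQ2 y
      rw [hGy, G2] at this
      exact this
    have p0 := abs_le.1 (S.pb y 0)
    have p1 := abs_le.1 (S.pb y 1)
    have p2 := abs_le.1 (S.pb y 2)
    have b0' := abs_le.1 b0
    have b1' := abs_le.1 b1
    have o2 := abs_lt.1 hvO.2.2
    set X := y 0 + aa (y 2 + 1 / 2 * bu (y 0) (y 1)) with hX
    have hps : |ps (X - 3 / 2)| ≤ 5 / 10000000 := by
      have h3 : gx X = 1 / 2 + (ps (X - 3 / 2) + 1) := by
        unfold gx
        rw [← ps_add_one]
        congr 2; ring
      have : ps (X - 3 / 2) = v 0 - 1 / 2 - S.p y 0 := by rw [f0, h3]; ring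
      rw [this, abs_le]; constructor <;> linarith
    obtain ⟨hXn, -⟩ := ps_near (hps.trans_lt (by norm_num))
    have hth : th X = 1 := by
      have := th_add_one (X - 1)
      rw [sub_add_cancel] at this
      rw [this]
      exact th_one (by rw [show X - 1 - 1 / 2 = X - 3 / 2 by ring]; linarith)
    rw [hth] at f1
    have hmon := cm_strictMono (t := 1) (by norm_num)
    have hy1 : |y 1| ≤ 1 / 1000000 := by
      rw [abs_le]
      constructor
      · by_contra h
        push Not at h
        have := hmon h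
        simp only [hh_lin (c := -(1 / 1000000)) (by rw [abs_neg, abs_of_pos (by norm_num)]; norm_num)]
          at this
        linarith
      · by_contra h
        push Not at h
        have := hmon h
        simp only [hh_lin (c := (1 / 1000000)) (by rw [abs_of_pos (by norm_num)]; norm_num)]
          at this
        linarith
    have hy1' := abs_le.1 hy1
    have hb : bu (y 0) (y 1) = 0 := bu_c (by linarith) (by linarith)
    rw [hb, mul_zero, add_zero] at f2 hX
    have y2a : 0 < y 2 := by
      by_contra h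
      push Not at h
      have := ps_strictMono.monotone h
      rw [ps_zero] at this
      linarith
    have y2b : y 2 < 1 := by
      by_contra h
      push Not at h
      have := ps_strictMono.monotone h
      have h3 := ps_int 1
      push_cast at h3
      rw [h3] at this
      linarith
    have y2c : 1 / 8 ≤ |y 2 - 1 / 2| := by
      by_contra h
      push Not at h
      have h' := abs_lt.1 h
      rw [aa_one (by linarith) (by linarith)] at hX
      refine hyO ⟨?_, by linarith, h⟩
      rw [show y 0 - 1 / 2 = X - 3 / 2 by rw [hX]; ring]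
      exact hXn
    have hnz2 : nz (y 2) ≤ 46 / 100 := by
      rcases abs_cases (y 2 - 1 / 2) with ⟨h, -⟩ | ⟨h, -⟩
      · refine (nz_le_int _ 1).trans ?_
        push_cast
        rw [abs_of_nonpos (by linarith)]
        linarith
      · refine (nz_le_abs _).trans ?_
        rw [abs_of_pos y2a]
        linarith
    rcases le_or_gt (4 / 100) (nz (y 0)) with hnz0 | hnz0
    · exact stepB hnz2 hnz0
    -- the crossing
    have hXn' := abs_lt.1 hXn
    have aam1 : 0 ≤ aa (y 2) := by
      have := aa_mono y2a.le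
      rwa [aa_zero (by norm_num) (by norm_num)] at this
    have aam2 : aa (y 2) ≤ 1 := by
      have := aa_mono y2b.le
      have e1 : aa 1 = 1 := aa_one (by norm_num) (by norm_num)
      rwa [e1] at this
    have hy0 : |y 0 - 1| < 4 / 100 := by
      by_contra h
      push Not at h
      have h3 : |y 0 - 1| ≤ 1 - 4 / 100 := by rw [abs_le]; constructor <;> linarith
      have h4 := nz_lower h h3
      have h5 := nz_add_int (y 0 - 1) 1
      push_cast at h5
      rw [sub_add_cancel] at h5
      linarith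
    have hy0' := abs_lt.1 hy0
    have h24 : |y 2 - 1 / 4| < 1 / 100 := by
      rw [abs_lt]
      constructor
      · by_contra hc
        push Not at hc
        obtain ⟨a1, a2⟩ := aa_small (z := y 2) (by linarith) (by linarith)
        linarith
      · by_contra hc
        push Not at hc
        obtain ⟨a1, a2⟩ := aa_large (z := y 2) (by linarith) (by linarith)
        linarith
    have haa := aa_lin h24.le
    have t0 : (y + -e0) 0 = y 0 - 1 := by simp [e0]; ring
    have t1 : (y + -e0) 1 = y 1 := by simp [e0]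
    have t2 : (y + -e0) 2 = y 2 := by simp [e0]
    refine RR_add (l := -e0) (Ltc.neg_mem e0_mem) (crossB hD hN ⟨⟨?_, ?_, ?_, ?_⟩, ?_⟩ ?_)
    · rw [t0]; linarith
    · rw [t1]; linarith
    · rw [t2]; exact h24
    · rw [t0, t2, show y 0 - 1 + (y 2 - 1 / 4) / I1 = X - 3 / 2 by rw [hX, haa]; ring]
      exact hXn
    · have : S.G (y + -e0) = v := by
        rw [S.G_add _ _ (Ltc.neg_mem e0_mem), ← hGy]
        refine ext3 ?_ ?_ ?_ <;> simp [AL, Sys.GQ, e0]
        ring
      rw [this]
      exact hv
    · rw [t0]; linarith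

/-- The stable separatrices of the second saddle come from the repelling region. -/
theorem lemmaB (hD : Down S) (hN : NI S) {v : E} (hv : v ∈ VV S) (hne : v ≠ QQ S) : RR S v := by
  obtain ⟨s0, s1⟩ := VV_slope hv (QQ_VV S)
  have hpos : 0 < |v 2 - QQ S 2| := by
    by_contra hc
    have h0 : |v 2 - QQ S 2| = 0 := le_antisymm (not_lt.1 hc) (abs_nonneg _)
    rw [h0, mul_zero] at s0 s1
    exact hne (ext3 (sub_eq_zero.1 (abs_nonpos_iff.1 s0)) (sub_eq_zero.1 (abs_nonpos_iff.1 s1))
      (sub_eq_zero.1 (abs_eq_zero.1 h0)))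
  obtain ⟨n, hn⟩ := exists_pow (a := 50) (by norm_num) hpos
  exact exitB hD hN n v hv hn

end Pool.Agent.TH290.FC
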