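import Pool.Agent.TH290.FC.Torus

set_option autoImplicit false

/-! # Removing the connection by a small perturbation -/

open Set Filter Topology Real
open scoped ContDiff
open Pool.Agent.H728R2.OS (IsLift IsDiffeo CkClose)

namespace Pool.Agent.TH290.FC

/-- The bump of the perturbation. -/
noncomputable def beta (x : E) : ℝ := bp (1 / 8) (3 / 16) (x 0) * bp (1 / 100) (1 / 50) (x 2 - 1 / 4)

theorem beta_cd : ContDiff ℝ ∞ beta :=
  ((bp_cd _ _).comp (cdx 0)).mul ((bp_cd _ _).comp ((cdx 2).sub contDiff_const))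

theorem beta_add {x l : E} (hl : l ∈ Ltc) : beta (x + l) = beta x := by
  obtain ⟨a, b, c, h0, h1, h2⟩ := Lint hl
  unfold beta
  rw [Pi.add_apply, Pi.add_apply, h0, h2, bp_add_int,
    show x 2 + (c : ℝ) - 1 / 4 = x 2 - 1 / 4 + c by ring, bp_add_int]

theorem beta_one {x : E} (h0 : |x 0| ≤ 1 / 8) (h2 : |x 2 - 1 / 4| ≤ 1 / 100) : beta x = 1 := by
  unfold beta
  rw [bp_one (by norm_num) (by norm_num) (by norm_num) h0,
    bp_one (by norm_num) (by norm_num) (by norm_num) h2, one_mul]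

theorem beta_P {x : E} (h2 : |x 2| < 1 / 100) : beta x = 0 := by
  rw [abs_lt] at h2
  unfold beta
  rw [bp_zero' (t := x 2 - 1 / 4) (by norm_num) (by norm_num) (by norm_num) (by linarith)
    (by linarith), mul_zero]

theorem beta_Q {x : E} (h2 : |x 2 - 1 / 2| < 1 / 8) : beta x = 0 := by
  rw [abs_lt] at h2
  unfold beta
  rw [bp_zero (t := x 2 - 1 / 4) (by norm_num) (by norm_num) (by norm_num) (by linarith)
    (by linarith), mul_zero]

theorem beta_congr {x y : E} (h0 : x 0 = y 0) (h2 : x 2 = y 2) : beta x = beta y := by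
  unfold beta; rw [h0, h2]

theorem beta_nonneg (x : E) : 0 ≤ beta x := mul_nonneg (bp_nonneg _ _ _) (bp_nonneg _ _ _)

theorem beta_le (x : E) : beta x ≤ 1 :=
  mul_le_one₀ (bp_le_one _ _ _) (bp_nonneg _ _ _) (bp_le_one _ _ _)

/-- The central direction. -/
noncomputable def e1 : E := ![0, 1, 0]

theorem e1_norm : ‖e1‖ ≤ 1 := by
  refine norm3 ?_ ?_ ?_ <;> simp [e1]

/-- The perturbing shear. -/
noncomputable def tau (t : ℝ) (x : E) : E := x + (t * beta x) • e1

theorem tau_cd (t : ℝ) : ContDiff ℝ ∞ (tau t) :=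
  contDiff_id.add ((contDiff_const.mul beta_cd).smul contDiff_const)

theorem tau0 (t : ℝ) (x : E) : tau t x 0 = x 0 := by simp [tau, e1]
theorem tau1 (t : ℝ) (x : E) : tau t x 1 = x 1 + t * beta x := by simp [tau, e1]
theorem tau2 (t : ℝ) (x : E) : tau t x 2 = x 2 := by simp [tau, e1]

theorem beta_tau (t : ℝ) (x : E) : beta (tau t x) = beta x := beta_congr (tau0 t x) (tau2 t x)

theorem tau_tau (t : ℝ) (x : E) : tau (-t) (tau t x) = x := by
  refine ext3 ?_ ?_ ?_
  · rw [tau0, tau0]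
  · rw [tau1, tau1, beta_tau]; ring
  · rw [tau2, tau2]

theorem tau_tau' (t : ℝ) (x : E) : tau t (tau (-t) x) = x := by
  have := tau_tau (-t) x
  rwa [neg_neg] at this

theorem tau_add (t : ℝ) (x l : E) (hl : l ∈ Ltc) : tau t (x + l) = tau t x + l := by
  unfold tau
  rw [beta_add hl]; abel

/-- The shear of the torus. -/
noncomputable def tH (t : ℝ) : MM ≃ₜ MM where
  toFun := desc (tau t) id (fun _ h => h) (fun x l hl => tau_add t x l hl)
  invFun := desc (tau (-t)) id (fun _ h => h) (fun x l hl => tau_add (-t) x l hl)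
  left_inv q := by
    obtain ⟨x, rfl⟩ := pr_surj q
    rw [desc_pr, desc_pr, tau_tau]
  right_inv q := by
    obtain ⟨x, rfl⟩ := pr_surj q
    rw [desc_pr, desc_pr, tau_tau']
  continuous_toFun := desc_cont _ _ _ _ (tau_cd t).continuous
  continuous_invFun := desc_cont _ _ _ _ (tau_cd (-t)).continuous

/-- The perturbation destroys the connections. -/
theorem NI_pert {S S' : Sys} {t : ℝ} (ht : t ≠ 0) (hG' : ∀ x, S'.G x = tau t (S.G x))
    (h : ¬ NI S) : NI S' := by
  unfold NI at h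
  push Not at h
  obtain ⟨q, hqU, hqC⟩ := h
  intro u' hu' hC'
  have hinv : ∀ x, S.G x = tau (-t) (S'.G x) := fun x => by rw [hG', tau_tau]
  have fixP : ∀ x : E, x ∈ OP → tau (-t) x = x := fun x hx => by
    unfold tau; rw [beta_P hx.2.2, mul_zero, zero_smul, add_zero]
  have fixQ : ∀ x : E, |x 2 - 1 / 2| < 1 / 8 → tau (-t) x = x := fun x hx => by
    unfold tau; rw [beta_Q hx, mul_zero, zero_smul, add_zero]
  -- the unstable manifolds
  have huU : tau (-t) u' ∈ UU S := by
    obtain ⟨s, rfl, hs⟩ := hu'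
    refine ⟨fun n => match n with
      | 0 => tau (-t) (s 0)
      | n + 1 => s (n + 1), rfl, fun n => ?_⟩
    cases n with
    | zero => exact ⟨(hs 0).1, by rw [hinv, (hs 0).2]⟩
    | succ n => exact ⟨(hs (n + 1)).1, by rw [hinv, (hs (n + 1)).2, fixP _ (hs n).1]⟩
  -- the stable manifolds
  have hVV : ∀ v ∈ VV S', v ∈ VV S := by
    rintro v ⟨s, rfl, hs⟩
    refine ⟨s, rfl, fun n => ⟨(hs n).1, ?_⟩⟩
    have h1 : S'.G (s n) = s (n + 1) + e0 := by
      rw [← (hs n).2]; unfold Sys.GQ; abel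
    have h2 : |(s (n + 1) + e0) 2 - 1 / 2| < 1 / 8 := by
      have : (s (n + 1) + e0) 2 = s (n + 1) 2 := by simp [e0]
      rw [this]
      exact (hs (n + 1)).1.2.2
    unfold Sys.GQ
    rw [hinv, h1, fixQ _ h2, add_sub_cancel_right]
  have hC : u' ∈ CC S := by
    refine ⟨hC'.1, ?_⟩
    rw [hinv, fixQ _ (VV_mem hC'.2).2.2]
    exact hVV _ hC'.2
  obtain ⟨a2, a1⟩ := CC_slope hC hqC
  obtain ⟨b0, b1⟩ := UU_slope huU hqU
  rw [tau0, tau2] at b0
  rw [tau1, tau2, beta_one hC'.1.1.le hC'.1.2.2.1.le] at b1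
  have n0 := abs_nonneg (u' 0 - q 0)
  have n2 := abs_nonneg (u' 2 - q 2)
  have z0 : |u' 0 - q 0| = 0 := by linarith
  have z2 : |u' 2 - q 2| = 0 := by linarith
  rw [z0, mul_zero] at a1
  rw [z2, mul_zero] at b1
  have c1 := abs_nonpos_iff.1 a1
  have c2 := abs_nonpos_iff.1 b1
  exact ht (by linarith)

/-- Derivatives of periodic functions are bounded. -/
theorem per_bound {w : E → E} (j : ℕ) (hw : ContDiff ℝ j w)
    (hp : ∀ x l, l ∈ Ltc → w (x + l) = w x) :
    ∃ C : ℝ, 0 ≤ C ∧ ∀ i ≤ j, ∀ x, ‖iteratedFDeriv ℝ i w x‖ ≤ C := by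
  have key : ∀ i ≤ j, ∃ C : ℝ, 0 ≤ C ∧ ∀ x, ‖iteratedFDeriv ℝ i w x‖ ≤ C := by
    intro i hi
    have hc : Continuous fun x => ‖iteratedFDeriv ℝ i w x‖ :=
      (hw.continuous_iteratedFDeriv (by exact_mod_cast hi)).norm
    obtain ⟨C, hC⟩ := (isCompact_Icc (a := (0 : E)) (b := 1)).bddAbove_image hc.continuousOn
    refine ⟨max C 0, le_max_right _ _, fun x => ?_⟩
    set l : E := ![-(⌊x 0⌋ : ℝ), -(⌊x 1⌋ : ℝ), -(⌊x 2⌋ : ℝ)] with hl
    have hlm : l ∈ Ltc := mem_Ltc (a := -⌊x 0⌋) (b := -⌊x 1⌋) (c := -⌊x 2⌋) (by simp [hl])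
      (by simp [hl]) (by simp [hl])
    have h1 : iteratedFDeriv ℝ i w x = iteratedFDeriv ℝ i w (x + l) := by
      rw [← iteratedFDeriv_comp_add_right]
      congr 1
      funext z
      exact (hp z l hlm).symm
    rw [h1]
    refine le_max_of_le_left (hC ⟨x + l, ⟨fun k => ?_, fun k => ?_⟩, rfl⟩)
    · fin_cases k
      · show (0 : ℝ) ≤ x 0 + -(⌊x 0⌋ : ℝ)
        linarith [Int.floor_le (x 0)]
      · show (0 : ℝ) ≤ x 1 + -(⌊x 1⌋ : ℝ)
        linarith [Int.floor_le (x 1)]
      · show (0 : ℝ) ≤ x 2 + -(⌊x 2⌋ : ℝ)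
        linarith [Int.floor_le (x 2)]
    · fin_cases k
      · show x 0 + -(⌊x 0⌋ : ℝ) ≤ 1
        linarith [Int.lt_floor_add_one (x 0)]
      · show x 1 + -(⌊x 1⌋ : ℝ) ≤ 1
        linarith [Int.lt_floor_add_one (x 1)]
      · show x 2 + -(⌊x 2⌋ : ℝ) ≤ 1
        linarith [Int.lt_floor_add_one (x 2)]
  choose! C hC0 hC using key
  refine ⟨∑ i ∈ Finset.range (j + 1), C i, Finset.sum_nonneg fun i hi =>
    hC0 i (Nat.lt_succ_iff.1 (Finset.mem_range.1 hi)), fun i hi x => ?_⟩
  exact (hC i hi x).trans (Finset.single_le_sum (f := C) (fun k hk =>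
    hC0 k (Nat.lt_succ_iff.1 (Finset.mem_range.1 hk))) (Finset.mem_range.2 (Nat.lt_succ_iff.2 hi)))

/-- Every lift is as smooth as the diffeomorphism. -/
theorem lift_smooth {r : ℕ∞} {g : MM → MM} {G : E → E} (hG : IsLift pr G g) (hc : Continuous G)
    (h : ∃ F : E → E, ContDiff ℝ r F ∧ IsLift pr F g) : ContDiff ℝ r G := by
  obtain ⟨F, hF, hFl⟩ := h
  obtain ⟨l, hl, e⟩ := lift_const hF.continuous hc (fun x => by rw [hFl, hG])
  have : G = fun x => F x + l := funext e
  rw [this]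
  exact hF.add contDiff_const

/-- Perturbation to a system without connections. -/
theorem exists_pert (S : Sys) (hδ : S.δ < 1 / 10000000) {g : MM ≃ₜ MM} (hG : IsLift pr S.G g)
    (hH : IsLift pr S.H g.symm) (hGc : Continuous S.G) (hHc : Continuous S.H) {r : ℕ∞}
    (hr : 1 ≤ r) (hg : IsDiffeo pr r g) (j : ℕ) (hj : (j : ℕ∞) ≤ r) {η : ℝ} (hη : 0 < η) :
    ∃ (S' : Sys) (g' : MM ≃ₜ MM), IsLift pr S'.G g' ∧ IsLift pr S'.H g'.symm ∧
      IsDiffeo pr r g' ∧ CkClose pr j η g g' ∧ NI S' := by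
  have sG : ContDiff ℝ r S.G := lift_smooth hG hGc hg.1
  have sH : ContDiff ℝ r S.H := lift_smooth hH hHc hg.2
  have toW : ∀ {k : ℕ}, (k : ℕ∞) ≤ r → ((k : ℕ) : WithTop ℕ∞) ≤ (r : WithTop ℕ∞) :=
    fun h => by exact_mod_cast h
  by_cases hN : NI S
  · refine ⟨S, g, hG, hH, hg, ⟨S.G, S.G, sG.of_le (toW hj), sG.of_le (toW hj), hG, hG,
      fun i hi z => ?_⟩, hN⟩
    have : (fun w => S.G w - S.G w) = fun _ => (0 : E) := funext fun w => sub_self _
    rw [this, iteratedFDeriv_fun_zero]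
    simpa using hη
  set J := max j 1 with hJ
  have hJr : (J : ℕ∞) ≤ r := by
    rcases le_total j 1 with h | h
    · rw [hJ, max_eq_right h]; exact_mod_cast hr
    · rw [hJ, max_eq_left h]; exact hj
  set w : E → E := fun x => beta (S.G x) • e1 with hw
  have hwr : ContDiff ℝ r w :=
    ((beta_cd.of_le (by exact_mod_cast le_top)).comp sG).smul contDiff_const
  have hwp : ∀ x l, l ∈ Ltc → w (x + l) = w x := fun x l hl => by
    rw [hw]; simp only
    rw [S.G_add x l hl, beta_add (AL_mem hl)]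
  obtain ⟨C, hC0, hC⟩ := per_bound J (hwr.of_le (toW hJr)) hwp
  set m := min η (1 / 10000000 - S.δ) with hm
  have hmpos : 0 < m := lt_min hη (by linarith)
  set t := m / (2 * (C + 2)) with ht
  have htpos : 0 < t := by positivity
  have htC : t * (1 + C) < m := by
    have h1 : t * (2 * (C + 2)) = m := by rw [ht]; field_simp
    nlinarith
  have hm1 : m ≤ η := min_le_left _ _
  have hm2 : m ≤ 1 / 10000000 - S.δ := min_le_right _ _
  have hGw : ∀ x, tau t (S.G x) = S.G x + t • w x := fun x => by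
    rw [hw]; simp only
    unfold tau
    rw [smul_smul]
  have hwlip : ∀ x y, ‖w x - w y‖ ≤ C * ‖x - y‖ := by
    intro x y
    have hd : ∀ z ∈ (univ : Set E), DifferentiableAt ℝ w z := fun z _ =>
      (hwr.differentiable (by
        have : ((1 : ℕ∞) : WithTop ℕ∞) ≤ (r : WithTop ℕ∞) := by exact_mod_cast hr
        intro h0
        rw [h0] at this
        norm_num at this)) z
    have hb : ∀ z ∈ (univ : Set E), ‖fderiv ℝ w z‖ ≤ C := fun z _ => by
      have := hC 1 (le_max_right _ _) z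
      rwa [norm_iteratedFDeriv_one] at this
    exact convex_univ.norm_image_sub_le_of_norm_fderiv_le hd hb (mem_univ y) (mem_univ x)
  have hwb : ∀ x, ‖w x‖ ≤ 1 := fun x => by
    rw [hw]; simp only
    rw [norm_smul, Real.norm_eq_abs, abs_of_nonneg (beta_nonneg _)]
    exact mul_le_one₀ (beta_le _) (norm_nonneg _) e1_norm
  have hts : ∀ v : E, ‖t • v‖ = t * ‖v‖ := fun v => by
    rw [norm_smul, Real.norm_eq_abs, abs_of_pos htpos]
  set S' : Sys :=
    { G := fun x => tau t (S.G x)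
      H := fun x => S.H (tau (-t) x)
      δ := S.δ + t * (1 + C)
      GH := fun x => by rw [S.GH, tau_tau']
      HG := fun x => by rw [tau_tau, S.HG]
      δ1 := by linarith
      bd := fun x => by
        rw [hGw, show S.G x + t • w x - FF x = (S.G x - FF x) + t • w x by abel]
        refine (norm_add_le _ _).trans ?_
        have h1 := S.bd x
        have h2 : ‖t • w x‖ ≤ t * (1 + C) := by
          rw [hts]
          exact mul_le_mul_of_nonneg_left (by linarith [hwb x]) htpos.le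
        linarith
      lip := fun x y => by
        rw [hGw, hGw, show S.G x + t • w x - FF x - (S.G y + t • w y - FF y) =
          ((S.G x - FF x) - (S.G y - FF y)) + t • (w x - w y) by rw [smul_sub]; abel]
        refine (norm_add_le _ _).trans ?_
        have h1 := S.lip x y
        have h2 : ‖t • (w x - w y)‖ ≤ t * (1 + C) * ‖x - y‖ := by
          rw [hts]
          have h3 := mul_le_mul_of_nonneg_left (hwlip x y) htpos.le
          have h4 : 0 ≤ t * ‖x - y‖ := by positivity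
          linarith
        linarith
      G_add := fun x l hl => by rw [S.G_add x l hl, tau_add t _ _ (AL_mem hl)] } with hS'
  set g' : MM ≃ₜ MM := g.trans (tH t) with hg'
  have hG' : IsLift pr S'.G g' := fun x => by
    show pr (tau t (S.G x)) = tH t (g (pr x))
    rw [← hG x]
    rfl
  have hH' : IsLift pr S'.H g'.symm := fun x => by
    show pr (S.H (tau (-t) x)) = g.symm ((tH t).symm (pr x))
    rw [hH]
    rfl
  have sG' : ContDiff ℝ r S'.G := ((tau_cd t).of_le (by exact_mod_cast le_top)).comp sG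
  have sH' : ContDiff ℝ r S'.H := sH.comp ((tau_cd (-t)).of_le (by exact_mod_cast le_top))
  refine ⟨S', g', hG', hH', ⟨⟨S'.G, sG', hG'⟩, ⟨S'.H, sH', hH'⟩⟩,
    ⟨S.G, S'.G, sG.of_le (toW hj), sG'.of_le (toW hj), hG, hG', fun i hi z => ?_⟩,
    NI_pert htpos.ne' (fun _ => rfl) hN⟩
  have h1 : (fun x => S'.G x - S.G x) = t • w := by
    funext x
    show tau t (S.G x) - S.G x = t • w x
    rw [hGw, add_sub_cancel_left]
  have hiJ : i ≤ J := hi.trans (le_max_left _ _)
  rw [h1, iteratedFDeriv_const_smul_apply ((hwr.of_le (toW (le_trans (by exact_mod_cast hiJ)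
    hJr))).contDiffAt), norm_smul, Real.norm_eq_abs, abs_of_pos htpos]
  have h2 := mul_le_mul_of_nonneg_left (hC i hiJ z) htpos.le
  linarith

end Pool.Agent.TH290.FC
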