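import Pool.Agent.TH290.FC.Slope

set_option autoImplicit false

/-! # The trapping and the repelling region -/

open Set Filter Topology Real
open scoped ContDiff

namespace Pool.Agent.TH290.FC

/-- The distance to the nearest integer. -/
noncomputable def nz (t : ℝ) : ℝ := ‖(t : UnitAddCircle)‖

theorem nz_eq (t : ℝ) : nz t = |t - round t| := UnitAddCircle.norm_eq

theorem nz_le_int (t : ℝ) (k : ℤ) : nz t ≤ |t - k| := by rw [nz_eq]; exact round_le t k

theorem nz_le_abs (t : ℝ) : nz t ≤ |t| := by simpa using nz_le_int t 0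

theorem nz_add_int (t : ℝ) (k : ℤ) : nz (t + k) = nz t := by
  rw [nz_eq, nz_eq, round_add_intCast]
  push_cast
  congr 1; ring

theorem nz_cont : Continuous nz := by
  unfold nz
  exact continuous_norm.comp (AddCircle.continuous_mk' 1)

theorem nz_exists (t : ℝ) : ∃ k : ℤ, |t - k| = nz t := ⟨round t, (nz_eq t).symm⟩

theorem nz_half (t : ℝ) : nz t ≤ 1 / 2 := by rw [nz_eq]; exact abs_sub_round t

theorem nz_add_le (a b : ℝ) : nz (a + b) ≤ nz a + |b| := by
  obtain ⟨k, hk⟩ := nz_exists a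
  rw [← hk]
  refine (nz_le_int _ k).trans ?_
  rw [show a + b - k = (a - k) + b by ring]
  exact abs_add_le _ _

theorem nz_neg (t : ℝ) : nz (-t) = nz t := by
  have h : ∀ s : ℝ, nz (-s) ≤ nz s := fun s => by
    obtain ⟨k, hk⟩ := nz_exists s
    rw [← hk]
    refine (nz_le_int _ (-k)).trans ?_
    push_cast
    rw [show -s - -(k : ℝ) = -(s - k) by ring, abs_neg]
  refine le_antisymm (h t) ?_
  have := h (-t)
  rwa [neg_neg] at this

theorem nz_lower {t a : ℝ} (h : a ≤ |t|) (h' : |t| ≤ 1 - a) : a ≤ nz t := by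
  obtain ⟨k, hk⟩ := nz_exists t
  rw [← hk]
  by_cases h0 : k = 0
  · rw [h0]; simpa using h
  · have h1 : (1 : ℝ) ≤ |(k : ℝ)| := by exact_mod_cast Int.one_le_abs h0
    have h2 := abs_sub_abs_le_abs_sub (k : ℝ) t
    rw [abs_sub_comm]
    linarith

/-- The attracting region. -/
def inA (x : E) : Prop := nz (x 2 - 1 / 2) ≤ 1 / 16 ∧ (nz (x 0) ≤ 1 / 8 ∨ nz (x 1 - 1 / 2) ≤ 1 / 8)
/-- Its interior. -/
def inA' (x : E) : Prop := nz (x 2 - 1 / 2) < 1 / 16 ∧ (nz (x 0) < 1 / 8 ∨ nz (x 1 - 1 / 2) < 1 / 8)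
/-- The repelling region. -/
def inR (x : E) : Prop := nz (x 2) ≤ 1 / 16 ∧ (nz (x 0 - 1 / 2) ≤ 1 / 8 ∨ nz (x 1 - 1 / 2) ≤ 1 / 8)
/-- Its interior. -/
def inR' (x : E) : Prop := nz (x 2) < 1 / 16 ∧ (nz (x 0 - 1 / 2) < 1 / 8 ∨ nz (x 1 - 1 / 2) < 1 / 8)

theorem inA'.le {x : E} (h : inA' x) : inA x := ⟨h.1.le, h.2.imp le_of_lt le_of_lt⟩
theorem inR'.le {x : E} (h : inR' x) : inR x := ⟨h.1.le, h.2.imp le_of_lt le_of_lt⟩

theorem sub_half (t : ℝ) (k : ℤ) : nz (t + k - 1 / 2) = nz (t - 1 / 2) := by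
  rw [show t + (k : ℝ) - 1 / 2 = t - 1 / 2 + k by ring, nz_add_int]

theorem inA_add {x l : E} (hl : l ∈ Ltc) : inA (x + l) ↔ inA x := by
  obtain ⟨a, b, c, h0, h1, h2⟩ := Lint hl
  simp only [inA, Pi.add_apply, h0, h1, h2, sub_half, nz_add_int]
theorem inA'_add {x l : E} (hl : l ∈ Ltc) : inA' (x + l) ↔ inA' x := by
  obtain ⟨a, b, c, h0, h1, h2⟩ := Lint hl
  simp only [inA', Pi.add_apply, h0, h1, h2, sub_half, nz_add_int]
theorem inR_add {x l : E} (hl : l ∈ Ltc) : inR (x + l) ↔ inR x := by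
  obtain ⟨a, b, c, h0, h1, h2⟩ := Lint hl
  simp only [inR, Pi.add_apply, h0, h1, h2, sub_half, nz_add_int]
theorem inR'_add {x l : E} (hl : l ∈ Ltc) : inR' (x + l) ↔ inR' x := by
  obtain ⟨a, b, c, h0, h1, h2⟩ := Lint hl
  simp only [inR', Pi.add_apply, h0, h1, h2, sub_half, nz_add_int]

/-! ### One-dimensional facts in terms of `nz` -/

theorem ps_farz {x : ℝ} (h : 1 / 100 ≤ nz x) : nz (ps x - 1 / 2) ≤ 3 / 100 := by
  have h1 := Int.floor_le x
  have h2 := Int.lt_floor_add_one x
  have h3 := nz_le_int x ⌊x⌋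
  have h4 := nz_le_int x (⌊x⌋ + 1)
  push_cast at h4
  rw [abs_of_nonneg (by linarith)] at h3
  rw [abs_of_nonpos (by linarith)] at h4
  have h5 := ps_far (z := x - ⌊x⌋) (by linarith) (by linarith)
  have h6 := ps_add_int (x - ⌊x⌋) ⌊x⌋
  rw [sub_add_cancel] at h6
  rw [h6, sub_half]
  exact (nz_le_abs _).trans h5

theorem gx_farz {x : ℝ} (h : 1 / 100 ≤ nz (x - 1 / 2)) : nz (gx x) ≤ 3 / 100 := by
  have := ps_farz h
  unfold gx
  rw [show 1 / 2 + ps (x - 1 / 2) = ps (x - 1 / 2) - 1 / 2 + ((1 : ℤ) : ℝ) by push_cast; ring,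
    nz_add_int]
  exact this

theorem th_far {x : ℝ} (h : 1 / 8 ≤ nz (x - 1 / 2)) : th x = -1 := by
  obtain ⟨k, hk⟩ := nz_exists (x - 1 / 2)
  have h1 := nz_half (x - 1 / 2)
  rw [← hk] at h h1
  have h2 := bp_add_int (1 / 16) (1 / 8) (x - 1 / 2 - k) k
  rw [sub_add_cancel] at h2
  unfold th
  rw [h2]
  rcases abs_cases (x - 1 / 2 - (k : ℝ)) with ⟨h3, h4⟩ | ⟨h3, h4⟩
  · rw [bp_zero (by norm_num) (by norm_num) (by norm_num) (by linarith) (by linarith)]; ring
  · rw [bp_zero' (by norm_num) (by norm_num) (by norm_num) (by linarith) (by linarith)]; ring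

theorem bu_xz {x c : ℝ} (h : nz (x - 1 / 2) ≤ 7 / 32) : bu x c = 0 := by
  obtain ⟨k, hk⟩ := nz_exists (x - 1 / 2)
  rw [← hk, abs_le] at h
  have h2 := bu_int (x - k) c k 0
  push_cast at h2
  rw [sub_add_cancel, add_zero] at h2
  rw [h2]
  exact bu_x' (by linarith) (by linarith)

section
variable (S : Sys)

/-- General form of the third coordinate. -/
theorem G2 (x : E) : S.G x 2 = ps (x 2 + 1 / 2 * bu (x 0) (x 1)) + S.p x 2 := by
  rw [S.G_eq]; rfl
theorem G0 (x : E) :
    S.G x 0 = gx (x 0 + aa (x 2 + 1 / 2 * bu (x 0) (x 1))) + S.p x 0 := by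
  rw [S.G_eq]; rfl
theorem G1 (x : E) : S.G x 1 = x 1 + th (x 0 + aa (x 2 + 1 / 2 * bu (x 0) (x 1))) * hh (x 1) +
    S.p x 1 := by
  rw [S.G_eq]; rfl

variable {S}

theorem G2' {x : E} (h : bu (x 0) (x 1) = 0) : S.G x 2 = ps (x 2) + S.p x 2 := by
  rw [G2, h, mul_zero, add_zero]
theorem G0' {x : E} (h : bu (x 0) (x 1) = 0) : S.G x 0 = gx (x 0 + aa (x 2)) + S.p x 0 := by
  rw [G0, h, mul_zero, add_zero]
theorem G1' {x : E} (h : bu (x 0) (x 1) = 0) :
    S.G x 1 = x 1 + th (x 0 + aa (x 2)) * hh (x 1) + S.p x 1 := by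
  rw [G1, h, mul_zero, add_zero]

theorem gx_add_one (x : ℝ) : gx (x + 1) = gx x + 1 := by simpa using gx_add_int x 1
theorem th_add_one (x : ℝ) : th (x + 1) = th x := by simpa using th_add_int x 1

/-- The attracting region is mapped into its interior. -/
theorem trapA {x : E} (h : inA x) : inA' (S.G x) := by
  obtain ⟨h2, h01⟩ := h
  obtain ⟨k, hk⟩ := nz_exists (x 2 - 1 / 2)
  rw [← hk] at h2
  rcases h01 with h0 | h1
  · obtain ⟨a, ha⟩ := nz_exists (x 0)
    rw [← ha] at h0
    set l : E := ![-(a : ℝ), 0, -(k : ℝ)] with hl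
    have hlm : l ∈ Ltc := mem_Ltc (a := -a) (b := 0) (c := -k) (by simp [hl]) (by simp [hl])
      (by simp [hl])
    rw [← inA'_add (AL_mem hlm), ← S.G_add _ _ hlm]
    set y := x + l with hy
    have y0 : |y 0| ≤ 1 / 8 := by
      have : y 0 = x 0 - a := by
        show x 0 + -(a : ℝ) = _
        ring
      rw [this]; exact h0
    have y2 : |y 2 - 1 / 2| ≤ 1 / 16 := by
      have : y 2 - 1 / 2 = x 2 - 1 / 2 - k := by
        show x 2 + -(k : ℝ) - 1 / 2 = _
        ring
      rw [this]; exact h2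
    have y0' := abs_le.1 y0
    have y2' := abs_le.1 y2
    have hb : bu (y 0) (y 1) = 0 := bu_x (by linarith) (by linarith)
    have p0 := abs_le.1 (S.pb y 0)
    have p2 := abs_le.1 (S.pb y 2)
    constructor
    · refine (nz_le_abs _).trans_lt ?_
      rw [G2' hb, ps_top (by linarith) (by linarith), abs_lt]
      constructor <;> linarith
    · left
      refine (nz_le_int _ 1).trans_lt ?_
      rw [G0' hb, aa_one (by linarith) (by linarith), gx_add_one, gx_small (by linarith), abs_lt]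
      push_cast
      constructor <;> linarith
  · obtain ⟨b, hb'⟩ := nz_exists (x 1 - 1 / 2)
    rw [← hb'] at h1
    set l : E := ![-(⌊x 0⌋ : ℝ), -(b : ℝ), -(k : ℝ)] with hl
    have hlm : l ∈ Ltc := mem_Ltc (a := -⌊x 0⌋) (b := -b) (c := -k) (by simp [hl])
      (by simp [hl]) (by simp [hl])
    rw [← inA'_add (AL_mem hlm), ← S.G_add _ _ hlm]
    set y := x + l with hy
    have y0 : 0 ≤ y 0 := by
      have : y 0 = x 0 - ⌊x 0⌋ := by
        show x 0 + -(⌊x 0⌋ : ℝ) = _
        ring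
      rw [this]; linarith [Int.floor_le (x 0)]
    have y0' : y 0 ≤ 1 := by
      have : y 0 = x 0 - ⌊x 0⌋ := by
        show x 0 + -(⌊x 0⌋ : ℝ) = _
        ring
      rw [this]; linarith [(Int.lt_floor_add_one (x 0)).le]
    have y1 : |y 1 - 1 / 2| ≤ 1 / 8 := by
      have : y 1 - 1 / 2 = x 1 - 1 / 2 - b := by
        show x 1 + -(b : ℝ) - 1 / 2 = _
        ring
      rw [this]; exact h1
    have y2 : |y 2 - 1 / 2| ≤ 1 / 16 := by
      have : y 2 - 1 / 2 = x 2 - 1 / 2 - k := by
        show x 2 + -(k : ℝ) - 1 / 2 = _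
        ring
      rw [this]; exact h2
    have y1' := abs_le.1 y1
    have y2' := abs_le.1 y2
    have hb : bu (y 0) (y 1) = 0 := bu_c (by linarith) (by linarith)
    have p0 := abs_le.1 (S.pb y 0)
    have p1 := abs_le.1 (S.pb y 1)
    have p2 := abs_le.1 (S.pb y 2)
    constructor
    · refine (nz_le_abs _).trans_lt ?_
      rw [G2' hb, ps_top (by linarith) (by linarith), abs_lt]
      constructor <;> linarith
    · rcases le_total |y 0 - 1 / 2| (1 / 16) with h | h
      · right
        refine (nz_le_abs _).trans_lt ?_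
        have a1 := A2_lo
        have a2 := A2_hi
        rw [G1' hb, aa_one (by linarith) (by linarith), th_add_one, th_one h,
          hh_top (by linarith) (by linarith), abs_lt]
        constructor <;> nlinarith
      · left
        rcases abs_cases (y 0 - 1 / 2) with ⟨h3, h4⟩ | ⟨h3, h4⟩
        · refine (nz_le_int _ 2).trans_lt ?_
          have := gx_add_one (y 0 - 1)
          rw [sub_add_cancel] at this
          rw [G0' hb, aa_one (by linarith) (by linarith), gx_add_one, this,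
            gx_small (by rw [abs_le]; constructor <;> linarith), abs_lt]
          push_cast
          constructor <;> linarith
        · refine (nz_le_int _ 1).trans_lt ?_
          rw [G0' hb, aa_one (by linarith) (by linarith), gx_add_one,
            gx_small (by rw [abs_le]; constructor <;> linarith), abs_lt]
          push_cast
          constructor <;> linarith

/-- The preimage of the repelling region is contained in its interior. -/
theorem trapR {x : E} (h : inR (S.G x)) : inR' x := by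
  obtain ⟨h2, h01⟩ := h
  rw [G2] at h2
  obtain ⟨k, hk⟩ := nz_exists (ps (x 2 + 1 / 2 * bu (x 0) (x 1)) + S.p x 2)
  rw [← hk] at h2
  set Z := x 2 + 1 / 2 * bu (x 0) (x 1) with hZ
  have p0 := abs_le.1 (S.pb x 0)
  have p1 := abs_le.1 (S.pb x 1)
  have p2 := abs_le.1 (S.pb x 2)
  have e1 : ps (Z - k) = ps Z - k := by
    have := ps_add_int (Z - k) k
    rw [sub_add_cancel] at this
    linarith
  have h3 : |ps (Z - k)| ≤ 1 / 15 := by
    rw [abs_le] at h2 ⊢
    rw [e1]
    constructor <;> linarith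
  obtain ⟨h4, h5⟩ := ps_near (h3.trans_lt (by norm_num))
  have h4' := abs_lt.1 h4
  have haa : aa Z = k := by
    have := aa_add_int (Z - k) k
    rw [sub_add_cancel] at this
    rw [this, aa_zero (by linarith) (by linarith), zero_add]
  -- conclusion from the vanishing of the bump
  have key : bu (x 0) (x 1) = 0 → (nz (x 0 - 1 / 2) < 1 / 8 ∨ nz (x 1 - 1 / 2) < 1 / 8) →
      inR' x := by
    intro hb h
    have : Z = x 2 := by rw [hZ, hb]; ring
    rw [this] at h4
    exact ⟨(nz_le_int _ k).trans_lt (by linarith), h⟩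
  rcases h01 with h0 | h1
  · have h6 : nz (gx (x 0) - 1 / 2) ≤ 1 / 7 := by
      rw [G0, ← hZ, haa, gx_add_int] at h0
      have e2 : gx (x 0) - 1 / 2 = (gx (x 0) + k + S.p x 0 - 1 / 2 + ((-k : ℤ) : ℝ)) +
          (-S.p x 0) := by push_cast; ring
      rw [e2]
      refine (nz_add_le _ _).trans ?_
      rw [nz_add_int, abs_neg]
      have := S.pb x 0
      linarith
    have h7 : nz (x 0 - 1 / 2) < 1 / 100 := by
      by_contra hc
      push Not at hc
      have h8 := gx_farz hc
      obtain ⟨j, hj⟩ := nz_exists (gx (x 0))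
      rw [← hj, abs_le] at h8
      have h9 : (47 / 100 : ℝ) ≤ nz (gx (x 0) - 1 / 2) := by
        have : nz (gx (x 0) - 1 / 2) = nz (gx (x 0) - j - 1 / 2) := by
          have := sub_half (gx (x 0) - j) j
          rw [sub_add_cancel] at this
          exact this
        rw [this]
        apply nz_lower
        · rw [abs_of_nonpos (by linarith)]; linarith
        · rw [abs_of_nonpos (by linarith)]; linarith
      linarith
    exact key (bu_xz (by linarith)) (Or.inl (by linarith))
  · by_cases h8 : nz (x 0 - 1 / 2) < 1 / 8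
    · exact key (bu_xz (by linarith)) (Or.inl h8)
    push Not at h8
    rw [G1, ← hZ, haa, th_add_int, th_far h8] at h1
    obtain ⟨m, hm⟩ := nz_exists (x 1 + -1 * hh (x 1) + S.p x 1 - 1 / 2)
    rw [← hm, abs_le] at h1
    have e2 : hh (x 1) = hh (x 1 - m) := by
      have := hh_add_int (x 1 - m) m
      rw [sub_add_cancel] at this
      exact this
    set c := x 1 - m with hc
    have a1 := A2_lo
    have f1 : c + -1 * hh c ≤ 5 / 8 + 1 / 10000000 := by rw [← e2]; linarith
    have f2 : 3 / 8 - 1 / 10000000 ≤ c + -1 * hh c := by rw [← e2]; linarith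
    have hmon := cm_strictMono (t := -1) (by norm_num)
    have c1 : 3 / 8 < c := by
      by_contra h
      push Not at h
      have h9 := hmon.monotone h
      rw [hh_top (c := 3 / 8) (by norm_num) (by norm_num)] at h9
      nlinarith
    have c2 : c < 5 / 8 := by
      by_contra h
      push Not at h
      have h9 := hmon.monotone h
      rw [hh_top (c := 5 / 8) (by norm_num) (by norm_num)] at h9
      nlinarith
    refine key ?_ (Or.inr ?_)
    · have := bu_int (x 0) c 0 m
      push_cast at this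
      rw [add_zero, hc, sub_add_cancel, ← hc] at this
      rw [this]
      exact bu_c (by linarith) (by linarith)
    · refine (nz_le_int _ m).trans_lt ?_
      rw [show x 1 - 1 / 2 - (m : ℝ) = c - 1 / 2 by rw [hc]; ring, abs_lt]
      constructor <;> linarith

end

/-- The forward orbit reaches the attracting region. -/
def RA (S : Sys) (x : E) : Prop := ∃ n : ℕ, inA (S.G^[n] x)
/-- The backward orbit reaches the repelling region. -/
def RR (S : Sys) (x : E) : Prop := ∃ n : ℕ, inR (S.H^[n] x)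

section
variable {S : Sys}

theorem G_iter_add (n : ℕ) (x l : E) (hl : l ∈ Ltc) :
    ∃ l' ∈ Ltc, S.G^[n] (x + l) = S.G^[n] x + l' := by
  induction n with
  | zero => exact ⟨l, hl, rfl⟩
  | succ n ih =>
    obtain ⟨l', hl', h⟩ := ih
    refine ⟨AL l', AL_mem hl', ?_⟩
    rw [Function.iterate_succ_apply', Function.iterate_succ_apply', h, S.G_add _ _ hl']

theorem H_iter_add (n : ℕ) (x l : E) (hl : l ∈ Ltc) :
    ∃ l' ∈ Ltc, S.H^[n] (x + l) = S.H^[n] x + l' := by
  induction n with
  | zero => exact ⟨l, hl, rfl⟩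
  | succ n ih =>
    obtain ⟨l', hl', h⟩ := ih
    refine ⟨AI l', AI_mem hl', ?_⟩
    rw [Function.iterate_succ_apply', Function.iterate_succ_apply', h, S.H_add _ _ hl']

theorem RA_add {x l : E} (hl : l ∈ Ltc) (h : RA S (x + l)) : RA S x := by
  obtain ⟨n, hn⟩ := h
  obtain ⟨l', hl', e⟩ := G_iter_add (S := S) n x l hl
  rw [e, inA_add hl'] at hn
  exact ⟨n, hn⟩

theorem RR_add {x l : E} (hl : l ∈ Ltc) (h : RR S (x + l)) : RR S x := by
  obtain ⟨n, hn⟩ := h
  obtain ⟨l', hl', e⟩ := H_iter_add (S := S) n x l hl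
  rw [e, inR_add hl'] at hn
  exact ⟨n, hn⟩

theorem RA_G {x : E} (h : RA S (S.G x)) : RA S x := by
  obtain ⟨n, hn⟩ := h
  exact ⟨n + 1, by rwa [Function.iterate_succ_apply]⟩

theorem RR_H {x : E} (h : RR S (S.H x)) : RR S x := by
  obtain ⟨n, hn⟩ := h
  exact ⟨n + 1, by rwa [Function.iterate_succ_apply]⟩

theorem RA_GQ {x : E} (h : RA S (S.GQ x)) : RA S x := by
  refine RA_G (RA_add (l := -e0) (Ltc.neg_mem e0_mem) ?_)
  rwa [← sub_eq_add_neg]

theorem RA_of {x : E} (h : inA x) : RA S x := ⟨0, h⟩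
theorem RR_of {x : E} (h : inR x) : RR S x := ⟨0, h⟩

end

end Pool.Agent.TH290.FC
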