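import Pool.Agent.TH290.FC.Sys

set_option autoImplicit false

/-! # Slopes of the local invariant manifolds and the dichotomy -/

open Set Filter Topology Real
open scoped ContDiff

namespace Pool.Agent.TH290.FC

variable {S : Sys}

theorem OP_diff {x y : E} (hx : x ∈ OP) (hy : y ∈ OP) : ‖x - y‖ ≤ 1 := by
  obtain ⟨a0, a1, a2⟩ := hx
  obtain ⟨b0, b1, b2⟩ := hy
  rw [abs_lt] at a0 a1 a2 b0 b1 b2
  refine norm3 ?_ ?_ ?_ <;> rw [Pi.sub_apply, abs_le] <;> constructor <;> linarith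

theorem OQ_diff {x y : E} (hx : x ∈ OQ) (hy : y ∈ OQ) : ‖x - y‖ ≤ 1 := by
  obtain ⟨a0, a1, a2⟩ := hx
  obtain ⟨b0, b1, b2⟩ := hy
  rw [abs_lt] at a0 a1 a2 b0 b1 b2
  refine norm3 ?_ ?_ ?_ <;> rw [Pi.sub_apply, abs_le] <;> constructor <;> linarith

/-- The differences of backward orbits in the first zone lie in a thin cone. -/
theorem UU_slope {u w : E} (hu : u ∈ UU S) (hw : w ∈ UU S) :
    |u 0 - w 0| ≤ 1 / 10000000 * |u 2 - w 2| ∧ |u 1 - w 1| ≤ 1 / 10000000 * |u 2 - w 2| := by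
  obtain ⟨s, rfl, hs⟩ := hu
  obtain ⟨r, rfl, hr⟩ := hw
  set v : ℕ → E := fun n => s n - r n with hv
  have hk := kp_lo
  have hrel : ∀ n, Rel (fun i => ZP.e i) (2 / 3) (v n) (v (n + 1)) := fun n => by
    have h1 := (relP S (hs n).1 (hr n).1).rev
    rw [(hs n).2, (hr n).2] at h1
    simpa using h1
  have hbd : ∀ n, ‖v n‖ ≤ max ‖v 0‖ 1 := fun n => by
    cases n with
    | zero => exact le_max_left _ _
    | succ n => exact (OP_diff (hs n).1 (hr n).1).trans (le_max_right _ _)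
  have hcone : ∀ n i, ZP.e i = false → |v n i| ≤ 2 / 3 * |v n 2| := fun n i hi =>
    fwd_cone (c := fun i => ZP.e i) (by norm_num) (by norm_num) (abs_nonneg _)
      (fun k => v (n + k)) (fun k => hrel (n + k)) (fun k => hbd (n + k))
      (fun j hj => by
        fin_cases j
        · simp [ZP] at hj
        · simp [ZP] at hj
        · exact le_rfl) 0 i hi
  have eqs : ∀ n, v n 0 = 1 / 100 * v (n + 1) 0 + (S.p (s (n + 1)) 0 - S.p (r (n + 1)) 0) ∧
      v n 1 = 2 / 5 * v (n + 1) 1 + (S.p (s (n + 1)) 1 - S.p (r (n + 1)) 1) ∧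
      v n 2 = kp * v (n + 1) 2 + (S.p (s (n + 1)) 2 - S.p (r (n + 1)) 2) := fun n => by
    simp only [hv, Pi.sub_apply]
    have e1 := congrFun (hs n).2
    have e2 := congrFun (hr n).2
    rw [← e1 0, ← e1 1, ← e1 2, ← e2 0, ← e2 1, ← e2 2, Sys.GP0 (hs n).1, Sys.GP1 (hs n).1,
      Sys.GP2 (hs n).1, Sys.GP0 (hr n).1, Sys.GP1 (hr n).1, Sys.GP2 (hr n).1]
    refine ⟨by ring, by ring, by ring⟩
  have step : ∀ ρ : ℝ, 0 ≤ ρ → ρ ≤ 1 →
      (∀ n, |v n 0| ≤ ρ * |v n 2| ∧ |v n 1| ≤ ρ * |v n 2|) →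
      ∀ n, |v n 0| ≤ (2 / 5 * ρ + 1 / 10000000) / 46 * |v n 2| ∧
        |v n 1| ≤ (2 / 5 * ρ + 1 / 10000000) / 46 * |v n 2| := by
    intro ρ h0 h1 h n
    obtain ⟨ha, hb⟩ := h (n + 1)
    obtain ⟨e0, e1, e2⟩ := eqs n
    have hz := abs_nonneg (v (n + 1) 2)
    have hnorm : ‖v (n + 1)‖ ≤ |v (n + 1) 2| :=
      norm3 (ha.trans (by nlinarith)) (hb.trans (by nlinarith)) le_rfl
    have p0 := S.pl (s (n + 1)) (r (n + 1)) 0
    have p1 := S.pl (s (n + 1)) (r (n + 1)) 1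
    have p2 := S.pl (s (n + 1)) (r (n + 1)) 2
    have hn2 : ‖s (n + 1) - r (n + 1)‖ ≤ |v (n + 1) 2| := hnorm
    have l0 : |v n 0| ≤ 1 / 100 * |v (n + 1) 0| + |S.p (s (n + 1)) 0 - S.p (r (n + 1)) 0| := by
      rw [e0]; refine (abs_add_le _ _).trans ?_
      rw [abs_mul, abs_of_pos (by norm_num : (0 : ℝ) < 1 / 100)]
    have l1 : |v n 1| ≤ 2 / 5 * |v (n + 1) 1| + |S.p (s (n + 1)) 1 - S.p (r (n + 1)) 1| := by
      rw [e1]; refine (abs_add_le _ _).trans ?_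
      rw [abs_mul, abs_of_pos (by norm_num : (0 : ℝ) < 2 / 5)]
    have l2 : kp * |v (n + 1) 2| ≤ |v n 2| + |S.p (s (n + 1)) 2 - S.p (r (n + 1)) 2| := by
      have : kp * |v (n + 1) 2| = |v n 2 - (S.p (s (n + 1)) 2 - S.p (r (n + 1)) 2)| := by
        rw [e2, add_sub_cancel_right, abs_mul, abs_of_pos kp_pos]
      rw [this]; exact abs_sub _ _
    have l3 : 46 * |v (n + 1) 2| ≤ |v n 2| := by nlinarith
    have l4 : 0 ≤ (2 / 5 * ρ + 1 / 10000000) / 46 := by positivity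
    have l5 : (2 / 5 * ρ + 1 / 10000000) * |v (n + 1) 2| ≤
        (2 / 5 * ρ + 1 / 10000000) / 46 * |v n 2| := by
      have := mul_le_mul_of_nonneg_left l3 l4
      linarith
    constructor
    · refine le_trans ?_ l5
      nlinarith
    · refine le_trans ?_ l5
      nlinarith
  have s0 : ∀ n, |v n 0| ≤ 2 / 3 * |v n 2| ∧ |v n 1| ≤ 2 / 3 * |v n 2| :=
    fun n => ⟨hcone n 0 rfl, hcone n 1 rfl⟩
  have mono : ∀ ρ ρ' : ℝ, ρ ≤ ρ' → (∀ n, |v n 0| ≤ ρ * |v n 2| ∧ |v n 1| ≤ ρ * |v n 2|) →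
      ∀ n, |v n 0| ≤ ρ' * |v n 2| ∧ |v n 1| ≤ ρ' * |v n 2| := fun ρ ρ' h H n => by
    have := mul_le_mul_of_nonneg_right h (abs_nonneg (v n 2))
    exact ⟨(H n).1.trans this, (H n).2.trans this⟩
  have s1 := mono _ (1 / 160) (by norm_num) (step _ (by norm_num) (by norm_num) s0)
  have s2 := mono _ (1 / 18000) (by norm_num) (step _ (by norm_num) (by norm_num) s1)
  have s3 := mono _ (1 / 1800000) (by norm_num) (step _ (by norm_num) (by norm_num) s2)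
  have s4 := mono _ (1 / 10000000) (by norm_num) (step _ (by norm_num) (by norm_num) s3)
  exact s4 0

/-- The differences of forward orbits in the second zone lie in a thin cone. -/
theorem VV_slope {u w : E} (hu : u ∈ VV S) (hw : w ∈ VV S) :
    |u 0 - w 0| ≤ 1 / 10000000 * |u 2 - w 2| ∧ |u 1 - w 1| ≤ 1 / 10000000 * |u 2 - w 2| := by
  obtain ⟨s, rfl, hs⟩ := hu
  obtain ⟨r, rfl, hr⟩ := hw
  set v : ℕ → E := fun n => s n - r n with hv
  have hk := kp_lo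
  have hrel : ∀ n, Rel (fun i => !ZQ.e i) (2 / 3) (v n) (v (n + 1)) := fun n => by
    have h1 := (relQ S (hs n).1 (hr n).1)
    rw [(hs n).2, (hr n).2] at h1
    exact h1
  have hbd : ∀ n, ‖v n‖ ≤ 1 := fun n => OQ_diff (hs n).1 (hr n).1
  have hcone : ∀ n i, (!ZQ.e i) = false → |v n i| ≤ 2 / 3 * |v n 2| := fun n i hi =>
    fwd_cone (c := fun i => !ZQ.e i) (by norm_num) (by norm_num) (abs_nonneg _)
      (fun k => v (n + k)) (fun k => hrel (n + k)) (fun k => hbd (n + k))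
      (fun j hj => by
        fin_cases j
        · simp [ZQ] at hj
        · simp [ZQ] at hj
        · exact le_rfl) 0 i hi
  have eqs : ∀ n, v (n + 1) 0 = kp * v n 0 + (S.p (s n) 0 - S.p (r n) 0) ∧
      v (n + 1) 1 = 8 / 5 * v n 1 + (S.p (s n) 1 - S.p (r n) 1) ∧
      v (n + 1) 2 = 1 / 100 * v n 2 + (S.p (s n) 2 - S.p (r n) 2) := fun n => by
    simp only [hv, Pi.sub_apply]
    have e1 := congrFun (hs n).2
    have e2 := congrFun (hr n).2
    rw [← e1 0, ← e1 1, ← e1 2, ← e2 0, ← e2 1, ← e2 2, Sys.QG0 (hs n).1, Sys.QG1 (hs n).1,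
      Sys.QG2 (hs n).1, Sys.QG0 (hr n).1, Sys.QG1 (hr n).1, Sys.QG2 (hr n).1]
    refine ⟨by ring, by ring, by ring⟩
  have step : ∀ ρ : ℝ, 0 ≤ ρ → ρ ≤ 1 →
      (∀ n, |v n 0| ≤ ρ * |v n 2| ∧ |v n 1| ≤ ρ * |v n 2|) →
      ∀ n, |v n 0| ≤ (1 / 90 * ρ + 1 / 10000000) * (5 / 8) * |v n 2| ∧
        |v n 1| ≤ (1 / 90 * ρ + 1 / 10000000) * (5 / 8) * |v n 2| := by
    intro ρ h0 h1 h n
    obtain ⟨ha, hb⟩ := h n
    obtain ⟨ha', hb'⟩ := h (n + 1)
    obtain ⟨e0, e1, e2⟩ := eqs n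
    have hz := abs_nonneg (v n 2)
    have hnorm : ‖v n‖ ≤ |v n 2| :=
      norm3 (ha.trans (by nlinarith)) (hb.trans (by nlinarith)) le_rfl
    have p0 := S.pl (s n) (r n) 0
    have p1 := S.pl (s n) (r n) 1
    have p2 := S.pl (s n) (r n) 2
    have hn2 : ‖s n - r n‖ ≤ |v n 2| := hnorm
    have l2 : |v (n + 1) 2| ≤ 1 / 100 * |v n 2| + |S.p (s n) 2 - S.p (r n) 2| := by
      rw [e2]; refine (abs_add_le _ _).trans ?_
      rw [abs_mul, abs_of_pos (by norm_num : (0 : ℝ) < 1 / 100)]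
    have l3 : |v (n + 1) 2| ≤ 1 / 90 * |v n 2| := by linarith
    have l0 : kp * |v n 0| ≤ |v (n + 1) 0| + |S.p (s n) 0 - S.p (r n) 0| := by
      have : kp * |v n 0| = |v (n + 1) 0 - (S.p (s n) 0 - S.p (r n) 0)| := by
        rw [e0, add_sub_cancel_right, abs_mul, abs_of_pos kp_pos]
      rw [this]; exact abs_sub _ _
    have l1 : 8 / 5 * |v n 1| ≤ |v (n + 1) 1| + |S.p (s n) 1 - S.p (r n) 1| := by
      have : 8 / 5 * |v n 1| = |v (n + 1) 1 - (S.p (s n) 1 - S.p (r n) 1)| := by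
        rw [e1, add_sub_cancel_right, abs_mul, abs_of_pos (by norm_num : (0 : ℝ) < 8 / 5)]
      rw [this]; exact abs_sub _ _
    have l4 : ρ * |v (n + 1) 2| ≤ ρ * (1 / 90 * |v n 2|) := mul_le_mul_of_nonneg_left l3 h0
    have l5 : 8 / 5 * |v n 0| ≤ kp * |v n 0| :=
      mul_le_mul_of_nonneg_right (by linarith) (abs_nonneg _)
    constructor <;> linarith
  have s0 : ∀ n, |v n 0| ≤ 2 / 3 * |v n 2| ∧ |v n 1| ≤ 2 / 3 * |v n 2| :=
    fun n => ⟨hcone n 0 rfl, hcone n 1 rfl⟩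
  have mono : ∀ ρ ρ' : ℝ, ρ ≤ ρ' → (∀ n, |v n 0| ≤ ρ * |v n 2| ∧ |v n 1| ≤ ρ * |v n 2|) →
      ∀ n, |v n 0| ≤ ρ' * |v n 2| ∧ |v n 1| ≤ ρ' * |v n 2| := fun ρ ρ' h H n => by
    have := mul_le_mul_of_nonneg_right h (abs_nonneg (v n 2))
    exact ⟨(H n).1.trans this, (H n).2.trans this⟩
  have s1 := mono _ (1 / 200) (by norm_num) (step _ (by norm_num) (by norm_num) s0)
  have s2 := mono _ (1 / 25000) (by norm_num) (step _ (by norm_num) (by norm_num) s1)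
  have s3 := mono _ (1 / 2500000) (by norm_num) (step _ (by norm_num) (by norm_num) s2)
  have s4 := mono _ (1 / 10000000) (by norm_num) (step _ (by norm_num) (by norm_num) s3)
  exact s4 0

/-- The points of the crossing zone mapped to the local stable manifold of the second saddle. -/
def CC (S : Sys) : Set E := {t | t ∈ OX ∧ S.G t ∈ VV S}

/-- The differences of points of `CC`. -/
theorem CC_slope {t t' : E} (ht : t ∈ CC S) (ht' : t' ∈ CC S) :
    |t 2 - t' 2| ≤ 1 / 40 * |t 0 - t' 0| ∧ |t 1 - t' 1| ≤ 1 / 10000000 * |t 0 - t' 0| := by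
  obtain ⟨h0, h1⟩ := VV_slope ht.2 ht'.2
  have hk := kp_lo
  have hI := I1_pos
  have hIh := I1_hi
  rw [Sys.GX2 ht.1, Sys.GX2 ht'.1, Sys.GX0 ht.1, Sys.GX0 ht'.1] at h0
  rw [Sys.GX2 ht.1, Sys.GX2 ht'.1, Sys.GX1 ht.1, Sys.GX1 ht'.1] at h1
  have p0 := S.pl t t' 0
  have p1 := S.pl t t' 1
  have p2 := S.pl t t' 2
  set N := ‖t - t'‖ with hN
  have hN0 : 0 ≤ N := norm_nonneg _
  have c2 : |t 2 - t' 2| ≤ N := cle (t - t') 2
  have c1 : |t 1 - t' 1| ≤ N := cle (t - t') 1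
  have c0 : |t 0 - t' 0| ≤ N := cle (t - t') 0
  -- the third coordinate of the difference of the images
  have e2 : |1 / 100 * t 2 + 99 / 200 + S.p t 2 - (1 / 100 * t' 2 + 99 / 200 + S.p t' 2)| ≤
      1 / 50 * N := by
    have : 1 / 100 * t 2 + 99 / 200 + S.p t 2 - (1 / 100 * t' 2 + 99 / 200 + S.p t' 2) =
      1 / 100 * (t 2 - t' 2) + (S.p t 2 - S.p t' 2) := by ring
    rw [this]
    refine (abs_add_le _ _).trans ?_
    rw [abs_mul, abs_of_pos (by norm_num : (0 : ℝ) < 1 / 100)]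
    linarith
  -- the first coordinate
  have e0 : kp * |(t 0 - t' 0) + (t 2 - t' 2) / I1| ≤ 2 / 10000000 * N := by
    have h3 : kp * |(t 0 - t' 0) + (t 2 - t' 2) / I1| =
        |(1 / 2 + kp * (t 0 + (t 2 - 1 / 4) / I1) + S.p t 0 -
          (1 / 2 + kp * (t' 0 + (t' 2 - 1 / 4) / I1) + S.p t' 0)) - (S.p t 0 - S.p t' 0)| := by
      rw [← abs_of_pos kp_pos, ← abs_mul, abs_of_pos kp_pos]
      congr 1; ring
    rw [h3]
    refine (abs_sub _ _).trans ?_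
    linarith
  have e1 : 8 / 5 * |t 1 - t' 1| ≤ 11 / 100000000 * N := by
    have h3 : 8 / 5 * |t 1 - t' 1| = |(8 / 5 * t 1 + S.p t 1 - (8 / 5 * t' 1 + S.p t' 1)) -
        (S.p t 1 - S.p t' 1)| := by
      rw [← abs_of_pos (by norm_num : (0 : ℝ) < 8 / 5), ← abs_mul,
        abs_of_pos (by norm_num : (0 : ℝ) < 8 / 5)]
      congr 1; ring
    rw [h3]
    refine (abs_sub _ _).trans ?_
    linarith
  have e3 : |(t 0 - t' 0) + (t 2 - t' 2) / I1| ≤ 1 / 100000000 * N := by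
    have := abs_nonneg ((t 0 - t' 0) + (t 2 - t' 2) / I1)
    nlinarith
  have e4 : |t 2 - t' 2| ≤ 21 / 1000 * (|t 0 - t' 0| + 1 / 100000000 * N) := by
    have h5 : |t 2 - t' 2| = I1 * |(t 2 - t' 2) / I1| := by
      rw [abs_div, abs_of_pos hI]; field_simp
    have h6 : |(t 2 - t' 2) / I1| ≤ |t 0 - t' 0| + 1 / 100000000 * N := by
      have : (t 2 - t' 2) / I1 = ((t 0 - t' 0) + (t 2 - t' 2) / I1) - (t 0 - t' 0) := by ring
      rw [this]
      refine (abs_sub _ _).trans ?_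
      linarith
    rw [h5]
    exact mul_le_mul hIh h6 (abs_nonneg _) (by norm_num)
  have e5 : N ≤ |t 0 - t' 0| := by
    by_contra hc
    push Not at hc
    have h7 : N ≤ max |t 0 - t' 0| (N / 2) := by
      have g0 : |(t - t') 0| ≤ max |t 0 - t' 0| (N / 2) := le_max_left _ _
      have g1 : |(t - t') 1| ≤ max |t 0 - t' 0| (N / 2) := by
        rw [Pi.sub_apply]
        exact le_max_of_le_right (by linarith)
      have g2 : |(t - t') 2| ≤ max |t 0 - t' 0| (N / 2) := by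
        rw [Pi.sub_apply]
        refine le_max_of_le_right ?_
        linarith
      exact norm3 g0 g1 g2
    rcases le_max_iff.1 h7 with h | h
    · linarith
    · have := abs_nonneg (t 0 - t' 0)
      linarith
  constructor <;> linarith

/-- The dichotomy for the relative position of the two curves. -/
theorem dicho (S : Sys) :
    (∀ u ∈ UU S, ∀ t ∈ CC S, t 1 - u 1 ≤ 2 / 10000000 * (|t 0 - u 0| + |t 2 - u 2|)) ∨
    ∀ u ∈ UU S, ∀ t ∈ CC S, -(2 / 10000000 * (|t 0 - u 0| + |t 2 - u 2|)) ≤ t 1 - u 1 := by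
  by_contra hc
  push Not at hc
  obtain ⟨⟨u, hu, t, ht, h1⟩, ⟨u', hu', t', ht', h2⟩⟩ := hc
  obtain ⟨a0, a1⟩ := UU_slope hu' hu
  obtain ⟨b2, b1⟩ := CC_slope ht ht'
  have k1 : (t 1 - t' 1) + (u' 1 - u 1) ≤
      1 / 10000000 * |t 0 - t' 0| + 1 / 10000000 * |u' 2 - u 2| := by
    have := le_abs_self (t 1 - t' 1)
    have := le_abs_self (u' 1 - u 1)
    linarith
  -- the triangle inequalities
  have k2 : |t 0 - t' 0| ≤ |t 0 - u 0| + |t' 0 - u' 0| + |u' 0 - u 0| := by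
    have : t 0 - t' 0 = (t 0 - u 0) - (t' 0 - u' 0) - (u' 0 - u 0) := by ring
    rw [this]
    have := abs_sub ((t 0 - u 0) - (t' 0 - u' 0)) (u' 0 - u 0)
    have := abs_sub (t 0 - u 0) (t' 0 - u' 0)
    linarith
  have k3 : |u' 2 - u 2| ≤ |t 2 - u 2| + |t' 2 - u' 2| + |t 2 - t' 2| := by
    have : u' 2 - u 2 = (t 2 - u 2) - (t' 2 - u' 2) - (t 2 - t' 2) := by ring
    rw [this]
    have := abs_sub ((t 2 - u 2) - (t' 2 - u' 2)) (t 2 - t' 2)
    have := abs_sub (t 2 - u 2) (t' 2 - u' 2)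
    linarith
  have n1 := abs_nonneg (t 0 - t' 0)
  have n2 := abs_nonneg (u' 2 - u 2)
  linarith

end Pool.Agent.TH290.FC
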