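import Pool.Agent.TH290.FC.Diffeo

set_option autoImplicit false

/-! # Perturbations, zones and local invariant manifolds -/

open Set Filter Topology Real
open scoped ContDiff

namespace Pool.Agent.TH290.FC

theorem norm3 {v : E} {a : ℝ} (h0 : |v 0| ≤ a) (h1 : |v 1| ≤ a) (h2 : |v 2| ≤ a) : ‖v‖ ≤ a := by
  rw [pi_norm_le_iff_of_nonneg ((abs_nonneg _).trans h0)]
  intro i
  fin_cases i
  · exact h0
  · exact h1
  · exact h2

theorem cle (v : E) (i : Fin 3) : |v i| ≤ ‖v‖ := norm_le_pi_norm v i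

/-- The first basis vector. -/
noncomputable def e0 : E := ![1, 0, 0]

theorem e0_mem : e0 ∈ Ltc := mem_Ltc (a := 1) (b := 0) (c := 0) (by simp [e0]) (by simp [e0])
  (by simp [e0])

/-- The zone of the first saddle. -/
def OP : Set E := {x | |x 0| < 1 / 8 ∧ |x 1| < 1 / 5 ∧ |x 2| < 1 / 100}
/-- The zone of the second saddle. -/
def OQ : Set E := {x | |x 0 - 1 / 2| < 1 / 100 ∧ |x 1| < 1 / 5 ∧ |x 2 - 1 / 2| < 1 / 8}
/-- The zone of the crossing. -/
def OX : Set E := {x | |x 0| < 1 / 8 ∧ |x 1| < 1 / 5 ∧ |x 2 - 1 / 4| < 1 / 100 ∧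
  |x 0 + (x 2 - 1 / 4) / I1| < 1 / 100}

/-- The general formula if the last shear is inactive. -/
theorem FF_of {x : E} (h : bu (x 0) (x 1) = 0) :
    FF x = ![gx (x 0 + aa (x 2)), x 1 + th (x 0 + aa (x 2)) * hh (x 1), ps (x 2)] := by
  unfold FF F0 S1 Sy
  simp only [v3_0, v3_1, v3_2, h]
  rw [mul_zero, add_zero]

theorem FF_gen (x : E) :
    FF x = ![gx (x 0 + aa (x 2 + 1 / 2 * bu (x 0) (x 1))),
      x 1 + th (x 0 + aa (x 2 + 1 / 2 * bu (x 0) (x 1))) * hh (x 1),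
      ps (x 2 + 1 / 2 * bu (x 0) (x 1))] := rfl

theorem FF_P {x : E} (hx : x ∈ OP) : FF x = ![1 / 100 * x 0, 2 / 5 * x 1, kp * x 2] := by
  obtain ⟨h0, h1, h2⟩ := hx
  have h0' := abs_lt.1 h0
  have h2' := abs_lt.1 h2
  rw [FF_of (bu_x (by linarith) (by linarith)), aa_zero (by linarith) (by linarith), add_zero,
    gx_small (by linarith), th_neg (by linarith), hh_lin h1.le, ps_lin h2.le]
  refine ext3 ?_ ?_ ?_ <;> simp only [v3_0, v3_1, v3_2]
  ring

theorem FF_Q {x : E} (hx : x ∈ OQ) :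
    FF x = ![3 / 2 + kp * (x 0 - 1 / 2), 8 / 5 * x 1, 1 / 100 * x 2 + 99 / 200] := by
  obtain ⟨h0, h1, h2⟩ := hx
  have h0' := abs_lt.1 h0
  have h2' := abs_lt.1 h2
  have e1 := gx_add_int (x 0) 1
  have e2 := th_add_int (x 0) 1
  push_cast at e1 e2
  rw [FF_of (bu_x' (by linarith) (by linarith)), aa_one (by linarith) (by linarith), e1, e2,
    gx_lin h0.le, th_one (by linarith), hh_lin h1.le, ps_top (by linarith) (by linarith)]
  refine ext3 ?_ ?_ ?_ <;> simp only [v3_0, v3_1, v3_2] <;> ring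

theorem FF_X {x : E} (hx : x ∈ OX) :
    FF x = ![1 / 2 + kp * (x 0 + (x 2 - 1 / 4) / I1), 8 / 5 * x 1, 1 / 100 * x 2 + 99 / 200] := by
  obtain ⟨h0, h1, h2, h3⟩ := hx
  have h0' := abs_lt.1 h0
  have h2' := abs_lt.1 h2
  have e3 : x 0 + (1 / 2 + (x 2 - 1 / 4) / I1) - 1 / 2 = x 0 + (x 2 - 1 / 4) / I1 := by ring
  rw [FF_of (bu_x (by linarith) (by linarith)), aa_lin h2.le, gx_lin (by rw [e3]; exact h3.le),
    th_one (by rw [e3]; linarith), hh_lin h1.le, ps_top (by linarith) (by linarith), e3]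
  refine ext3 ?_ ?_ ?_ <;> simp only [v3_0, v3_1, v3_2]
  ring

/-- A perturbation. -/
structure Sys where
  G : E → E
  H : E → E
  δ : ℝ
  GH : ∀ x, G (H x) = x
  HG : ∀ x, H (G x) = x
  δ1 : δ ≤ 1 / 10000000
  bd : ∀ x, ‖G x - FF x‖ ≤ δ
  lip : ∀ x y, ‖(G x - FF x) - (G y - FF y)‖ ≤ δ * ‖x - y‖
  G_add : ∀ x l, l ∈ Ltc → G (x + l) = G x + AL l

namespace Sys

variable (S : Sys)

/-- The perturbation. -/
noncomputable def p (x : E) : E := S.G x - FF x

theorem G_eq (x : E) (i : Fin 3) : S.G x i = FF x i + S.p x i := by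
  simp only [p, Pi.sub_apply]; ring

theorem pb (x : E) (i : Fin 3) : |S.p x i| ≤ 1 / 10000000 :=
  (cle _ i).trans ((S.bd x).trans S.δ1)

theorem pl (x y : E) (i : Fin 3) : |S.p x i - S.p y i| ≤ 1 / 10000000 * ‖x - y‖ := by
  have h1 := cle (S.p x - S.p y) i
  exact h1.trans ((S.lip x y).trans (mul_le_mul_of_nonneg_right S.δ1 (norm_nonneg _)))

theorem δ0 : 0 ≤ S.δ := (norm_nonneg _).trans (S.bd 0)

theorem p_norm (x : E) : ‖S.p x‖ ≤ S.δ := S.bd x

theorem p_norm_lip (x y : E) : ‖S.p x - S.p y‖ ≤ 1 / 10000000 * ‖x - y‖ :=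
  (S.lip x y).trans (mul_le_mul_of_nonneg_right S.δ1 (norm_nonneg _))

theorem p_lip : Lip S.p := fun x y => (S.p_norm_lip x y).trans
  (mul_le_mul_of_nonneg_right (by norm_num) (norm_nonneg _))

theorem H_add (x l : E) (hl : l ∈ Ltc) : S.H (x + l) = S.H x + AI l := by
  have h1 : S.G (S.H x + AI l) = x + l := by rw [S.G_add _ _ (AI_mem hl), S.GH, AL_AI]
  rw [← h1, S.HG]

/-- The shifted map. -/
noncomputable def GQ (x : E) : E := S.G x - e0

theorem GQ0 (x : E) : S.GQ x 0 = S.G x 0 - 1 := by simp [GQ, e0]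
theorem GQ1 (x : E) : S.GQ x 1 = S.G x 1 := by simp [GQ, e0]
theorem GQ2 (x : E) : S.GQ x 2 = S.G x 2 := by simp [GQ, e0]

/-- Its inverse. -/
noncomputable def HQ (x : E) : E := S.H (x + e0)

theorem GQ_HQ (x : E) : S.GQ (S.HQ x) = x := by
  unfold GQ HQ; rw [S.GH, add_sub_cancel_right]
theorem HQ_GQ (x : E) : S.HQ (S.GQ x) = x := by
  unfold GQ HQ; rw [sub_add_cancel, S.HG]

variable {S}

theorem GP0 {x : E} (hx : x ∈ OP) : S.G x 0 = 1 / 100 * x 0 + S.p x 0 := by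
  rw [G_eq, FF_P hx, v3_0]
theorem GP1 {x : E} (hx : x ∈ OP) : S.G x 1 = 2 / 5 * x 1 + S.p x 1 := by
  rw [G_eq, FF_P hx, v3_1]
theorem GP2 {x : E} (hx : x ∈ OP) : S.G x 2 = kp * x 2 + S.p x 2 := by
  rw [G_eq, FF_P hx, v3_2]

theorem QG0 {x : E} (hx : x ∈ OQ) : S.GQ x 0 = 1 / 2 + kp * (x 0 - 1 / 2) + S.p x 0 := by
  rw [GQ0, G_eq, FF_Q hx, v3_0]; ring
theorem QG1 {x : E} (hx : x ∈ OQ) : S.GQ x 1 = 8 / 5 * x 1 + S.p x 1 := by
  rw [GQ1, G_eq, FF_Q hx, v3_1]
theorem QG2 {x : E} (hx : x ∈ OQ) : S.GQ x 2 = 1 / 100 * x 2 + 99 / 200 + S.p x 2 := by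
  rw [GQ2, G_eq, FF_Q hx, v3_2]

theorem GX0 {x : E} (hx : x ∈ OX) :
    S.G x 0 = 1 / 2 + kp * (x 0 + (x 2 - 1 / 4) / I1) + S.p x 0 := by
  rw [G_eq, FF_X hx, v3_0]
theorem GX1 {x : E} (hx : x ∈ OX) : S.G x 1 = 8 / 5 * x 1 + S.p x 1 := by
  rw [G_eq, FF_X hx, v3_1]
theorem GX2 {x : E} (hx : x ∈ OX) : S.G x 2 = 1 / 100 * x 2 + 99 / 200 + S.p x 2 := by
  rw [G_eq, FF_X hx, v3_2]

end Sys

/-- The multipliers of the first saddle. -/
noncomputable def ZP : Mult where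
  e := ![false, false, true]
  m := ![1 / 100, 2 / 5, kp]
  hcon := by
    intro i hi
    fin_cases i
    · show |(1 / 100 : ℝ)| + 1 / 10000 ≤ 2 / 3
      rw [abs_of_pos (by norm_num)]; norm_num
    · show |(2 / 5 : ℝ)| + 1 / 10000 ≤ 2 / 3
      rw [abs_of_pos (by norm_num)]; norm_num
    · simp at hi
  hexp := by
    intro i hi
    fin_cases i
    · simp at hi
    · simp at hi
    · show 1 + 1 / 10000 ≤ 2 / 3 * |kp|
      have := kp_lo
      rw [abs_of_pos kp_pos]; linarith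

/-- The multipliers of the second saddle. -/
noncomputable def ZQ : Mult where
  e := ![true, true, false]
  m := ![kp, 8 / 5, 1 / 100]
  hcon := by
    intro i hi
    fin_cases i
    · simp at hi
    · simp at hi
    · show |(1 / 100 : ℝ)| + 1 / 10000 ≤ 2 / 3
      rw [abs_of_pos (by norm_num)]; norm_num
  hexp := by
    intro i hi
    fin_cases i
    · show 1 + 1 / 10000 ≤ 2 / 3 * |kp|
      have := kp_lo
      rw [abs_of_pos kp_pos]; linarith
    · show 1 + 1 / 10000 ≤ 2 / 3 * |(8 / 5 : ℝ)|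
      rw [abs_of_pos (by norm_num)]; norm_num
    · simp at hi

/-- The center of the second zone. -/
noncomputable def cQ : E := ![1 / 2, 0, 1 / 2]

/-- The translation part at the second saddle. -/
noncomputable def bQ : E := ![1 / 2 - kp / 2, 0, 99 / 200]

theorem OP_of {x : E} {a : ℝ} (h : ‖x‖ ≤ a) (ha : a < 1 / 100) : x ∈ OP := by
  have h0 := cle x 0
  have h1 := cle x 1
  have h2 := cle x 2
  exact ⟨by linarith, by linarith, by linarith⟩

theorem OQ_of {x : E} {a : ℝ} (h : ‖x - cQ‖ ≤ a) (ha : a < 1 / 100) : x ∈ OQ := by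
  have h0 := (cle (x - cQ) 0).trans h
  have h1 := (cle (x - cQ) 1).trans h
  have h2 := (cle (x - cQ) 2).trans h
  simp only [Pi.sub_apply, cQ, v3_0, v3_1, v3_2, sub_zero] at h0 h1 h2
  exact ⟨by linarith, by linarith, by linarith⟩

section
variable (S : Sys)

theorem GP {x : E} (hx : x ∈ OP) (i : Fin 3) :
    S.G x i = ZP.m i * x i + (0 : E) i + S.p x i := by
  fin_cases i
  · show S.G x 0 = 1 / 100 * x 0 + 0 + S.p x 0
    rw [Sys.GP0 hx]; ring
  · show S.G x 1 = 2 / 5 * x 1 + 0 + S.p x 1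
    rw [Sys.GP1 hx]; ring
  · show S.G x 2 = kp * x 2 + 0 + S.p x 2
    rw [Sys.GP2 hx]; ring

theorem QG {x : E} (hx : x ∈ OQ) (i : Fin 3) :
    S.GQ x i = ZQ.m i * x i + bQ i + S.p x i := by
  fin_cases i
  · show S.GQ x 0 = kp * x 0 + (1 / 2 - kp / 2) + S.p x 0
    rw [Sys.QG0 hx]; ring
  · show S.GQ x 1 = 8 / 5 * x 1 + 0 + S.p x 1
    rw [Sys.QG1 hx]; ring
  · show S.GQ x 2 = 1 / 100 * x 2 + 99 / 200 + S.p x 2
    rw [Sys.QG2 hx]

theorem GP_of {x y : E} (hx : x ∈ OP) (h : ∀ i, y i = ZP.m i * x i + (0 : E) i + S.p x i) :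
    S.G x = y := by
  funext i; rw [h i, GP S hx i]

theorem QG_of {x y : E} (hx : x ∈ OQ) (h : ∀ i, y i = ZQ.m i * x i + bQ i + S.p x i) :
    S.GQ x = y := by
  funext i; rw [h i, QG S hx i]

theorem relP {x y : E} (hx : x ∈ OP) (hy : y ∈ OP) :
    Rel (fun i => !ZP.e i) (2 / 3) (x - y) (S.G x - S.G y) := by
  refine rel_of (Z := ZP) (q := S.p x - S.p y) (fun i => ?_) (S.p_lip x y)
  simp only [Pi.sub_apply, GP S hx, GP S hy]
  ring

theorem relQ {x y : E} (hx : x ∈ OQ) (hy : y ∈ OQ) :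
    Rel (fun i => !ZQ.e i) (2 / 3) (x - y) (S.GQ x - S.GQ y) := by
  refine rel_of (Z := ZQ) (q := S.p x - S.p y) (fun i => ?_) (S.p_lip x y)
  simp only [Pi.sub_apply, QG S hx, QG S hy]
  ring

/-! ### Fixed points -/

theorem exists_P : ∃ P : E, S.G P = P ∧ ‖P‖ ≤ 3 * S.δ := by
  obtain ⟨x, hx, hxr, -⟩ := exists_two ZP 0 (fun _ => S.p) (fun _ => S.p_lip) (Θ := Unit)
    (fun _ _ => 0) (fun _ n i => by simp) (fun _ => continuous_const) S.δ S.δ0
    (fun _ n => S.p_norm _)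
  have hb : ∀ n, ‖x () n‖ ≤ 3 * S.δ := fun n => by simpa using hxr () n
  have hδ := S.δ1
  have hO : ∀ n, x () n ∈ OP := fun n => OP_of (hb n) (by linarith)
  have hG : ∀ n, S.G (x () n) = x () (n + 1) := fun n => GP_of S (hO n) fun i => hx () n i
  have hz := two_zero (c := fun i => !ZP.e i) (lam := 2 / 3) (D := 6 * S.δ) (by norm_num)
    (by norm_num) (fun n => x () n - x () (n + 1)) (fun n => by
      have := relP S (hO n) (hO (n + 1))
      rw [hG, hG] at this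
      exact this) (fun n => by
      refine (norm_sub_le _ _).trans ?_
      have := hb n
      have := hb (n + 1)
      linarith) 0
  refine ⟨x () 0, ?_, hb 0⟩
  rw [hG 0]
  exact (sub_eq_zero.1 hz).symm

theorem exists_Q : ∃ Q : E, S.GQ Q = Q ∧ ‖Q - cQ‖ ≤ 3 * S.δ := by
  obtain ⟨x, hx, hxr, -⟩ := exists_two ZQ bQ (fun _ => S.p) (fun _ => S.p_lip) (Θ := Unit)
    (fun _ _ => cQ) (fun _ n i => by
      fin_cases i
      · show (1 / 2 : ℝ) = kp * (1 / 2) + (1 / 2 - kp / 2)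
        ring
      · show (0 : ℝ) = 8 / 5 * 0 + 0
        ring
      · show (1 / 2 : ℝ) = 1 / 100 * (1 / 2) + 99 / 200
        ring) (fun _ => continuous_const) S.δ S.δ0
    (fun _ n => S.p_norm _)
  have hb : ∀ n, ‖x () n - cQ‖ ≤ 3 * S.δ := fun n => hxr () n
  have hδ := S.δ1
  have hO : ∀ n, x () n ∈ OQ := fun n => OQ_of (hb n) (by linarith)
  have hG : ∀ n, S.GQ (x () n) = x () (n + 1) := fun n => QG_of S (hO n) fun i => hx () n i
  have hz := two_zero (c := fun i => !ZQ.e i) (lam := 2 / 3) (D := 6 * S.δ) (by norm_num)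
    (by norm_num) (fun n => x () n - x () (n + 1)) (fun n => by
      have := relQ S (hO n) (hO (n + 1))
      rw [hG, hG] at this
      exact this) (fun n => by
      have e : x () n - x () (n + 1) = (x () n - cQ) - (x () (n + 1) - cQ) := by abel
      show ‖x () n - x () (n + 1)‖ ≤ _
      rw [e]
      refine (norm_sub_le _ _).trans ?_
      have := hb n
      have := hb (n + 1)
      linarith) 0
  refine ⟨x () 0, ?_, hb 0⟩
  rw [hG 0]
  exact (sub_eq_zero.1 hz).symm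

/-- The continuation of the first saddle. -/
noncomputable def PP : E := Classical.choose (exists_P S)
/-- The continuation of the second saddle. -/
noncomputable def QQ : E := Classical.choose (exists_Q S)

theorem PP_fix : S.G (PP S) = PP S := (Classical.choose_spec (exists_P S)).1
theorem PP_norm : ‖PP S‖ ≤ 3 * S.δ := (Classical.choose_spec (exists_P S)).2
theorem QQ_fix : S.GQ (QQ S) = QQ S := (Classical.choose_spec (exists_Q S)).1
theorem QQ_norm : ‖QQ S - cQ‖ ≤ 3 * S.δ := (Classical.choose_spec (exists_Q S)).2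

theorem PP_mem : PP S ∈ OP := OP_of (PP_norm S) (by have := S.δ1; linarith)
theorem QQ_mem : QQ S ∈ OQ := OQ_of (QQ_norm S) (by have := S.δ1; linarith)

theorem PP_b (i : Fin 3) : |PP S i| ≤ 3 / 10000000 := by
  have := cle (PP S) i
  have := PP_norm S
  have := S.δ1
  linarith

theorem QQ_b (i : Fin 3) : |QQ S i - cQ i| ≤ 3 / 10000000 := by
  have := cle (QQ S - cQ) i
  have := QQ_norm S
  have := S.δ1
  simp only [Pi.sub_apply] at *
  linarith

/-- Uniqueness of the fixed point. -/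
theorem P_unique {x : E} (hx : x ∈ OP) (h : S.G x = x) : x = PP S := by
  have hP := PP_mem S
  have hz := two_zero (c := fun i => !ZP.e i) (lam := 2 / 3) (D := ‖x - PP S‖) (by norm_num)
    (by norm_num) (fun _ => x - PP S) (fun n => by
      have := relP S hx hP
      rw [h, PP_fix S] at this
      exact this) (fun n => le_rfl) 0
  exact sub_eq_zero.1 hz

theorem Q_unique {x : E} (hx : x ∈ OQ) (h : S.GQ x = x) : x = QQ S := by
  have hP := QQ_mem S
  have hz := two_zero (c := fun i => !ZQ.e i) (lam := 2 / 3) (D := ‖x - QQ S‖) (by norm_num)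
    (by norm_num) (fun _ => x - QQ S) (fun n => by
      have := relQ S hx hP
      rw [h, QQ_fix S] at this
      exact this) (fun n => le_rfl) 0
  exact sub_eq_zero.1 hz

/-! ### Local invariant manifolds -/

/-- Points with a backward orbit in the first zone. -/
def UU : Set E := {u | ∃ s : ℕ → E, s 0 = u ∧ ∀ n, s (n + 1) ∈ OP ∧ S.G (s (n + 1)) = s n}
/-- Points with a forward orbit in the second zone. -/
def VV : Set E := {v | ∃ s : ℕ → E, s 0 = v ∧ ∀ n, s n ∈ OQ ∧ S.GQ (s n) = s (n + 1)}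

variable {S}

theorem UU_pred {u : E} (hu : u ∈ UU S) : S.H u ∈ OP ∧ S.H u ∈ UU S := by
  obtain ⟨s, rfl, hs⟩ := hu
  have h1 : S.H (s 0) = s 1 := by rw [← (hs 0).2, S.HG]
  rw [h1]
  exact ⟨(hs 0).1, fun n => s (n + 1), rfl, fun n => hs (n + 1)⟩

theorem UU_succ {u : E} (hu : u ∈ UU S) (hO : u ∈ OP) : S.G u ∈ UU S := by
  obtain ⟨s, rfl, hs⟩ := hu
  refine ⟨fun n => match n with
    | 0 => S.G (s 0)
    | n + 1 => s n, rfl, fun n => ?_⟩
  cases n with
  | zero => exact ⟨hO, rfl⟩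
  | succ n => exact hs n

theorem VV_mem {v : E} (hv : v ∈ VV S) : v ∈ OQ := by
  obtain ⟨s, rfl, hs⟩ := hv
  exact (hs 0).1

theorem VV_succ {v : E} (hv : v ∈ VV S) : S.GQ v ∈ VV S := by
  obtain ⟨s, rfl, hs⟩ := hv
  exact ⟨fun n => s (n + 1), (hs 0).2.symm, fun n => hs (n + 1)⟩

theorem VV_pred {v : E} (hO : v ∈ OQ) (hv : S.GQ v ∈ VV S) : v ∈ VV S := by
  obtain ⟨s, h0, hs⟩ := hv
  refine ⟨fun n => match n with
    | 0 => v
    | n + 1 => s n, rfl, fun n => ?_⟩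
  cases n with
  | zero => exact ⟨hO, h0.symm⟩
  | succ n => exact hs n

variable (S)

theorem PP_UU : PP S ∈ UU S := ⟨fun _ => PP S, rfl, fun _ => ⟨PP_mem S, PP_fix S⟩⟩
theorem QQ_VV : QQ S ∈ VV S := ⟨fun _ => QQ S, rfl, fun _ => ⟨QQ_mem S, QQ_fix S⟩⟩

theorem exists_UU (h : ℝ) (hh : |h| ≤ 2 / 5) : ∃ u ∈ UU S, u 2 = h := by
  have hk := kp_pos
  have hkl := kp_lo
  obtain ⟨x, hx, hx0, hxr, -⟩ := exists_bwd ZP 0 (fun _ => S.p) (fun _ => S.p_lip) (Θ := Unit)
    (fun _ => ![0, 0, h]) continuous_const (fun _ n => ![0, 0, h / kp ^ n])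
    (fun _ n i => by
      fin_cases i
      · show (0 : ℝ) = 1 / 100 * 0 + 0
        ring
      · show (0 : ℝ) = 2 / 5 * 0 + 0
        ring
      · show h / kp ^ n = kp * (h / kp ^ (n + 1)) + 0
        field_simp
        ring) (fun _ i hi => by
      fin_cases i
      · simp [ZP] at hi
      · simp [ZP] at hi
      · show h / kp ^ 0 = h
        simp) (fun n => continuous_const) S.δ S.δ0 (fun _ n => S.p_norm _)
  have hδ := S.δ1
  have hO : ∀ n, x () (n + 1) ∈ OP := by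
    intro n
    have h1 := hxr () (n + 1)
    have c0 := (cle (x () (n + 1) - ![0, 0, h / kp ^ (n + 1)]) 0).trans h1
    have c1 := (cle (x () (n + 1) - ![0, 0, h / kp ^ (n + 1)]) 1).trans h1
    have c2 := (cle (x () (n + 1) - ![0, 0, h / kp ^ (n + 1)]) 2).trans h1
    simp only [Pi.sub_apply, v3_0, v3_1, v3_2, sub_zero] at c0 c1 c2
    have h3 : |h / kp ^ (n + 1)| ≤ 2 / 5 / 47 := by
      rw [abs_div, abs_of_pos (by positivity : 0 < kp ^ (n + 1))]
      have h4 : 47 ≤ kp ^ (n + 1) := by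
        calc (47 : ℝ) ≤ kp := hkl
          _ = kp ^ 1 := (pow_one _).symm
          _ ≤ kp ^ (n + 1) := pow_le_pow_right₀ (by linarith) (by omega)
      exact div_le_div₀ (by norm_num) hh (by norm_num) h4
    have h5 := abs_sub_abs_le_abs_sub (x () (n + 1) 2) (h / kp ^ (n + 1))
    norm_num at h3
    exact ⟨by linarith, by linarith, by linarith⟩
  refine ⟨x () 0, ⟨x (), rfl, fun n => ⟨hO n, GP_of S (hO n) fun i => hx () n i⟩⟩, ?_⟩
  exact hx0 () 2 rfl

theorem exists_VV (h : ℝ) (hh : |h - 1 / 2| ≤ 1 / 10) : ∃ v ∈ VV S, v 2 = h := by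
  obtain ⟨x, hx, hx0, hxr, -⟩ := exists_fwd ZQ bQ (fun _ => S.p) (fun _ => S.p_lip) (Θ := Unit)
    (fun _ => ![0, 0, h]) continuous_const
    (fun _ n => ![1 / 2, 0, 1 / 2 + (h - 1 / 2) / 100 ^ n])
    (fun _ n i => by
      fin_cases i
      · show (1 / 2 : ℝ) = kp * (1 / 2) + (1 / 2 - kp / 2)
        ring
      · show (0 : ℝ) = 8 / 5 * 0 + 0
        ring
      · show 1 / 2 + (h - 1 / 2) / 100 ^ (n + 1) =
          1 / 100 * (1 / 2 + (h - 1 / 2) / 100 ^ n) + 99 / 200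
        rw [pow_succ]
        field_simp
        ring) (fun _ i hi => by
      fin_cases i
      · simp [ZQ] at hi
      · simp [ZQ] at hi
      · show 1 / 2 + (h - 1 / 2) / 100 ^ 0 = h
        simp) (fun n => continuous_const) S.δ S.δ0 (fun _ n => S.p_norm _)
  have hδ := S.δ1
  have hO : ∀ n, x () n ∈ OQ := by
    intro n
    have h1 := hxr () n
    have c0 := (cle (x () n - ![1 / 2, 0, 1 / 2 + (h - 1 / 2) / 100 ^ n]) 0).trans h1
    have c1 := (cle (x () n - ![1 / 2, 0, 1 / 2 + (h - 1 / 2) / 100 ^ n]) 1).trans h1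
    have c2 := (cle (x () n - ![1 / 2, 0, 1 / 2 + (h - 1 / 2) / 100 ^ n]) 2).trans h1
    simp only [Pi.sub_apply, v3_0, v3_1, v3_2, sub_zero] at c0 c1 c2
    have h3 : |(h - 1 / 2) / 100 ^ n| ≤ 1 / 10 := by
      rw [abs_div, abs_of_pos (by positivity : (0 : ℝ) < 100 ^ n)]
      have h4 : (1 : ℝ) ≤ 100 ^ n := one_le_pow₀ (by norm_num)
      exact (div_le_self (abs_nonneg _) h4).trans hh
    have h5 : |x () n 2 - 1 / 2| ≤ |x () n 2 - (1 / 2 + (h - 1 / 2) / 100 ^ n)| +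
        |(h - 1 / 2) / 100 ^ n| := by
      refine le_trans (le_of_eq ?_) (abs_add_le _ _)
      congr 1; ring
    exact ⟨by linarith, by linarith, by linarith⟩
  refine ⟨x () 0, ⟨x (), rfl, fun n => ⟨hO n, QG_of S (hO n) fun i => hx () n i⟩⟩, ?_⟩
  exact hx0 () 2 rfl

end

end Pool.Agent.TH290.FC
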