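import Mathlib

set_option autoImplicit false

/-! # Transitive sets, trapping regions and missing connections -/

open Set Filter Topology

namespace Pool.Agent.TH290.FC

variable {X : Type*} [PseudoMetricSpace X] [T2Space X]

/-- Topological transitivity of `g` on `Λ`. -/
def TT (g : X ≃ₜ X) (Λ : Set X) : Prop :=
  ∀ U V : Set X, IsOpen U → IsOpen V → (U ∩ Λ).Nonempty → (V ∩ Λ).Nonempty →
    ∃ n : ℕ, ∃ y ∈ Λ, y ∈ U ∧ g^[n] y ∈ V

section
omit [T2Space X]

theorem iter_mem {g : X ≃ₜ X} {Λ : Set X} (hi : g '' Λ = Λ) (n : ℕ) {x : X} (hx : x ∈ Λ) :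
    g^[n] x ∈ Λ := by
  induction n with
  | zero => exact hx
  | succ n ih =>
    rw [Function.iterate_succ_apply', ← hi]
    exact ⟨_, ih, rfl⟩

theorem symm_inv {g : X ≃ₜ X} {Λ : Set X} (hi : g '' Λ = Λ) : g.symm '' Λ = Λ := by
  conv_lhs => rw [← hi]
  rw [← image_comp]
  have : (g.symm ∘ g : X → X) = id := funext fun x => g.symm_apply_apply x
  rw [this, image_id]

theorem symm_iter (g : X ≃ₜ X) (n : ℕ) (x : X) : g.symm^[n] (g^[n] x) = x :=
  (Function.LeftInverse.iterate (f := g) (g := g.symm) g.symm_apply_apply n) x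

theorem iter_symm (g : X ≃ₜ X) (n : ℕ) (x : X) : g^[n] (g.symm^[n] x) = x :=
  (Function.LeftInverse.iterate (f := g.symm) (g := g) g.apply_symm_apply n) x

theorem TT_of_dense {g : X ≃ₜ X} {Λ : Set X} (hi : g '' Λ = Λ)
    (hd : ∃ x ∈ Λ, Λ ⊆ closure (range fun n : ℕ => g^[n] x)) : TT g Λ := by
  obtain ⟨x, hx, hd⟩ := hd
  intro U V hU hV ⟨a, haU, ha⟩ ⟨b, hbV, hb⟩
  obtain ⟨_, h1, ⟨i, rfl⟩⟩ := mem_closure_iff.1 (hd ha) U hU haU
  have hb' : g.symm^[i] b ∈ Λ := iter_mem (symm_inv hi) i hb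
  obtain ⟨_, h2, ⟨j, rfl⟩⟩ := mem_closure_iff.1 (hd hb') (g^[i] ⁻¹' V)
    (hV.preimage (g.continuous.iterate i)) (by rw [mem_preimage, iter_symm]; exact hbV)
  refine ⟨j, g^[i] x, iter_mem hi i hx, h1, ?_⟩
  rw [mem_preimage] at h2
  simp only at h2
  rwa [← Function.iterate_add_apply, add_comm, Function.iterate_add_apply]

theorem TT_symm {g : X ≃ₜ X} {Λ : Set X} (hi : g '' Λ = Λ) (h : TT g Λ) : TT g.symm Λ := by
  intro U V hU hV hUn hVn
  obtain ⟨n, y, hy, hyV, hyU⟩ := h V U hV hU hVn hUn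
  exact ⟨n, g^[n] y, iter_mem hi n hy, hyU, by rw [symm_iter]; exact hyV⟩

theorem trap_iter {g : X ≃ₜ X} {A : Set X} (hA : ∀ x ∈ A, g x ∈ interior A) (n : ℕ) {x : X}
    (hx : x ∈ A) : g^[n] x ∈ A := by
  induction n with
  | zero => exact hx
  | succ n ih =>
    rw [Function.iterate_succ_apply']
    exact interior_subset (hA _ ih)

/-- A transitive set containing a point outside of a trapping region is disjoint from it. -/
theorem trap {g : X ≃ₜ X} {A Λ : Set X} (hAc : IsClosed A) (hA : ∀ x ∈ A, g x ∈ interior A)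
    (hi : g '' Λ = Λ) (hT : TT g Λ) {P : X} (hP : P ∈ Λ) (hPA : P ∉ A) {w : X} (hw : w ∈ Λ) :
    w ∉ A := by
  intro hwA
  obtain ⟨n, y, hy, hyU, hyV⟩ := hT (interior A) Aᶜ isOpen_interior hAc.isOpen_compl
    ⟨g w, hA w hwA, iter_mem hi 1 hw⟩ ⟨P, hPA, hP⟩
  exact hyV (trap_iter hA n (interior_subset hyU))

end

/-- If the unstable set of `P` falls into a trapping region, then no nontrivial transitive set
contains `P`. -/
theorem only_P {g : X ≃ₜ X} {A B Λ : Set X} {P : X} (hAc : IsClosed A)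
    (hA : ∀ x ∈ A, g x ∈ interior A) (hPA : P ∉ A) (hgP : g P = P) (hBc : IsClosed B)
    (hB : B ∈ 𝓝 P)
    (H : ∀ w, w ≠ P → (∀ n : ℕ, g.symm^[n + 1] w ∈ B) → ∃ n : ℕ, g^[n] w ∈ A)
    (hc : IsCompact Λ) (hi : g '' Λ = Λ) (hT : TT g Λ) (hP : P ∈ Λ) : Λ = {P} := by
  have hsP : ∀ n, g.symm^[n] P = P := fun n =>
    Function.iterate_fixed (by rw [← hgP, g.symm_apply_apply, hgP]) n
  set C : ℕ → Set X := fun n => {w | ∀ j < n, g.symm^[j + 1] w ∈ B} with hC
  have hCc : ∀ n, IsClosed (C n) := fun n => by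
    have : C n = ⋂ j ∈ Iio n, (g.symm^[j + 1]) ⁻¹' B := by
      ext w; simp [hC]
    rw [this]
    exact isClosed_biInter fun j _ => hBc.preimage (g.symm.continuous.iterate _)
  have hCm : ∀ m n, m ≤ n → C n ⊆ C m := fun m n h w hw j hj => hw j (hj.trans_le h)
  set K : ℕ → Set X := fun n => Λ ∩ C n with hK
  have hKc : ∀ n, IsCompact (K n) := fun n => hc.inter_right (hCc n)
  have hKm : ∀ m n, m ≤ n → K n ⊆ K m := fun m n h => inter_subset_inter_right _ (hCm m n h)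
  have hint : ⋂ n, K n ⊆ {P} := by
    intro w hw
    rw [mem_iInter] at hw
    by_contra hne
    obtain ⟨m, hm⟩ := H w hne fun n => (hw (n + 1)).2 n (Nat.lt_succ_self n)
    exact trap hAc hA hi hT hP hPA (iter_mem hi m (hw 0).1) hm
  obtain ⟨N, hN⟩ : ∃ N, K N ⊆ interior B := by
    refine exists_subset_nhds_of_isCompact' (V := K) (directed_of_isDirected_le fun m n h => ?_)
      hKc (fun n => (hKc n).isClosed) (U := interior B) (fun x hx => ?_)
    · exact hKm m n h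
    · rw [mem_singleton_iff.1 (hint hx)]
      exact isOpen_interior.mem_nhds (mem_interior_iff_mem_nhds.2 hB)
  -- forward invariance
  have hfwd : ∀ M, N ≤ M → ∀ w ∈ K M, g w ∈ K M := by
    intro M hM w hw
    refine ⟨iter_mem hi 1 hw.1, fun j hj => ?_⟩
    rw [Function.iterate_succ_apply, g.symm_apply_apply]
    cases j with
    | zero => exact interior_subset (hN (hKm N M hM hw))
    | succ j => exact hw.2 j (by omega)
  have hfwd' : ∀ M, N ≤ M → ∀ n, ∀ w ∈ K M, g^[n] w ∈ K M := by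
    intro M hM n
    induction n with
    | zero => exact fun w hw => hw
    | succ n ih =>
      intro w hw
      rw [Function.iterate_succ_apply']
      exact hfwd M hM _ (ih w hw)
  refine Subset.antisymm (fun q hq => ?_) (singleton_subset_iff.2 hP)
  by_contra hne
  obtain ⟨n₁, hn₁⟩ : ∃ n, q ∉ K n := by
    by_contra h
    push Not at h
    exact hne (hint (mem_iInter.2 h))
  set M := max N n₁ with hM
  have hqM : q ∉ C M := fun h => hn₁ ⟨hq, hCm n₁ M (le_max_right _ _) h⟩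
  set U : Set X := ⋂ j ∈ Iio M, (g.symm^[j + 1]) ⁻¹' interior B with hU
  have hUo : IsOpen U := (finite_Iio M).isOpen_biInter fun j _ =>
    isOpen_interior.preimage (g.symm.continuous.iterate _)
  have hUC : U ⊆ C M := fun w hw j hj => by
    rw [hU, mem_iInter₂] at hw
    exact interior_subset (hw j hj)
  have hPU : P ∈ U := by
    rw [hU, mem_iInter₂]
    intro j hj
    rw [mem_preimage, hsP]
    exact mem_interior_iff_mem_nhds.2 hB
  obtain ⟨n, y, hy, hyU, hyV⟩ := hT U (C M)ᶜ hUo (hCc M).isOpen_compl ⟨P, hPU, hP⟩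
    ⟨q, hqM, hq⟩
  exact hyV (hfwd' M (le_max_left _ _) n y ⟨hy, hUC hyU⟩).2

/-- No connection from `Λ ∋ P` to `Γ ∋ Q`. -/
theorem no_conn {g : X ≃ₜ X} {A B Λ Γ : Set X} {P Q : X} (hAc : IsClosed A)
    (hA : ∀ x ∈ A, g x ∈ interior A) (hPA : P ∉ A) (hQA : Q ∉ A) (hPQ : P ≠ Q) (hgP : g P = P)
    (hBc : IsClosed B) (hB : B ∈ 𝓝 P)
    (H : ∀ w, w ≠ P → (∀ n : ℕ, g.symm^[n + 1] w ∈ B) → ∃ n : ℕ, g^[n] w ∈ A)
    (hΛc : IsCompact Λ) (hΛi : g '' Λ = Λ) (hΛT : TT g Λ) (hP : P ∈ Λ)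
    (hΓc : IsCompact Γ) (hΓi : g '' Γ = Γ) (hΓT : TT g Γ) (hQ : Q ∈ Γ) (y : X)
    (h1 : ∃ x ∈ Λ, Tendsto (fun n : ℕ => dist (g.symm^[n] x) (g.symm^[n] y)) atTop (𝓝 0))
    (h2 : ∃ x ∈ Γ, Tendsto (fun n : ℕ => dist (g^[n] x) (g^[n] y)) atTop (𝓝 0)) : False := by
  have hsP : ∀ n, g.symm^[n] P = P := fun n =>
    Function.iterate_fixed (by rw [← hgP, g.symm_apply_apply, hgP]) n
  have hiP : ∀ n, g^[n] P = P := fun n => Function.iterate_fixed hgP n
  have hΛP := only_P hAc hA hPA hgP hBc hB H hΛc hΛi hΛT hP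
  have hPΓ : P ∉ Γ := fun h => by
    have := only_P hAc hA hPA hgP hBc hB H hΓc hΓi hΓT h
    rw [this] at hQ
    exact hPQ hQ.symm
  obtain ⟨x, hx, hxy⟩ := h1
  rw [hΛP, mem_singleton_iff] at hx
  subst hx
  obtain ⟨z, hz, hzy⟩ := h2
  simp only [hsP] at hxy
  have hlim : Tendsto (fun n : ℕ => g.symm^[n] y) atTop (𝓝 x) := by
    rw [tendsto_iff_dist_tendsto_zero]
    refine hxy.congr fun n => dist_comm _ _
  obtain ⟨N, hN⟩ := eventually_atTop.1 (hlim.eventually_mem hB)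
  by_cases hyP : g.symm^[N] y = x
  · have hyx : y = x := by rw [← iter_symm g N y, hyP, hiP]
    subst hyx
    simp only [hiP] at hzy
    refine hPΓ (hΓc.isClosed.mem_of_tendsto (f := fun n : ℕ => g^[n] z) (b := atTop) ?_
      (Eventually.of_forall fun n => iter_mem hΓi n hz))
    rw [tendsto_iff_dist_tendsto_zero]
    exact hzy
  · obtain ⟨m, hm⟩ := H _ hyP fun n => by
      rw [← Function.iterate_add_apply]
      exact hN _ (by omega)
    have hAev : ∀ k : ℕ, g^[k + m] y ∈ A := by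
      intro k
      have h3 : g^[k + m] y = g^[k + m + N] (g.symm^[N] y) := by
        rw [Function.iterate_add_apply g (k + m) N, iter_symm]
      rw [h3]
      have h4 : k + m + N = (k + N) + m := by ring
      rw [h4, Function.iterate_add_apply]
      exact trap_iter hA _ hm
    obtain ⟨q, hq, φ, hφ, hφq⟩ := hΓc.tendsto_subseq (x := fun n => g^[n + m] z)
      (fun n => iter_mem hΓi _ hz)
    have h5 : Tendsto (fun n => g^[φ n + m] y) atTop (𝓝 q) := by
      have h6 : Tendsto (fun n => dist (g^[φ n + m] z) (g^[φ n + m] y)) atTop (𝓝 0) :=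
        hzy.comp ((tendsto_add_atTop_nat m).comp hφ.tendsto_atTop)
      rw [tendsto_iff_dist_tendsto_zero] at hφq ⊢
      have h7 := h6.add hφq
      rw [add_zero] at h7
      refine squeeze_zero (fun _ => dist_nonneg) (fun n => ?_) h7
      rw [dist_comm (g^[φ n + m] z) (g^[φ n + m] y)]
      exact dist_triangle _ _ _
    have hqA : q ∈ A := hAc.mem_of_tendsto h5 (Eventually.of_forall fun n => hAev _)
    exact trap hAc hA hΓi hΓT hQ hQA hq hqA

end Pool.Agent.TH290.FC
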