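import Pool.Agent.TH290.FC.PassB
import Pool.Agent.TH290.FC.Top
import Pool.Agent.H728R2.OS.Defs

set_option autoImplicit false

/-! # Descent to the torus -/

open Set Filter Topology Real
open scoped ContDiff
open Pool.Agent.H728R2.OS (IsLift IsDiffeo CkClose)

namespace Pool.Agent.TH290.FC

theorem pr_cont : Continuous pr := continuous_quotient_mk'

theorem pr_surj (q : MM) : ∃ x, pr x = q := QuotientAddGroup.mk_surjective q

theorem pr_eq {x y : E} : pr x = pr y ↔ y - x ∈ Ltc := by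
  unfold pr
  rw [QuotientAddGroup.eq]
  rw [show -x + y = y - x by abel]

theorem pr_add {x l : E} (hl : l ∈ Ltc) : pr (x + l) = pr x := by
  rw [eq_comm, pr_eq, add_sub_cancel_left]; exact hl

theorem dist_pr (x y : E) : dist (pr x) (pr y) ≤ ‖x - y‖ := by
  rw [dist_eq_norm]
  have : pr x - pr y = ((x - y : E) : E ⧸ Ltc) := rfl
  rw [this]
  exact QuotientAddGroup.norm_mk_le_norm

theorem exists_near {x : E} {q : MM} {ε : ℝ} (h : dist q (pr x) < ε) :
    ∃ y, pr y = q ∧ ‖y - x‖ < ε := by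
  obtain ⟨y, rfl⟩ := pr_surj q
  rw [dist_eq_norm] at h
  have : pr y - pr x = ((y - x : E) : E ⧸ Ltc) := rfl
  rw [this, QuotientAddGroup.norm_lt_iff] at h
  obtain ⟨m, hm, hmε⟩ := h
  refine ⟨x + m, ?_, by simpa using hmε⟩
  rw [QuotientAddGroup.eq] at hm
  rw [pr_eq]
  rw [show y - (x + m) = -m + (y - x) by abel]
  exact hm

instance : T2Space MM := by
  refine ⟨fun a b hab => ?_⟩
  obtain ⟨x, rfl⟩ := pr_surj a
  have hpos : 0 < dist b (pr x) := by
    by_contra hc
    have h0 : dist b (pr x) = 0 := le_antisymm (not_lt.1 hc) dist_nonneg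
    obtain ⟨y, hy, hyx⟩ := exists_near (q := b) (x := x) (ε := 1 / 2) (by rw [h0]; norm_num)
    -- lifts arbitrarily close to `x` coincide with `y`
    have key : ∀ ε : ℝ, 0 < ε → ε ≤ 1 / 2 → ‖y - x‖ < ε := by
      intro ε hε hε'
      obtain ⟨z, hz, hzx⟩ := exists_near (q := b) (x := x) (ε := ε) (by rw [h0]; exact hε)
      have h1 : z - y ∈ Ltc := pr_eq.1 (hy.trans hz.symm)
      have h2 : z - y = 0 := by
        refine Lat_small h1 ?_
        have : z - y = (z - x) - (y - x) := by abel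
        rw [this]
        refine (norm_sub_le _ _).trans_lt ?_
        linarith
      rw [sub_eq_zero] at h2
      rwa [h2] at hzx
    have h3 : ‖y - x‖ ≤ 0 := by
      by_contra h
      push Not at h
      have := key (min ‖y - x‖ (1 / 2)) (lt_min h (by norm_num)) (min_le_right _ _)
      exact absurd this (not_lt.2 (min_le_left _ _))
    have h4 : y = x := sub_eq_zero.1 (norm_le_zero_iff.1 h3)
    exact hab (by rw [← hy, h4])
  refine ⟨Metric.ball (pr x) (dist b (pr x) / 2), Metric.ball b (dist b (pr x) / 2),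
    Metric.isOpen_ball, Metric.isOpen_ball, Metric.mem_ball_self (by linarith),
    Metric.mem_ball_self (by linarith), ?_⟩
  rw [Set.disjoint_left]
  intro z h1 h2
  rw [Metric.mem_ball] at h1 h2
  have := dist_triangle b z (pr x)
  rw [dist_comm b z] at this
  linarith

/-- Descent of an equivariant map. -/
noncomputable def desc (F : E → E) (A : E → E) (hA : ∀ l ∈ Ltc, A l ∈ Ltc)
    (hF : ∀ x, ∀ l ∈ Ltc, F (x + l) = F x + A l) : MM → MM :=
  fun q => Quotient.liftOn' q (fun x => pr (F x)) (by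
    intro x y h
    rw [QuotientAddGroup.leftRel_apply] at h
    have h1 : y = x + (-x + y) := by abel
    have h2 := hF x (-x + y) h
    rw [← h1] at h2
    show pr (F x) = pr (F y)
    rw [h2, pr_add (hA _ h)])

theorem desc_pr (F : E → E) (A : E → E) (hA : ∀ l ∈ Ltc, A l ∈ Ltc)
    (hF : ∀ x, ∀ l ∈ Ltc, F (x + l) = F x + A l) (x : E) : desc F A hA hF (pr x) = pr (F x) := rfl

theorem desc_cont (F : E → E) (A : E → E) (hA : ∀ l ∈ Ltc, A l ∈ Ltc)
    (hF : ∀ x, ∀ l ∈ Ltc, F (x + l) = F x + A l) (hc : Continuous F) :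
    Continuous (desc F A hA hF) :=
  (pr_cont.comp hc).quotient_liftOn' _

/-- The diffeomorphism. -/
noncomputable def ff : MM ≃ₜ MM where
  toFun := desc FF AL (fun _ h => AL_mem h) (fun _ _ h => FF_add h)
  invFun := desc FI AI (fun _ h => AI_mem h) (fun _ _ h => FI_add h)
  left_inv q := by
    obtain ⟨x, rfl⟩ := pr_surj q
    rw [desc_pr, desc_pr, FI_FF]
  right_inv q := by
    obtain ⟨x, rfl⟩ := pr_surj q
    rw [desc_pr, desc_pr, FF_FI]
  continuous_toFun := desc_cont _ _ _ _ FF_cd.continuous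
  continuous_invFun := desc_cont _ _ _ _ FI_cd.continuous

theorem ff_lift : IsLift pr FF ff := fun _ => rfl
theorem ff_lift' : IsLift pr FI ff.symm := fun _ => rfl

theorem ff_diffeo : IsDiffeo pr ⊤ ff := ⟨⟨FF, FF_cd, ff_lift⟩, ⟨FI, FI_cd, ff_lift'⟩⟩

/-- Two continuous lifts differ by a constant lattice vector. -/
theorem lift_const {F G : E → E} (hF : Continuous F) (hG : Continuous G)
    (h : ∀ x, pr (F x) = pr (G x)) : ∃ l ∈ Ltc, ∀ x, G x = F x + l := by
  have hmem : ∀ x, G x - F x ∈ Ltc := fun x => pr_eq.1 (h x)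
  have hloc : IsLocallyConstant fun x => G x - F x := by
    rw [IsLocallyConstant.iff_eventually_eq]
    intro x
    have hc : Continuous fun x => G x - F x := hG.sub hF
    have h1 := Metric.tendsto_nhds.1 (hc.tendsto x) 1 one_pos
    filter_upwards [h1] with y hy
    rw [dist_eq_norm] at hy
    exact sub_eq_zero.1 (Lat_small (Ltc.sub_mem (hmem y) (hmem x)) hy)
  refine ⟨G 0 - F 0, hmem 0, fun x => ?_⟩
  have : G x - F x = G 0 - F 0 := hloc.apply_eq_of_preconnectedSpace x 0
  rw [← this]; abel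

theorem lift_iter {F : E → E} {f : MM → MM} (h : IsLift pr F f) (n : ℕ) (z : E) :
    pr (F^[n] z) = f^[n] (pr z) := by
  induction n with
  | zero => rfl
  | succ n ih => rw [Function.iterate_succ_apply', Function.iterate_succ_apply', h, ih]

/-- Normalisation of the perturbations. -/
theorem exists_sys {g : MM ≃ₜ MM} {δ : ℝ} (hδ : δ ≤ 1 / 10000000) (hg : IsDiffeo pr 1 g)
    (hc : CkClose pr 1 δ ff g) :
    ∃ S : Sys, S.δ = δ ∧ IsLift pr S.G g ∧ IsLift pr S.H g.symm ∧ Continuous S.G ∧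
      Continuous S.H := by
  obtain ⟨-, H0, hH0, hH0l⟩ := hg
  obtain ⟨F1, G1, hF1, hG1, hF1l, hG1l, hcl⟩ := hc
  have hF1' : ContDiff ℝ 1 F1 := by exact_mod_cast hF1
  have hG1' : ContDiff ℝ 1 G1 := by exact_mod_cast hG1
  have hH0' : ContDiff ℝ 1 H0 := by exact_mod_cast hH0
  obtain ⟨l1, hl1, h1⟩ := lift_const FF_cd.continuous hF1'.continuous (fun x => by
    rw [ff_lift x, hF1l x])
  set G : E → E := fun x => G1 x - l1 with hG
  have hGcd : ContDiff ℝ 1 G := hG1'.sub contDiff_const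
  have hGl : IsLift pr G g := fun x => by
    have : G x = G1 x + -l1 := by rw [hG]; simp only; abel
    rw [this, pr_add (Ltc.neg_mem hl1)]
    exact hG1l x
  obtain ⟨l2, hl2, h2⟩ := lift_const (F := fun x => x) (G := fun x => H0 (G x)) continuous_id
    (hH0'.continuous.comp hGcd.continuous) (fun x => by
      rw [hH0l (G x), hGl x]; exact (g.symm_apply_apply _).symm)
  set H : E → E := fun x => H0 x - l2 with hH
  have hHcd : ContDiff ℝ 1 H := hH0'.sub contDiff_const
  have hHl : IsLift pr H g.symm := fun x => by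
    have : H x = H0 x + -l2 := by rw [hH]; simp only; abel
    rw [this, pr_add (Ltc.neg_mem hl2)]
    exact hH0l x
  have hHG : ∀ x, H (G x) = x := by
    intro x
    rw [hH]; simp only
    rw [h2 x]; abel
  obtain ⟨l3, hl3, h3⟩ := lift_const (F := fun x => x) (G := fun x => G (H x)) continuous_id
    (hGcd.continuous.comp hHcd.continuous) (fun x => by
      rw [hGl (H x), hHl x]; exact (g.apply_symm_apply _).symm)
  have hGH : ∀ x, G (H x) = x := by
    have e1 := h3 (G 0)
    rw [hHG] at e1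
    have e2 : l3 = 0 := by
      have : G 0 = G 0 + l3 := e1
      simpa using this
    intro x
    have := h3 x
    rw [e2, add_zero] at this
    exact this
  have hdiff : ∀ x, G x - FF x = G1 x - F1 x := by
    intro x
    rw [h1 x, hG]; simp only; abel
  have hbd : ∀ x, ‖G x - FF x‖ ≤ δ := by
    intro x
    rw [hdiff]
    have := hcl 0 (by norm_num) x
    rw [norm_iteratedFDeriv_zero] at this
    exact this.le
  have hδ0 : 0 ≤ δ := (norm_nonneg _).trans (hbd 0)
  have hlip : ∀ x y, ‖(G x - FF x) - (G y - FF y)‖ ≤ δ * ‖x - y‖ := by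
    intro x y
    rw [hdiff, hdiff]
    have hd : ∀ z ∈ (univ : Set E), DifferentiableAt ℝ (fun w => G1 w - F1 w) z := fun z _ =>
      ((hG1'.sub hF1').differentiable one_ne_zero) z
    have hb : ∀ z ∈ (univ : Set E), ‖fderiv ℝ (fun w => G1 w - F1 w) z‖ ≤ δ := fun z _ => by
      have := hcl 1 le_rfl z
      rw [norm_iteratedFDeriv_one] at this
      exact this.le
    have := convex_univ.norm_image_sub_le_of_norm_fderiv_le hd hb (mem_univ y) (mem_univ x)
    exact this
  have hper : ∀ x l, l ∈ Ltc → G (x + l) = G x + AL l := by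
    intro x l hl
    have m1 : G (x + l) - G x ∈ Ltc := pr_eq.1 (by rw [hGl, hGl, pr_add hl])
    have m2 : AL l ∈ Ltc := AL_mem hl
    have m3 : (G (x + l) - FF (x + l)) - (G x - FF x) ∈ Ltc := by
      rw [FF_add hl]
      have : G (x + l) - (FF x + AL l) - (G x - FF x) = (G (x + l) - G x) - AL l := by abel
      rw [this]
      exact Ltc.sub_mem m1 m2
    have m4 := sub_eq_zero.1 (Lat_small m3 (by
      calc _ ≤ ‖G (x + l) - FF (x + l)‖ + ‖G x - FF x‖ := norm_sub_le _ _
        _ ≤ δ + δ := add_le_add (hbd _) (hbd _)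
        _ < 1 := by linarith))
    rw [FF_add hl] at m4
    have m5 : G (x + l) = (G (x + l) - (FF x + AL l)) + (FF x + AL l) := by abel
    rw [m5, m4]
    abel
  exact ⟨⟨G, H, δ, hGH, hHG, hδ, hbd, hlip, hper⟩, rfl, hGl, hHl, hGcd.continuous,
    hHcd.continuous⟩

/-! ### The regions -/

/-- The attracting region in the torus. -/
def AA : Set MM := pr '' {x | inA x}
/-- The repelling region in the torus. -/
def AR : Set MM := pr '' {x | inR x}

theorem pr_quot : IsQuotientMap pr := isQuotientMap_quotient_mk'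

theorem mem_AA {x : E} : pr x ∈ AA ↔ inA x := by
  constructor
  · rintro ⟨y, hy, hyx⟩
    have := pr_eq.1 hyx
    rw [show x = y + (x - y) by abel, inA_add this]
    exact hy
  · exact fun h => ⟨x, h, rfl⟩

theorem mem_AR {x : E} : pr x ∈ AR ↔ inR x := by
  constructor
  · rintro ⟨y, hy, hyx⟩
    have := pr_eq.1 hyx
    rw [show x = y + (x - y) by abel, inR_add this]
    exact hy
  · exact fun h => ⟨x, h, rfl⟩

theorem AA_closed : IsClosed AA := by
  rw [← pr_quot.isClosed_preimage]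
  have : pr ⁻¹' AA = {x | nz (x 2 - 1 / 2) ≤ 1 / 16} ∩
      ({x | nz (x 0) ≤ 1 / 8} ∪ {x | nz (x 1 - 1 / 2) ≤ 1 / 8}) := by
    ext x
    rw [mem_preimage, mem_AA]
    rfl
  rw [this]
  refine IsClosed.inter ?_ (IsClosed.union ?_ ?_)
  · exact isClosed_le (nz_cont.comp (by fun_prop)) continuous_const
  · exact isClosed_le (nz_cont.comp (by fun_prop)) continuous_const
  · exact isClosed_le (nz_cont.comp (by fun_prop)) continuous_const

theorem AR_closed : IsClosed AR := by
  rw [← pr_quot.isClosed_preimage]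
  have : pr ⁻¹' AR = {x | nz (x 2) ≤ 1 / 16} ∩
      ({x | nz (x 0 - 1 / 2) ≤ 1 / 8} ∪ {x | nz (x 1 - 1 / 2) ≤ 1 / 8}) := by
    ext x
    rw [mem_preimage, mem_AR]
    rfl
  rw [this]
  refine IsClosed.inter ?_ (IsClosed.union ?_ ?_)
  · exact isClosed_le (nz_cont.comp (by fun_prop)) continuous_const
  · exact isClosed_le (nz_cont.comp (by fun_prop)) continuous_const
  · exact isClosed_le (nz_cont.comp (by fun_prop)) continuous_const

theorem AA_int {x : E} (h : inA' x) : pr x ∈ interior AA := by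
  have ho : IsOpen (pr '' {x | inA' x}) := by
    rw [← pr_quot.isOpen_preimage]
    have : pr ⁻¹' (pr '' {x | inA' x}) = {x | nz (x 2 - 1 / 2) < 1 / 16} ∩
        ({x | nz (x 0) < 1 / 8} ∪ {x | nz (x 1 - 1 / 2) < 1 / 8}) := by
      ext x
      constructor
      · rintro ⟨y, hy, hyx⟩
        have := pr_eq.1 hyx
        have h2 : inA' x := by
          rw [show x = y + (x - y) by abel, inA'_add this]
          exact hy
        exact h2
      · exact fun h => ⟨x, h, rfl⟩
    rw [this]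
    refine IsOpen.inter ?_ (IsOpen.union ?_ ?_)
    · exact isOpen_lt (nz_cont.comp (by fun_prop)) continuous_const
    · exact isOpen_lt (nz_cont.comp (by fun_prop)) continuous_const
    · exact isOpen_lt (nz_cont.comp (by fun_prop)) continuous_const
  exact interior_maximal (image_mono fun y hy => hy.le) ho ⟨x, h, rfl⟩

theorem AR_int {x : E} (h : inR' x) : pr x ∈ interior AR := by
  have ho : IsOpen (pr '' {x | inR' x}) := by
    rw [← pr_quot.isOpen_preimage]
    have : pr ⁻¹' (pr '' {x | inR' x}) = {x | nz (x 2) < 1 / 16} ∩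
        ({x | nz (x 0 - 1 / 2) < 1 / 8} ∪ {x | nz (x 1 - 1 / 2) < 1 / 8}) := by
      ext x
      constructor
      · rintro ⟨y, hy, hyx⟩
        have := pr_eq.1 hyx
        have h2 : inR' x := by
          rw [show x = y + (x - y) by abel, inR'_add this]
          exact hy
        exact h2
      · exact fun h => ⟨x, h, rfl⟩
    rw [this]
    refine IsOpen.inter ?_ (IsOpen.union ?_ ?_)
    · exact isOpen_lt (nz_cont.comp (by fun_prop)) continuous_const
    · exact isOpen_lt (nz_cont.comp (by fun_prop)) continuous_const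
    · exact isOpen_lt (nz_cont.comp (by fun_prop)) continuous_const
  exact interior_maximal (image_mono fun y hy => hy.le) ho ⟨x, h, rfl⟩

section
variable (S : Sys) {g : MM ≃ₜ MM} (hG : IsLift pr S.G g) (hH : IsLift pr S.H g.symm)

theorem PP_notA : ¬ inA (PP S) := by
  rintro ⟨h, -⟩
  have := abs_le.1 (PP_b S 2)
  have h2 := nz_lower (t := PP S 2 - 1 / 2) (a := 1 / 4)
    (by rw [abs_of_neg (by linarith)]; linarith) (by rw [abs_of_neg (by linarith)]; linarith)
  linarith

theorem QQ_notA : ¬ inA (QQ S) := by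
  rintro ⟨-, h⟩
  have h0 := abs_le.1 (QQ_b S 0)
  have h1 := abs_le.1 (QQ_b S 1)
  simp only [cQ, v3_0, v3_1] at h0 h1
  rcases h with h | h
  · have h2 := nz_lower (t := QQ S 0) (a := 1 / 4)
      (by rw [abs_of_pos (by linarith)]; linarith) (by rw [abs_of_pos (by linarith)]; linarith)
    linarith
  · have h2 := nz_lower (t := QQ S 1 - 1 / 2) (a := 1 / 4)
      (by rw [abs_of_neg (by linarith)]; linarith) (by rw [abs_of_neg (by linarith)]; linarith)
    linarith

theorem QQ_notR : ¬ inR (QQ S) := by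
  rintro ⟨h, -⟩
  have h2 := abs_le.1 (QQ_b S 2)
  simp only [cQ, v3_2] at h2
  have h3 := nz_lower (t := QQ S 2) (a := 1 / 4)
    (by rw [abs_of_pos (by linarith)]; linarith) (by rw [abs_of_pos (by linarith)]; linarith)
  linarith

theorem PP_notR : ¬ inR (PP S) := by
  rintro ⟨-, h⟩
  have h0 := abs_le.1 (PP_b S 0)
  have h1 := abs_le.1 (PP_b S 1)
  rcases h with h | h
  · have h2 := nz_lower (t := PP S 0 - 1 / 2) (a := 1 / 4)
      (by rw [abs_of_neg (by linarith)]; linarith) (by rw [abs_of_neg (by linarith)]; linarith)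
    linarith
  · have h2 := nz_lower (t := PP S 1 - 1 / 2) (a := 1 / 4)
      (by rw [abs_of_neg (by linarith)]; linarith) (by rw [abs_of_neg (by linarith)]; linarith)
    linarith

theorem PP_ne_QQ : pr (PP S) ≠ pr (QQ S) := by
  intro h
  obtain ⟨a, b, c, h0, -, -⟩ := Lint (pr_eq.1 h)
  rw [Pi.sub_apply] at h0
  have h1 := abs_le.1 (PP_b S 0)
  have h2 := abs_le.1 (QQ_b S 0)
  simp only [cQ, v3_0] at h2
  have h3 : (0 : ℝ) < a := by rw [← h0]; linarith
  have h4 : (a : ℝ) < 1 := by rw [← h0]; linarith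
  have h5 : 0 < a := by exact_mod_cast h3
  have h6 : a < 1 := by exact_mod_cast h4
  omega

/-- Lipschitz bounds in the zones. -/
theorem lipP {x y : E} (hx : x ∈ OP) (hy : y ∈ OP) : ‖S.G x - S.G y‖ ≤ 50 * ‖x - y‖ := by
  have c0 := cle (x - y) 0
  have c1 := cle (x - y) 1
  have c2 := cle (x - y) 2
  simp only [Pi.sub_apply] at c0 c1 c2
  have q0 := S.pl x y 0
  have q1 := S.pl x y 1
  have q2 := S.pl x y 2
  have hn := norm_nonneg (x - y)
  refine norm3 ?_ ?_ ?_
  · rw [Pi.sub_apply, Sys.GP0 hx, Sys.GP0 hy,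
      show 1 / 100 * x 0 + S.p x 0 - (1 / 100 * y 0 + S.p y 0) =
        1 / 100 * (x 0 - y 0) + (S.p x 0 - S.p y 0) by ring]
    refine (abs_add_le _ _).trans ?_
    rw [abs_mul, abs_of_pos (by norm_num : (0 : ℝ) < 1 / 100)]
    linarith
  · rw [Pi.sub_apply, Sys.GP1 hx, Sys.GP1 hy,
      show 2 / 5 * x 1 + S.p x 1 - (2 / 5 * y 1 + S.p y 1) =
        2 / 5 * (x 1 - y 1) + (S.p x 1 - S.p y 1) by ring]
    refine (abs_add_le _ _).trans ?_
    rw [abs_mul, abs_of_pos (by norm_num : (0 : ℝ) < 2 / 5)]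
    linarith
  · rw [Pi.sub_apply, Sys.GP2 hx, Sys.GP2 hy,
      show kp * x 2 + S.p x 2 - (kp * y 2 + S.p y 2) =
        kp * (x 2 - y 2) + (S.p x 2 - S.p y 2) by ring]
    refine (abs_add_le _ _).trans ?_
    have := kp_mul_le c2
    linarith

theorem lipQ {x y : E} (hx : x ∈ OQ) (hy : y ∈ OQ) : ‖S.GQ x - S.GQ y‖ ≤ 50 * ‖x - y‖ := by
  have c0 := cle (x - y) 0
  have c1 := cle (x - y) 1
  have c2 := cle (x - y) 2
  simp only [Pi.sub_apply] at c0 c1 c2
  have q0 := S.pl x y 0
  have q1 := S.pl x y 1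
  have q2 := S.pl x y 2
  have hn := norm_nonneg (x - y)
  refine norm3 ?_ ?_ ?_
  · rw [Pi.sub_apply, Sys.QG0 hx, Sys.QG0 hy,
      show 1 / 2 + kp * (x 0 - 1 / 2) + S.p x 0 - (1 / 2 + kp * (y 0 - 1 / 2) + S.p y 0) =
        kp * (x 0 - y 0) + (S.p x 0 - S.p y 0) by ring]
    refine (abs_add_le _ _).trans ?_
    have := kp_mul_le c0
    linarith
  · rw [Pi.sub_apply, Sys.QG1 hx, Sys.QG1 hy,
      show 8 / 5 * x 1 + S.p x 1 - (8 / 5 * y 1 + S.p y 1) =
        8 / 5 * (x 1 - y 1) + (S.p x 1 - S.p y 1) by ring]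
    refine (abs_add_le _ _).trans ?_
    rw [abs_mul, abs_of_pos (by norm_num : (0 : ℝ) < 8 / 5)]
    linarith
  · rw [Pi.sub_apply, Sys.QG2 hx, Sys.QG2 hy,
      show 1 / 100 * x 2 + 99 / 200 + S.p x 2 - (1 / 100 * y 2 + 99 / 200 + S.p y 2) =
        1 / 100 * (x 2 - y 2) + (S.p x 2 - S.p y 2) by ring]
    refine (abs_add_le _ _).trans ?_
    rw [abs_mul, abs_of_pos (by norm_num : (0 : ℝ) < 1 / 100)]
    linarith

theorem OP_near {x : E} (h : ‖x - PP S‖ < 1 / 150) : x ∈ OP := by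
  have h1 := PP_norm S
  have h2 := S.δ1
  have h3 : ‖x‖ ≤ ‖x - PP S‖ + ‖PP S‖ := by
    simpa using norm_add_le (x - PP S) (PP S)
  exact OP_of (a := 1 / 150 + 1 / 1000000) (by linarith) (by norm_num)

theorem OQ_near {x : E} (h : ‖x - QQ S‖ < 1 / 150) : x ∈ OQ := by
  have h1 := QQ_norm S
  have h2 := S.δ1
  have h3 : ‖x - cQ‖ ≤ ‖x - QQ S‖ + ‖QQ S - cQ‖ := by
    simpa using norm_add_le (x - QQ S) (QQ S - cQ)
  exact OQ_of (a := 1 / 150 + 1 / 1000000) (by linarith) (by norm_num)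

include hG in
theorem pr_GQ (x : E) : pr (S.GQ x) = g (pr x) := by
  rw [← hG x]
  show pr (S.G x - e0) = _
  rw [sub_eq_add_neg, pr_add (Ltc.neg_mem e0_mem)]

include hG in
/-- Comparison of lifts near the first fixed point. -/
theorem liftP {x y : E} (hx : ‖x - PP S‖ < 1 / 150) (hy : ‖y - PP S‖ < 1 / 150)
    (h : g (pr x) = pr y) : S.G x = y := by
  have h1 : S.G x - y ∈ Ltc := pr_eq.1 (by rw [← h, hG])
  refine sub_eq_zero.1 (Lat_small h1 ?_)
  have h2 := lipP S (OP_near S hx) (PP_mem S)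
  rw [PP_fix] at h2
  have h3 : S.G x - y = (S.G x - PP S) - (y - PP S) := by abel
  rw [h3]
  refine (norm_sub_le _ _).trans_lt ?_
  linarith

include hG in
/-- Comparison of lifts near the second fixed point. -/
theorem liftQ {x y : E} (hx : ‖x - QQ S‖ < 1 / 150) (hy : ‖y - QQ S‖ < 1 / 150)
    (h : g (pr x) = pr y) : S.GQ x = y := by
  have h1 : S.GQ x - y ∈ Ltc := pr_eq.1 (by rw [← h, pr_GQ S hG])
  refine sub_eq_zero.1 (Lat_small h1 ?_)
  have h2 := lipQ S (OQ_near S hx) (QQ_mem S)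
  rw [QQ_fix] at h2
  have h3 : S.GQ x - y = (S.GQ x - QQ S) - (y - QQ S) := by abel
  rw [h3]
  refine (norm_sub_le _ _).trans_lt ?_
  linarith

include hG in
theorem gP : g (pr (PP S)) = pr (PP S) := by rw [← hG, PP_fix]

include hG in
theorem gQ : g (pr (QQ S)) = pr (QQ S) := by rw [← pr_GQ S hG, QQ_fix]

include hG in
/-- Uniqueness of the fixed point near the first saddle. -/
theorem P_near {q : MM} (h : g q = q) (hq : dist q (pr (PP S)) < 1 / 150) : q = pr (PP S) := by
  obtain ⟨y, rfl, hy⟩ := exists_near hq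
  have := liftP S hG hy hy h
  rw [P_unique S (OP_near S hy) this]

include hG in
theorem Q_near {q : MM} (h : g q = q) (hq : dist q (pr (QQ S)) < 1 / 150) : q = pr (QQ S) := by
  obtain ⟨y, rfl, hy⟩ := exists_near hq
  have := liftQ S hG hy hy h
  rw [Q_unique S (OQ_near S hy) this]

include hG in
theorem trapAA (x : MM) (hx : x ∈ AA) : g x ∈ interior AA := by
  obtain ⟨y, rfl⟩ := pr_surj x
  rw [← hG]
  exact AA_int (trapA (mem_AA.1 hx))

include hH in
theorem trapAR (x : MM) (hx : x ∈ AR) : g.symm x ∈ interior AR := by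
  obtain ⟨y, rfl⟩ := pr_surj x
  rw [← hH]
  refine AR_int (trapR (S := S) ?_)
  rw [S.GH]
  exact mem_AR.1 hx

include hG in
theorem reachA (hU : Up S) (hN : NI S) (w : MM) (hw : w ≠ pr (PP S))
    (hB : ∀ n : ℕ, g.symm^[n + 1] w ∈ Metric.closedBall (pr (PP S)) (1 / 200)) :
    ∃ n : ℕ, g^[n] w ∈ AA := by
  have hex : ∀ n : ℕ, ∃ y, pr y = g.symm^[n + 1] w ∧ ‖y - PP S‖ < 1 / 150 := fun n =>
    exists_near (lt_of_le_of_lt (Metric.mem_closedBall.1 (hB n)) (by norm_num))
  choose s hs hsn using hex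
  have hstep : ∀ n, S.G (s (n + 1)) = s n := fun n =>
    liftP S hG (hsn _) (hsn _) (by
      rw [hs, hs, Function.iterate_succ_apply' g.symm (n + 1), g.apply_symm_apply])
  have h0 : pr (S.G (s 0)) = w := by
    rw [hG, hs]
    show g (g.symm^[0 + 1] w) = w
    rw [Function.iterate_succ_apply', g.apply_symm_apply]
    rfl
  have hu : S.G (s 0) ∈ UU S := by
    refine ⟨fun n => match n with
      | 0 => S.G (s 0)
      | n + 1 => s n, rfl, fun n => ?_⟩
    cases n with
    | zero => exact ⟨OP_near S (hsn 0), rfl⟩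
    | succ n => exact ⟨OP_near S (hsn _), hstep n⟩
  have hne : S.G (s 0) ≠ PP S := fun h => hw (by rw [← h0, h])
  obtain ⟨n, hn⟩ := lemmaA hU hN hu hne
  refine ⟨n, ?_⟩
  rw [← h0, ← lift_iter hG]
  exact mem_AA.2 hn

include hG hH in
theorem reachR (hD : Down S) (hN : NI S) (w : MM) (hw : w ≠ pr (QQ S))
    (hB : ∀ n : ℕ, g.symm.symm^[n + 1] w ∈ Metric.closedBall (pr (QQ S)) (1 / 200)) :
    ∃ n : ℕ, g.symm^[n] w ∈ AR := by
  have hex : ∀ n : ℕ, ∃ y, pr y = g^[n + 1] w ∧ ‖y - QQ S‖ < 1 / 150 := fun n =>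
    exists_near (lt_of_le_of_lt (Metric.mem_closedBall.1 (hB n)) (by norm_num))
  choose s hs hsn using hex
  have hstep : ∀ n, S.GQ (s n) = s (n + 1) := fun n =>
    liftQ S hG (hsn _) (hsn _) (by rw [hs, hs, ← Function.iterate_succ_apply' g (n + 1)])
  have hv : s 0 ∈ VV S := ⟨s, rfl, fun n => ⟨OQ_near S (hsn n), hstep n⟩⟩
  have h0 : pr (s 0) = g w := hs 0
  have hne : s 0 ≠ QQ S := fun h => hw (by
    have h1 : g w = pr (QQ S) := by rw [← h0, h]
    have h2 := gQ S hG
    rw [← h2] at h1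
    exact g.injective h1)
  obtain ⟨n, hn⟩ := lemmaB hD hN hv hne
  refine ⟨n, ?_⟩
  have h3 : inR (S.H^[n + 1] (s 0)) := by
    rw [Function.iterate_succ_apply']
    refine (trapR (S := S) ?_).le
    rw [S.GH]
    exact hn
  have h4 := mem_AR.2 h3
  rw [lift_iter hH, h0, Function.iterate_succ_apply, g.symm_apply_apply] at h4
  exact h4

include hG hH in
/-- If the two curves are disjoint then there is no connection from `Λ` to `Γ`. -/
theorem no_cycle (hN : NI S) {Λ Γ : Set MM} (hΛc : IsCompact Λ) (hΛi : g '' Λ = Λ)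
    (hΛT : TT g Λ) (hP : pr (PP S) ∈ Λ) (hΓc : IsCompact Γ) (hΓi : g '' Γ = Γ) (hΓT : TT g Γ)
    (hQ : pr (QQ S) ∈ Γ) (y : MM)
    (h1 : ∃ x ∈ Λ, Tendsto (fun n : ℕ => dist (g.symm^[n] x) (g.symm^[n] y)) atTop (𝓝 0))
    (h2 : ∃ x ∈ Γ, Tendsto (fun n : ℕ => dist (g^[n] x) (g^[n] y)) atTop (𝓝 0)) : False := by
  rcases dicho S with hU | hD
  · exact no_conn AA_closed (trapAA S hG) (fun h => PP_notA S (mem_AA.1 h))
      (fun h => QQ_notA S (mem_AA.1 h)) (PP_ne_QQ S) (gP S hG) Metric.isClosed_closedBall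
      (Metric.closedBall_mem_nhds _ (by norm_num)) (reachA S hG hU hN) hΛc hΛi hΛT hP hΓc hΓi
      hΓT hQ y h1 h2
  · have hsQ : g.symm (pr (QQ S)) = pr (QQ S) := by
      conv_lhs => rw [← gQ S hG]
      exact g.symm_apply_apply _
    exact no_conn (g := g.symm) AR_closed (trapAR S hH) (fun h => QQ_notR S (mem_AR.1 h))
      (fun h => PP_notR S (mem_AR.1 h)) (PP_ne_QQ S).symm hsQ Metric.isClosed_closedBall
      (Metric.closedBall_mem_nhds _ (by norm_num)) (reachR S hG hH hD hN) hΓc (symm_inv hΓi)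
      (TT_symm hΓi hΓT) hQ hΛc (symm_inv hΛi) (TT_symm hΛi hΛT) hP y h2 h1

end

end Pool.Agent.TH290.FC
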